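import Mathlib
import Pool.Agent.H692.RR.Seq
import Pool.Agent.H692.RR.Count

/-!
# Assignments, and the forms which vanish for them
-/

set_option autoImplicit false
set_option linter.unusedSectionVars false

namespace Pool.Agent.H692.RB

open Finset
open Pool.Agent.H692.KS
open Pool.Agent.H692.RT (lv form_lv tl dot_tl)
open Pool.Agent.H692.RR (kl mem_kl finrank_kl_lt finrank_kl_ge dot_sum)

variable {K n : ℕ}

/-- the assignments: `K` variables for each variable of the last part -/
abbrev Mt (K n : ℕ) : Type := Fin n → Fin K → Fin n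

/-- the tuple of the variable `j` of the last part -/
def tp (M : Mt K n) (j : Fin n) : Tup (K + 1) n := Fin.snoc (α := fun _ => Fin n) (M j) j

theorem tp_last (M : Mt K n) (j : Fin n) : tp M j (Fin.last K) = j := by
  unfold tp
  rw [Fin.snoc_last]

theorem tp_cast (M : Mt K n) (j : Fin n) (p : Fin K) : tp M j p.castSucc = M j p := by
  unfold tp
  rw [Fin.snoc_castSucc]

theorem lv_tp (M : Mt K n) (j : Fin n) : lv (tp M j) = (Fin.last K, j) := by
  unfold lv
  rw [tp_last]

theorem form_last (c : Fin (K + 1) → ℝ) (M : Mt K n) (i j : Fin n) :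
    form c (tp M i) (Fin.last K, j) = if i = j then c (Fin.last K) else 0 := by
  unfold form
  simp only [tp_last]

/-- `L` minus the combination of the forms of the assignment with the same coefficients in the last
part -/
noncomputable def rd (c : Fin (K + 1) → ℝ) (M : Mt K n) (L : Var (K + 1) n → ℝ) :
    Var (K + 1) n → ℝ := L - ∑ j, (L (Fin.last K, j) / c (Fin.last K)) • form c (tp M j)

theorem rd_last {c : Fin (K + 1) → ℝ} (hc : ∀ p, c p ≠ 0) (M : Mt K n) (L : Var (K + 1) n → ℝ)
    (j : Fin n) : rd c M L (Fin.last K, j) = 0 := by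
  unfold rd
  rw [Pi.sub_apply, Finset.sum_apply]
  simp only [Pi.smul_apply, smul_eq_mul, form_last, mul_ite, mul_zero]
  rw [sum_ite_eq' univ j fun j => L (Fin.last K, j) / c (Fin.last K) * c (Fin.last K),
    if_pos (mem_univ _), div_mul_cancel₀ _ (hc _), sub_self]

/-- the input which is given by an assignment -/
noncomputable def zM (c : Fin (K + 1) → ℝ) (x : Var (K + 1) n → ℝ) (M : Mt K n) :
    Var (K + 1) n → ℝ := fun v =>
  if v.1 = Fin.last K then -(∑ p : Fin K, c p.castSucc * x (p.castSucc, M v.2 p)) / c (Fin.last K)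
  else x v

theorem val_zM {c : Fin (K + 1) → ℝ} (hc : ∀ p, c p ≠ 0) (x : Var (K + 1) n → ℝ) (M : Mt K n)
    (j : Fin n) : val c (zM c x M) (tp M j) = 0 := by
  unfold KS.val
  rw [Fin.sum_univ_castSucc]
  have h1 : ∀ p : Fin K, c p.castSucc * zM c x M (p.castSucc, tp M j p.castSucc) =
      c p.castSucc * x (p.castSucc, M j p) := by
    intro p
    unfold zM
    rw [if_neg (Fin.castSucc_lt_last p).ne, tp_cast]
  have h2 : zM c x M (Fin.last K, tp M j (Fin.last K)) =
      -(∑ p : Fin K, c p.castSucc * x (p.castSucc, M j p)) / c (Fin.last K) := by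
    unfold zM
    rw [if_pos rfl]
    simp only [tp_last]
  rw [sum_congr rfl fun p _ => h1 p, h2, mul_div_assoc', mul_comm (c (Fin.last K)),
    mul_div_assoc, div_self (hc _)]
  ring

theorem dot_sub' {ι : Type} [Fintype ι] (L M w : ι → ℝ) : dot (L - M) w = dot L w - dot M w := by
  unfold dot
  rw [← sum_sub_distrib]
  exact sum_congr rfl fun e _ => by rw [Pi.sub_apply]; ring

theorem dot_zM {c : Fin (K + 1) → ℝ} (hc : ∀ p, c p ≠ 0) (x : Var (K + 1) n → ℝ) (M : Mt K n)
    (L : Var (K + 1) n → ℝ) : dot L (zM c x M) = dot (rd c M L) x := by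
  have h1 : dot (rd c M L) (zM c x M) = dot L (zM c x M) := by
    unfold rd
    rw [dot_sub', dot_sum]
    have : ∑ j, L (Fin.last K, j) / c (Fin.last K) * dot (form c (tp M j)) (zM c x M) = 0 :=
      sum_eq_zero fun j _ => by rw [dot_form, val_zM hc, mul_zero]
    rw [this, sub_zero]
  rw [← h1]
  unfold dot
  refine sum_congr rfl fun v _ => ?_
  by_cases hv : v.1 = Fin.last K
  · have : v = (Fin.last K, v.2) := Prod.ext hv rfl
    rw [this, rd_last hc, zero_mul, zero_mul]
  · unfold zM
    rw [if_neg hv]

/-- forms with different first variables are independent -/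
theorem lead : ∀ (m : ℕ) (A : Finset (Fin n)) (V : Submodule ℝ (Var (K + 1) n → ℝ)), A.card = m →
    (∀ j ∈ A, ∃ L ∈ V, L (Fin.last K, j) ≠ 0 ∧ ∀ i < j, L (Fin.last K, i) = 0) →
    A.card ≤ Module.finrank ℝ V := by
  intro m
  induction m with
  | zero => intro A V hA _; rw [hA]; exact Nat.zero_le _
  | succ m ih =>
    intro A V hA h
    have hne : A.Nonempty := by
      rw [← card_pos]
      omega
    set j := A.min' hne with hj
    have hjA : j ∈ A := A.min'_mem hne
    obtain ⟨L, hL, h1, h2⟩ := h j hjA
    have h3 := ih (A.erase j) (kl V (Fin.last K, j)) (by rw [card_erase_of_mem hjA, hA]; rfl)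
      (fun i hi => by
        obtain ⟨hij, hiA⟩ := mem_erase.1 hi
        obtain ⟨L', hL', h4, h5⟩ := h i hiA
        have hlt : j < i := lt_of_le_of_ne (A.min'_le i hiA) (Ne.symm hij)
        exact ⟨L', mem_kl.2 ⟨hL', h5 j hlt⟩, h4, h5⟩)
    have h4 := finrank_kl_lt hL h1
    rw [card_erase_of_mem hjA] at h3
    omega

theorem tp_update_ne (M : Mt K n) {i j : Fin n} (h : i ≠ j) (z : Fin K → Fin n) :
    tp (Function.update M j z) i = tp M i := by
  unfold tp
  rw [Function.update_of_ne h]

open Classical in
/-- the assignments for which a space of forms vanishes -/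
theorem card_assign {c : Fin (K + 1) → ℝ} (hc : ∀ p, c p ≠ 0) : ∀ (d : ℕ)
    (V : Submodule ℝ (Var (K + 1) n → ℝ)), d ≤ Module.finrank ℝ V →
    (univ.filter fun M : Mt K n => ∀ L ∈ V, rd c M L = 0).card * (n ^ K) ^ d ≤ (n ^ K) ^ n := by
  intro d
  induction d with
  | zero =>
    intro V _
    rw [pow_zero, mul_one]
    refine (card_filter_le _ _).trans (le_of_eq ?_)
    rw [card_univ, Fintype.card_pi_const, Fintype.card_pi_const, Fintype.card_fin]
  | succ d ih =>
    intro V hV
    by_cases hex : ∃ L ∈ V, ∃ j, L (Fin.last K, j) ≠ 0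
    · obtain ⟨L, hL, j, hj⟩ := hex
      have h1 := ih (kl V (Fin.last K, j)) (by have := finrank_kl_ge V (Fin.last K, j); omega)
      have h2 : (univ.filter fun M : Mt K n => ∀ L ∈ V, rd c M L = 0).card * n ^ K ≤
          (univ.filter fun M : Mt K n => ∀ L ∈ kl V (Fin.last K, j), rd c M L = 0).card := by
        have h3 : (univ.filter fun M : Mt K n => ∀ L ∈ V, rd c M L = 0).card * n ^ K =
            ((univ.filter fun M : Mt K n => ∀ L ∈ V, rd c M L = 0) ×ˢ
              (univ : Finset (Fin K → Fin n))).card := by
          rw [card_product, card_univ, Fintype.card_pi_const, Fintype.card_fin]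
        rw [h3]
        refine card_le_card_of_injOn (fun q => Function.update q.1 j q.2) ?_ ?_
        · rintro ⟨M, z⟩ hq
          have hM := (mem_filter.1 (mem_product.1 (mem_coe.1 hq)).1).2
          refine mem_coe.2 (mem_filter.2 ⟨mem_univ _, fun L' hL' => ?_⟩)
          obtain ⟨hL1, hL2⟩ := mem_kl.1 hL'
          have h4 := hM L' hL1
          unfold rd at h4 ⊢
          rw [← h4]
          congr 1
          refine sum_congr rfl fun i _ => ?_
          by_cases hi : i = j
          · rw [hi, hL2, zero_div, zero_smul, zero_smul]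
          · simp only
            rw [tp_update_ne M hi]
        · rintro ⟨M, z⟩ hq ⟨M', z'⟩ hq' h
          have hM := (mem_filter.1 (mem_product.1 (mem_coe.1 hq)).1).2 L hL
          have hM' := (mem_filter.1 (mem_product.1 (mem_coe.1 hq')).1).2 L hL
          have h' : Function.update M j z = Function.update M' j z' := h
          have hz : z = z' := by
            have := congrFun h' j
            rwa [Function.update_self, Function.update_self] at this
          have hoff : ∀ i, i ≠ j → M i = M' i := by
            intro i hi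
            have := congrFun h' i
            rwa [Function.update_of_ne hi, Function.update_of_ne hi] at this
          simp only at hM hM'
          have h5 : ∑ i, (L (Fin.last K, i) / c (Fin.last K)) • form c (tp M i) =
              ∑ i, (L (Fin.last K, i) / c (Fin.last K)) • form c (tp M' i) := by
            unfold rd at hM hM'
            rw [sub_eq_zero] at hM hM'
            rw [← hM, ← hM']
          rw [← add_sum_erase univ _ (mem_univ j),
            ← add_sum_erase univ (fun i => (L (Fin.last K, i) / c (Fin.last K)) •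
              form c (tp M' i)) (mem_univ j)] at h5
          have h6 : ∑ i ∈ univ.erase j, (L (Fin.last K, i) / c (Fin.last K)) • form c (tp M i) =
              ∑ i ∈ univ.erase j, (L (Fin.last K, i) / c (Fin.last K)) • form c (tp M' i) := by
            refine sum_congr rfl fun i hi => ?_
            unfold tp
            rw [hoff i (mem_erase.1 hi).1]
          rw [h6] at h5
          have h7 := add_right_cancel h5
          have h8 : L (Fin.last K, j) / c (Fin.last K) ≠ 0 := div_ne_zero hj (hc _)
          have h9 := smul_right_injective _ h8 h7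
          have h10 : tp M j = tp M' j := form_inj hc (a := 1) (by rw [one_smul]; exact h9)
          have h11 : M j = M' j := by
            funext p
            rw [← tp_cast M j p, ← tp_cast M' j p, h10]
          have h12 : M = M' := by
            funext i
            by_cases hi : i = j
            · rw [hi, h11]
            · exact hoff i hi
          rw [h12, hz]
      calc (univ.filter fun M : Mt K n => ∀ L ∈ V, rd c M L = 0).card * (n ^ K) ^ (d + 1)
          = ((univ.filter fun M : Mt K n => ∀ L ∈ V, rd c M L = 0).card * n ^ K) *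
            (n ^ K) ^ d := by rw [pow_succ]; ring
        _ ≤ (univ.filter fun M : Mt K n => ∀ L ∈ kl V (Fin.last K, j), rd c M L = 0).card *
            (n ^ K) ^ d := Nat.mul_le_mul_right _ h2
        _ ≤ _ := h1
    · push Not at hex
      obtain ⟨L, hL, hL0⟩ : ∃ L ∈ V, L ≠ 0 := by
        by_contra! hcon
        have : V = ⊥ := by
          rw [Submodule.eq_bot_iff]
          exact hcon
        rw [this, finrank_bot] at hV
        omega
      have h1 : (univ.filter fun M : Mt K n => ∀ L ∈ V, rd c M L = 0) = ∅ := by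
        refine filter_eq_empty_iff.2 fun M _ h => hL0 ?_
        have h2 := h L hL
        unfold rd at h2
        rw [sum_eq_zero fun j _ => by rw [hex L hL j, zero_div, zero_smul], sub_zero] at h2
        exact h2
      rw [h1, card_empty, zero_mul]
      exact Nat.zero_le _

theorem rd_add (c : Fin (K + 1) → ℝ) (M : Mt K n) (L L' : Var (K + 1) n → ℝ) :
    rd c M (L + L') = rd c M L + rd c M L' := by
  unfold rd
  have : ∑ j, ((L + L') (Fin.last K, j) / c (Fin.last K)) • form c (tp M j) =
      ∑ j, (L (Fin.last K, j) / c (Fin.last K)) • form c (tp M j) +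
      ∑ j, (L' (Fin.last K, j) / c (Fin.last K)) • form c (tp M j) := by
    rw [← sum_add_distrib]
    refine sum_congr rfl fun j _ => ?_
    rw [Pi.add_apply, add_div, add_smul]
  rw [this]
  abel

theorem rd_smul (c : Fin (K + 1) → ℝ) (M : Mt K n) (a : ℝ) (L : Var (K + 1) n → ℝ) :
    rd c M (a • L) = a • rd c M L := by
  unfold rd
  rw [smul_sub, smul_sum]
  congr 1
  refine sum_congr rfl fun j _ => ?_
  rw [Pi.smul_apply, smul_eq_mul, mul_div_assoc, mul_smul]

theorem rd_zero (c : Fin (K + 1) → ℝ) (M : Mt K n) : rd c M 0 = 0 := by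
  unfold rd
  simp

open Classical in
/-- among given forms, those which vanish for an assignment rarely have a large rank -/
theorem card_rank_assign {c : Fin (K + 1) → ℝ} (hc : ∀ p, c p ≠ 0)
    (F : Finset (Var (K + 1) n → ℝ)) (d : ℕ) :
    (univ.filter fun M : Mt K n => d ≤ Module.finrank ℝ (Submodule.span ℝ
      ((F : Set (Var (K + 1) n → ℝ)) ∩ {L | rd c M L = 0}))).card * (n ^ K) ^ d ≤
      F.card.choose d * (n ^ K) ^ n := by
  set I : Finset (Finset (Var (K + 1) n → ℝ)) := (powersetCard d F).filter fun s =>
    d ≤ Module.finrank ℝ (Submodule.span ℝ (s : Set (Var (K + 1) n → ℝ))) with hI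
  have h1 : (univ.filter fun M : Mt K n => d ≤ Module.finrank ℝ (Submodule.span ℝ
      ((F : Set (Var (K + 1) n → ℝ)) ∩ {L | rd c M L = 0}))) ⊆
      I.biUnion fun s => univ.filter fun M : Mt K n =>
        ∀ L ∈ Submodule.span ℝ (s : Set (Var (K + 1) n → ℝ)), rd c M L = 0 := by
    intro M hM
    have hM2 := (mem_filter.1 hM).2
    set A : Set (Var (K + 1) n → ℝ) :=
      (F : Set (Var (K + 1) n → ℝ)) ∩ {L | rd c M L = 0} with hA
    obtain ⟨b, hbA, hbs, hbl⟩ := exists_linearIndependent ℝ A
    have hfin : b.Finite := (F.finite_toSet.subset Set.inter_subset_left).subset hbA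
    have hbl' : LinearIndependent ℝ ((↑) : hfin.toFinset → Var (K + 1) n → ℝ) := by
      have h2 : LinearIndepOn ℝ id (hfin.toFinset : Set (Var (K + 1) n → ℝ)) := by
        rw [Set.Finite.coe_toFinset]
        exact hbl
      exact h2
    have hcard : d ≤ (hfin.toFinset).card := by
      rw [← finrank_span_finset_eq_card hbl', Set.Finite.coe_toFinset, hbs]
      exact hM2
    obtain ⟨s, hs, hsc⟩ := exists_subset_card_eq hcard
    have hsl : LinearIndependent ℝ ((↑) : s → Var (K + 1) n → ℝ) := by
      have h2 : LinearIndepOn ℝ id (hfin.toFinset : Set (Var (K + 1) n → ℝ)) := hbl'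
      exact h2.mono (coe_subset.2 hs)
    have hsA : ∀ L ∈ s, L ∈ A := fun L hL => hbA ((Set.Finite.mem_toFinset hfin).1 (hs hL))
    rw [mem_biUnion]
    refine ⟨s, ?_, ?_⟩
    · rw [hI, mem_filter, mem_powersetCard]
      refine ⟨⟨fun L hL => mem_coe.1 (hsA L hL).1, hsc⟩, ?_⟩
      rw [finrank_span_finset_eq_card hsl, hsc]
    · rw [mem_filter]
      refine ⟨mem_univ _, fun L hL => ?_⟩
      refine Submodule.span_induction (p := fun L _ => rd c M L = 0) ?_ ?_ ?_ ?_ hL
      · exact fun L hL => (hsA L hL).2
      · exact rd_zero c M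
      · intro a b _ _ ha hb
        rw [rd_add, ha, hb, add_zero]
      · intro r a _ ha
        rw [rd_smul, ha, smul_zero]
  calc (univ.filter fun M : Mt K n => d ≤ Module.finrank ℝ (Submodule.span ℝ
      ((F : Set (Var (K + 1) n → ℝ)) ∩ {L | rd c M L = 0}))).card * (n ^ K) ^ d
      ≤ (∑ s ∈ I, (univ.filter fun M : Mt K n =>
        ∀ L ∈ Submodule.span ℝ (s : Set (Var (K + 1) n → ℝ)), rd c M L = 0).card) *
        (n ^ K) ^ d := Nat.mul_le_mul_right _ ((card_le_card h1).trans card_biUnion_le)
    _ = ∑ s ∈ I, (univ.filter fun M : Mt K n =>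
        ∀ L ∈ Submodule.span ℝ (s : Set (Var (K + 1) n → ℝ)), rd c M L = 0).card *
        (n ^ K) ^ d := sum_mul _ _ _
    _ ≤ ∑ _s ∈ I, (n ^ K) ^ n := sum_le_sum fun s hs =>
        card_assign hc d (Submodule.span ℝ (s : Set (Var (K + 1) n → ℝ))) (mem_filter.1 hs).2
    _ = I.card * (n ^ K) ^ n := by rw [sum_const, smul_eq_mul]
    _ ≤ F.card.choose d * (n ^ K) ^ n := by
        refine Nat.mul_le_mul_right _ ?_
        have h3 : I.card ≤ (powersetCard d F).card := card_filter_le _ _
        rwa [card_powersetCard] at h3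

end Pool.Agent.H692.RB
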