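import Mathlib
import Pool.Agent.H692.RR.Tree

/-!
# The number of the courses of several trees for inputs in an affine space
-/

set_option autoImplicit false
set_option linter.unusedSectionVars false

namespace Pool.Agent.H692.RB

open Finset
open Pool.Agent.H692.KS
open Pool.Agent.H692.RT (forms nowForms)
open Pool.Agent.H692.RR (tf tf_leaf tf_zero ans_eq)

variable {ι : Type} [Fintype ι]

/-- the number of the subsets with at most `n` elements of a set with `m` elements -/
def sc (n m : ℕ) : ℕ := ∑ k ∈ range (n + 1), m.choose k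

theorem sc_mono (n : ℕ) {m m' : ℕ} (h : m ≤ m') : sc n m ≤ sc n m' :=
  sum_le_sum fun k _ => Nat.choose_le_choose k h

theorem choose_le_sc {n m k : ℕ} (h : k ≤ n) : m.choose k ≤ sc n m :=
  single_le_sum (f := fun k => m.choose k) (fun _ _ => Nat.zero_le _) (mem_range.2 (by omega))

open Classical in
theorem card_small {α : Type} (A : Finset (Finset α)) (S : Finset α) (n : ℕ)
    (h : ∀ s ∈ A, s ⊆ S ∧ s.card ≤ n) : A.card ≤ sc n S.card := by
  calc A.card ≤ ((range (n + 1)).biUnion fun k => powersetCard k S).card := by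
        refine card_le_card fun s hs => ?_
        rw [mem_biUnion]
        exact ⟨s.card, mem_range.2 (by have := (h s hs).2; omega),
          mem_powersetCard.2 ⟨(h s hs).1, rfl⟩⟩
    _ ≤ ∑ k ∈ range (n + 1), (powersetCard k S).card := card_biUnion_le
    _ = sc n S.card := by
        unfold sc
        refine sum_congr rfl fun k _ => ?_
        rw [card_powersetCard]

open Classical in
/-- sign vectors of affine functions in dimension `B.card` -/
theorem card_pat (S : Finset (ι → ℝ)) (B : Finset ι) (U : Set (ι → ℝ))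
    (hU : ∀ u ∈ U, ∀ u' ∈ U, ∀ v, v ∉ B → u v = u' v)
    (h2 : ∀ u ∈ U, ∀ L ∈ S, L ≠ 0 → dot L u ≠ 0) :
    ∃ A : Finset (Finset (ι → ℝ)), A.card ≤ sc B.card S.card ∧
      ∀ u ∈ U, (S.filter fun L => 0 < dot L u) ∈ A := by
  set P : (ι → ℝ) → Finset (ι → ℝ) := fun u => S.filter fun L => 0 < dot L u with hP
  have hfin : (P '' U).Finite := (Finset.finite_toSet S.powerset).subset (by
    rintro _ ⟨u, -, rfl⟩
    exact mem_coe.2 (mem_powerset.2 (filter_subset _ _)))
  set A : Finset (Finset (ι → ℝ)) := hfin.toFinset with hA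
  have hmemA : ∀ s, s ∈ A ↔ ∃ u ∈ U, P u = s := by
    intro s
    rw [hA, Set.Finite.mem_toFinset]
    rfl
  refine ⟨A, ?_, fun u hu => (hmemA _).2 ⟨u, hu, rfl⟩⟩
  refine (card_le_card_shatterer A).trans (card_small _ _ _ fun s hs => ?_)
  rw [mem_shatterer] at hs
  obtain ⟨u₀, hu₀, hu₀s⟩ : ∃ u ∈ U, s ∩ P u = s := by
    obtain ⟨t, ht, hst⟩ := hs (Subset.refl s)
    obtain ⟨u, hu, rfl⟩ := (hmemA t).1 ht
    exact ⟨u, hu, hst⟩
  have hsP : ∀ L ∈ s, L ∈ S ∧ 0 < dot L u₀ := by
    intro L hL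
    rw [← hu₀s, mem_inter] at hL
    exact mem_filter.1 hL.2
  have hs0 : ∀ L ∈ s, L ≠ 0 := by
    rintro L hL rfl
    have := (hsP 0 hL).2
    unfold dot at this
    simp at this
  refine ⟨fun L hL => (hsP L hL).1, ?_⟩
  have hli : LinearIndependent ℝ (fun L : s => fun v : B => L.1 v.1) := by
    rw [Fintype.linearIndependent_iff]
    intro g hg
    have hgB : ∀ v ∈ B, ∑ L : s, g L * L.1 v = 0 := by
      intro v hv
      have := congrFun hg ⟨v, hv⟩
      simpa [Finset.sum_apply] using this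
    -- the combination is constant
    have hval : ∀ u : ι → ℝ, ∑ L : s, g L * dot L.1 u =
        ∑ v ∈ univ.filter (fun v => v ∉ B), (∑ L : s, g L * L.1 v) * u v := by
      intro u
      have e1 : ∑ L : s, g L * dot L.1 u = ∑ v, (∑ L : s, g L * L.1 v) * u v := by
        unfold dot
        simp only [mul_sum, sum_mul]
        rw [sum_comm]
        exact sum_congr rfl fun v _ => sum_congr rfl fun L _ => by ring
      rw [e1, ← sum_filter_add_sum_filter_not univ (fun v => v ∉ B)]
      have e2 : ∑ v ∈ univ.filter (fun v => ¬ v ∉ B), (∑ L : s, g L * L.1 v) * u v = 0 := by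
        refine sum_eq_zero fun v hv => ?_
        have hv' : v ∈ B := not_not.1 (mem_filter.1 hv).2
        rw [hgB v hv', zero_mul]
      rw [e2, add_zero]
    have hcst : ∀ u ∈ U, ∀ u' ∈ U, ∑ L : s, g L * dot L.1 u = ∑ L : s, g L * dot L.1 u' := by
      intro u hu u' hu'
      rw [hval, hval]
      refine sum_congr rfl fun v hv => ?_
      rw [hU u hu u' hu' v (mem_filter.1 hv).2]
    by_contra hne
    push Not at hne
    obtain ⟨L₀, hL₀⟩ := hne
    -- the patterns
    obtain ⟨t, ht, hst⟩ := hs (t := s.filter fun L => ∃ h : L ∈ s, 0 < g ⟨L, h⟩)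
      (filter_subset _ _)
    obtain ⟨u, hu, rfl⟩ := (hmemA t).1 ht
    obtain ⟨t', ht', hst'⟩ := hs (t := s.filter fun L => ∃ h : L ∈ s, g ⟨L, h⟩ < 0)
      (filter_subset _ _)
    obtain ⟨u', hu', rfl⟩ := (hmemA t').1 ht'
    have h7 : ∀ L : s, (0 < dot L.1 u ↔ 0 < g L) := by
      intro L
      have h8 : (L.1 ∈ s ∩ P u ↔ L.1 ∈ s.filter fun L => ∃ h : L ∈ s, 0 < g ⟨L, h⟩) := by
        rw [hst]
      simp only [hP, mem_inter, mem_filter, true_and, L.2, exists_true_left,
        (hsP L L.2).1] at h8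
      exact h8
    have h7' : ∀ L : s, (0 < dot L.1 u' ↔ g L < 0) := by
      intro L
      have h8 : (L.1 ∈ s ∩ P u' ↔ L.1 ∈ s.filter fun L => ∃ h : L ∈ s, g ⟨L, h⟩ < 0) := by
        rw [hst']
      simp only [hP, mem_inter, mem_filter, true_and, L.2, exists_true_left,
        (hsP L L.2).1] at h8
      exact h8
    have hne1 : ∀ L : s, dot L.1 u ≠ 0 := fun L => h2 u hu L.1 (hsP L L.2).1 (hs0 L L.2)
    have hne2 : ∀ L : s, dot L.1 u' ≠ 0 := fun L => h2 u' hu' L.1 (hsP L L.2).1 (hs0 L L.2)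
    have hp : 0 < ∑ L : s, g L * dot L.1 u := by
      refine sum_pos' (fun L _ => ?_) ⟨L₀, mem_univ _, ?_⟩
      · by_cases hg0 : 0 < g L
        · exact (mul_pos hg0 ((h7 L).2 hg0)).le
        · have h9 : ¬ 0 < dot L.1 u := fun h => hg0 ((h7 L).1 h)
          push Not at hg0 h9
          exact mul_nonneg_of_nonpos_of_nonpos hg0 h9
      · rcases lt_or_gt_of_ne hL₀ with h | h
        · have h9 : ¬ 0 < dot L₀.1 u := fun h' => absurd ((h7 L₀).1 h') (not_lt.2 h.le)
          exact mul_pos_of_neg_of_neg h (lt_of_le_of_ne (not_lt.1 h9) (hne1 L₀))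
        · exact mul_pos h ((h7 L₀).2 h)
    have hn : ∑ L : s, g L * dot L.1 u' < 0 := by
      refine sum_neg' (fun L _ => ?_) ⟨L₀, mem_univ _, ?_⟩
      · by_cases hg0 : g L < 0
        · exact (mul_neg_of_neg_of_pos hg0 ((h7' L).2 hg0)).le
        · have h9 : ¬ 0 < dot L.1 u' := fun h => hg0 ((h7' L).1 h)
          push Not at hg0 h9
          exact mul_nonpos_of_nonneg_of_nonpos hg0 h9
      · rcases lt_or_gt_of_ne hL₀ with h | h
        · exact mul_neg_of_neg_of_pos h ((h7' L₀).2 h)
        · have h9 : ¬ 0 < dot L₀.1 u' := fun h' => absurd ((h7' L₀).1 h') (not_lt.2 h.le)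
          exact mul_neg_of_pos_of_neg h (lt_of_le_of_ne (not_lt.1 h9) (hne2 L₀))
    rw [hcst u hu u' hu'] at hp
    exact lt_asymm hp hn
  have h8 := hli.fintype_card_le_finrank
  rw [Module.finrank_fintype_fun_eq_card, Fintype.card_coe, Fintype.card_coe] at h8
  exact h8

open Classical in
/-- the forms of the first round -/
noncomputable def now : KS.LT ι → Finset (ι → ℝ)
  | .leaf _ => ∅
  | .round _ L _ _ => univ.image L

/-- the tree after the first round -/
noncomputable def step : KS.LT ι → (ι → ℝ) → KS.LT ι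
  | .leaf b, _ => .leaf b
  | .round _ L σ next, u => next (ans L σ u)

open Classical in
theorem tf_succ (R : KS.LT ι) (k : ℕ) (u : ι → ℝ) :
    tf R (k + 1) u = now R ∪ tf (step R u) k u := by
  cases R with
  | leaf b =>
    unfold now step
    rw [tf_leaf, tf_leaf, union_empty]
  | round m L σ next => rfl

theorem tests_step (R : KS.LT ι) (u : ι → ℝ) :
    (now R).card + (step R u).tests u ≤ R.tests u := by
  cases R with
  | leaf b =>
    unfold now step
    rw [card_empty, zero_add]
  | round m L σ next =>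
    show (univ.image L).card + (next (ans L σ u)).tests u ≤ (next (ans L σ u)).tests u + m
    have h3 : (univ.image L).card ≤ m := card_image_le.trans (by simp)
    omega

theorem now_sub (R : KS.LT ι) : ∀ L ∈ now R, L ∈ forms R := by
  cases R with
  | leaf b => exact fun L hL => absurd hL (notMem_empty _)
  | round m L σ next =>
    intro L' hL'
    obtain ⟨i, -, hi⟩ := mem_image.1 hL'
    exact Or.inl ⟨i, hi⟩

theorem step_sub (R : KS.LT ι) (u : ι → ℝ) : forms (step R u) ⊆ forms R := by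
  cases R with
  | leaf b => exact subset_rfl
  | round m L σ next => exact fun L' hL' => Or.inr (Set.mem_iUnion.2 ⟨_, hL'⟩)

theorem step_eq (R : KS.LT ι) {u u' : ι → ℝ} (hu : ∀ L ∈ now R, L ≠ 0 → dot L u ≠ 0)
    (hu' : ∀ L ∈ now R, L ≠ 0 → dot L u' ≠ 0)
    (h : ∀ L ∈ now R, (0 < dot L u ↔ 0 < dot L u')) : step R u = step R u' := by
  cases R with
  | leaf b => rfl
  | round m L σ next =>
    show next (ans L σ u) = next (ans L σ u')
    congr 1
    refine ans_eq fun i hi => ?_
    have hm : L i ∈ now (.round m L σ next) := mem_image.2 ⟨i, mem_univ _, rfl⟩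
    have h1 := hu _ hm hi
    have h2 := hu' _ hm hi
    rcases lt_or_gt_of_ne h1 with h3 | h3
    · rcases lt_or_gt_of_ne h2 with h4 | h4
      · rw [sign_neg h3, sign_neg h4]
      · exact absurd ((h _ hm).2 h4) (not_lt.2 h3.le)
    · rw [sign_pos h3, sign_pos ((h _ hm).1 h3)]

open Classical in
/-- the forms which several trees test in the first `k` rounds -/
noncomputable def JF {I : Type} [Fintype I] (R : I → KS.LT ι) (k : ℕ) (u : ι → ℝ) :
    Finset (ι → ℝ) := univ.biUnion fun i => tf (R i) k u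

theorem mem_JF {I : Type} [Fintype I] {R : I → KS.LT ι} {k : ℕ} {u : ι → ℝ} {L : ι → ℝ} :
    L ∈ JF R k u ↔ ∃ i, L ∈ tf (R i) k u := by
  unfold JF
  simp

open Classical in
theorem card_joint {I : Type} [Fintype I] (B : Finset ι) (T : ℕ) : ∀ (k : ℕ) (R : I → KS.LT ι)
    (U : Set (ι → ℝ)), (∀ u ∈ U, ∀ u' ∈ U, ∀ v, v ∉ B → u v = u' v) →
    (∀ u ∈ U, ∀ i, ∀ L ∈ forms (R i), L ≠ 0 → dot L u ≠ 0) →
    (∀ u ∈ U, ∑ i, (R i).tests u ≤ T) →
    ∃ F : Finset (Finset (ι → ℝ)), F.card ≤ sc B.card T ^ k ∧ ∀ u ∈ U, JF R (k + 1) u ∈ F := by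
  intro k
  induction k with
  | zero =>
    intro R U _ _ _
    refine ⟨{univ.biUnion fun i => now (R i)}, by simp, fun u _ => ?_⟩
    rw [mem_singleton]
    unfold JF
    refine biUnion_congr rfl fun i _ => ?_
    rw [tf_succ, tf_zero, union_empty]
  | succ k ih =>
    intro R U hU h2 h4
    rcases U.eq_empty_or_nonempty with hE | ⟨u₀, hu₀⟩
    · exact ⟨∅, Nat.zero_le _, fun u hu => by rw [hE] at hu; exact absurd hu (Set.notMem_empty _)⟩
    set S : Finset (ι → ℝ) := univ.biUnion fun i => now (R i) with hS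
    have hSf : ∀ L ∈ S, ∃ i, L ∈ now (R i) := by
      intro L hL
      obtain ⟨i, -, hi⟩ := mem_biUnion.1 hL
      exact ⟨i, hi⟩
    have hST : S.card ≤ T := by
      refine card_biUnion_le.trans (le_trans (sum_le_sum fun i _ => ?_) (h4 u₀ hu₀))
      have := tests_step (R i) u₀
      omega
    obtain ⟨A, hA1, hA2⟩ := card_pat S B U hU fun u hu L hL h0 => by
      obtain ⟨i, hi⟩ := hSf L hL
      exact h2 u hu i L (now_sub _ L hi) h0
    have h5 : ∀ a : Finset (ι → ℝ), ∃ F : Finset (Finset (ι → ℝ)), F.card ≤ sc B.card T ^ k ∧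
        ∀ u ∈ U, (S.filter fun L => 0 < dot L u) = a → ∃ s ∈ F, JF R (k + 2) u = S ∪ s := by
      intro a
      by_cases hne : ∃ w ∈ U, (S.filter fun L => 0 < dot L w) = a
      swap
      · exact ⟨∅, Nat.zero_le _, fun u hu hua => absurd ⟨u, hu, hua⟩ hne⟩
      obtain ⟨w, hw, hwa⟩ := hne
      have hstep : ∀ u ∈ U, (S.filter fun L => 0 < dot L u) = a → ∀ i,
          step (R i) u = step (R i) w := by
        intro u hu hua i
        refine step_eq (R i) (fun L hL => h2 u hu i L (now_sub _ L hL))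
          (fun L hL => h2 w hw i L (now_sub _ L hL)) fun L hL => ?_
        have hLS : L ∈ S := mem_biUnion.2 ⟨i, mem_univ _, hL⟩
        have h6 : (L ∈ S.filter fun L => 0 < dot L u) ↔ (L ∈ S.filter fun L => 0 < dot L w) := by
          rw [hua, hwa]
        simpa [hLS] using h6
      obtain ⟨F, hF1, hF2⟩ := ih (fun i => step (R i) w)
        {u | u ∈ U ∧ (S.filter fun L => 0 < dot L u) = a}
        (fun u hu u' hu' => hU u hu.1 u' hu'.1)
        (fun u hu i L hL => h2 u hu.1 i L (step_sub _ _ hL))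
        (fun u hu => by
          refine le_trans (sum_le_sum fun i _ => ?_) (h4 u hu.1)
          rw [← hstep u hu.1 hu.2 i]
          have := tests_step (R i) u
          omega)
      refine ⟨F, hF1, fun u hu hua => ⟨_, hF2 u ⟨hu, hua⟩, ?_⟩⟩
      unfold JF
      ext L
      simp only [mem_biUnion, mem_univ, true_and, mem_union, hS]
      constructor
      · rintro ⟨i, hi⟩
        rw [tf_succ, mem_union] at hi
        rcases hi with hi | hi
        · exact Or.inl ⟨i, hi⟩
        · refine Or.inr ⟨i, ?_⟩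
          rw [← hstep u hu hua i]
          exact hi
      · rintro (⟨i, hi⟩ | ⟨i, hi⟩)
        · refine ⟨i, ?_⟩
          rw [tf_succ, mem_union]
          exact Or.inl hi
        · refine ⟨i, ?_⟩
          rw [tf_succ, mem_union, hstep u hu hua i]
          exact Or.inr hi
    choose F hF1 hF2 using h5
    refine ⟨A.biUnion fun a => (F a).image fun s => S ∪ s, ?_, fun u hu => ?_⟩
    · calc (A.biUnion fun a => (F a).image fun s => S ∪ s).card
          ≤ ∑ a ∈ A, ((F a).image fun s => S ∪ s).card := card_biUnion_le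
        _ ≤ ∑ _a ∈ A, sc B.card T ^ k := sum_le_sum fun a _ => card_image_le.trans (hF1 a)
        _ = A.card * sc B.card T ^ k := by rw [sum_const, smul_eq_mul]
        _ ≤ sc B.card T * sc B.card T ^ k :=
            Nat.mul_le_mul_right _ (hA1.trans (sc_mono _ hST))
        _ = sc B.card T ^ (k + 1) := by rw [pow_succ]; ring
    · rw [mem_biUnion]
      obtain ⟨s, hs, he⟩ := hF2 _ u hu rfl
      exact ⟨_, hA2 u hu, mem_image.2 ⟨s, hs, he.symm⟩⟩

theorem card_JF {I : Type} [Fintype I] (R : I → KS.LT ι) (k : ℕ) (u : ι → ℝ) :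
    (JF R k u).card ≤ ∑ i, (R i).tests u := by
  classical
  unfold JF
  exact card_biUnion_le.trans (sum_le_sum fun i _ => RR.card_tf (R i) u k)

/-- the number of small subsets -/
theorem sc_le {n m : ℕ} (hn : 1 ≤ n) (h : n ≤ m) :
    (sc n m : ℝ) ≤ (Real.exp 1 * m / n) ^ n := by
  have hn0 : (0 : ℝ) < n := by exact_mod_cast hn
  have hm0 : (0 : ℝ) < m := lt_of_lt_of_le hn0 (by exact_mod_cast h)
  have hmn : (1 : ℝ) ≤ m / n := by
    rw [one_le_div hn0]
    exact_mod_cast h
  have h1 : (sc n m : ℝ) ≤ (m / n : ℝ) ^ n * ∑ k ∈ range (n + 1), (m.choose k : ℝ) * (n / m : ℝ) ^ k := by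
    unfold sc
    push_cast
    rw [mul_sum]
    refine sum_le_sum fun k hk => ?_
    have hk' : k ≤ n := by
      have := mem_range.1 hk
      omega
    have e1 : (m / n : ℝ) ^ n = (m / n : ℝ) ^ (n - k) * (m / n : ℝ) ^ k := by
      rw [← pow_add]
      congr 1
      omega
    have e2 : (m / n : ℝ) ^ k * (n / m : ℝ) ^ k = 1 := by
      rw [← mul_pow, div_mul_div_comm, mul_comm, div_self (by positivity), one_pow]
    calc (m.choose k : ℝ) = 1 * (m.choose k : ℝ) := by ring
      _ ≤ (m / n : ℝ) ^ (n - k) * (m.choose k : ℝ) :=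
          mul_le_mul_of_nonneg_right (one_le_pow₀ hmn) (Nat.cast_nonneg _)
      _ = (m / n : ℝ) ^ (n - k) * (m.choose k : ℝ) * ((m / n : ℝ) ^ k * (n / m : ℝ) ^ k) := by
          rw [e2, mul_one]
      _ = _ := by rw [e1]; ring
  have h2 : ∑ k ∈ range (n + 1), (m.choose k : ℝ) * (n / m : ℝ) ^ k ≤ (1 + n / m : ℝ) ^ m := by
    have h3 : (1 + n / m : ℝ) ^ m = ∑ k ∈ range (m + 1), (m.choose k : ℝ) * (n / m : ℝ) ^ k := by
      rw [add_comm, add_pow]
      refine sum_congr rfl fun k _ => ?_
      rw [one_pow, mul_one, mul_comm]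
    rw [h3]
    refine sum_le_sum_of_subset_of_nonneg (range_subset_range.2 (by omega)) fun k _ _ => ?_
    positivity
  have h3 : (1 + n / m : ℝ) ^ m ≤ Real.exp n := by
    have h4 : (1 + n / m : ℝ) ≤ Real.exp (n / m) := by
      have := Real.add_one_le_exp ((n : ℝ) / m)
      linarith
    calc (1 + n / m : ℝ) ^ m ≤ Real.exp (n / m) ^ m := pow_le_pow_left₀ (by positivity) h4 m
      _ = Real.exp n := by
          rw [← Real.exp_nat_mul]
          congr 1
          field_simp
  have h4 : Real.exp n = Real.exp 1 ^ n := by rw [← Real.exp_nat_mul, mul_one]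
  calc (sc n m : ℝ) ≤ (m / n : ℝ) ^ n * Real.exp n :=
        h1.trans (mul_le_mul_of_nonneg_left (h2.trans h3) (by positivity))
    _ = (Real.exp 1 * m / n) ^ n := by
        rw [h4, ← mul_pow]
        congr 1
        ring

end Pool.Agent.H692.RB
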