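import Mathlib
import Pool.Agent.H692.RB.Pat
import Pool.Agent.H692.RB.Match
import Pool.Agent.H692.RR.Three

/-!
# The inputs of the assignments
-/

set_option autoImplicit false
set_option linter.unusedSectionVars false

namespace Pool.Agent.H692.RB

open Finset Filter Topology
open Pool.Agent.H692.KS
open Pool.Agent.H692.RT (forms nowForms lv form_lv tl dot_tl yes dot_yes noi dot_noi)
open Pool.Agent.H692.RR (tf Diff sub sub_path eventually_poly dot_sum_right)

variable {K n : ℕ}

/-- properties of the inputs `u M` of the assignments `M` -/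
structure Inst (c : Fin (K + 1) → ℝ) (x : Var (K + 1) n → ℝ) (u : Mt K n → Var (K + 1) n → ℝ)
    (S : Set (Var (K + 1) n → ℝ)) : Prop where
  agree : ∀ (M M' : Mt K n) (v : Var (K + 1) n), (v.1 = Fin.last K → M v.2 = M' v.2) →
    u M v = u M' v
  gen : ∀ M, ∀ L ∈ S, rd c M L ≠ 0 → dot L (zM c x M) ≠ 0
  far : ∀ M, ∀ L ∈ S, dot L (zM c x M) ≠ 0 →
    SignType.sign (dot L (u M)) = SignType.sign (dot L (zM c x M))
  lead : ∀ M, ∀ L ∈ S, rd c M L = 0 → ∀ j, L (Fin.last K, j) ≠ 0 →
    (∀ i < j, L (Fin.last K, i) = 0) →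
    SignType.sign (dot L (u M)) = SignType.sign (L (Fin.last K, j))

/-- the levels of the input -/
noncomputable def lvl (c : Fin (K + 1) → ℝ) (x : Var (K + 1) n → ℝ) (M : Mt K n) (i : ℕ) :
    Var (K + 1) n → ℝ :=
  if i = 0 then zM c x M else fun v => if v.1 = Fin.last K ∧ v.2.val + 1 = i then 1 else 0

theorem dot_lvl_succ (c : Fin (K + 1) → ℝ) (x : Var (K + 1) n → ℝ) (M : Mt K n) (j : Fin n)
    (L : Var (K + 1) n → ℝ) : dot L (lvl c x M (j.val + 1)) = L (Fin.last K, j) := by
  unfold dot lvl
  rw [if_neg (by omega), sum_eq_single (Fin.last K, j)]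
  · simp
  · rintro ⟨p, i⟩ _ hne
    simp only
    rw [if_neg, mul_zero]
    rintro ⟨h1, h2⟩
    apply hne
    rw [h1]
    congr 1
    exact Fin.ext (by omega)
  · intro h
    exact absurd (mem_univ _) h

theorem exists_inst {c : Fin (K + 1) → ℝ} (hc : ∀ p, c p ≠ 0) {S : Set (Var (K + 1) n → ℝ)}
    (hS : S.Finite) : ∃ (x : Var (K + 1) n → ℝ) (u : Mt K n → Var (K + 1) n → ℝ),
      Inst c x u S := by
  classical
  have := hS.to_subtype
  obtain ⟨x, -, hx⟩ := exists_generic (fun q : S × Mt K n => rd c q.2 q.1.1) isOpen_univ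
    (Set.mem_univ (0 : Var (K + 1) n → ℝ))
  have h1 : ∀ᶠ η in 𝓝[>] (0 : ℝ), ∀ M : Mt K n, ∀ L ∈ S, ∀ j : Fin (n + 1),
      (∀ i < j.1, dot L (lvl c x M i) = 0) → dot L (lvl c x M j) ≠ 0 →
      SignType.sign (∑ i ∈ range (n + 1), η ^ i * dot L (lvl c x M i)) =
        SignType.sign (dot L (lvl c x M j)) := by
    refine eventually_all.2 fun M => (eventually_all_finite hS).2 fun L hL =>
      eventually_all.2 fun j => ?_
    by_cases h2 : (∀ i < j.1, dot L (lvl c x M i) = 0) ∧ dot L (lvl c x M j) ≠ 0
    · have h3 := eventually_poly (fun i => dot L (lvl c x M i)) j.1 (n - j.1) h2.1 h2.2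
      have h4 : j.1 + (n - j.1 + 1) = n + 1 := by
        have := j.2
        omega
      rw [h4] at h3
      filter_upwards [h3] with η hη _ _
      exact hη
    · exact Eventually.of_forall fun η h3 h4 => absurd ⟨h3, h4⟩ h2
  obtain ⟨η, h2⟩ := h1.exists
  have h0 : ∀ M, lvl c x M 0 = zM c x M := fun M => if_pos rfl
  refine ⟨x, fun M => ∑ i ∈ range (n + 1), η ^ i • lvl c x M i, ?_, ?_, ?_, ?_⟩
  · intro M M' v hv
    rw [Finset.sum_apply, Finset.sum_apply]
    refine sum_congr rfl fun i _ => ?_
    rw [Pi.smul_apply, Pi.smul_apply]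
    congr 1
    unfold lvl
    split_ifs with hi
    · unfold zM
      by_cases h : v.1 = Fin.last K
      · rw [if_pos h, if_pos h, hv h]
      · rw [if_neg h, if_neg h]
    · rfl
  · intro M L hL h
    rw [dot_zM hc]
    exact hx (⟨L, hL⟩, M) h
  · intro M L hL h
    rw [dot_sum_right]
    have h3 := h2 M L hL ⟨0, by omega⟩ (fun i hi => absurd hi (Nat.not_lt_zero _))
      (by rw [h0]; exact h)
    rw [h3, h0]
  · intro M L hL h j hj hi
    rw [dot_sum_right]
    have h3 := h2 M L hL ⟨j.1 + 1, by have := j.2; omega⟩ (fun i hij => ?_)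
      (by rw [dot_lvl_succ]; exact hj)
    · rw [h3, dot_lvl_succ]
    · cases i with
      | zero =>
        rw [h0, dot_zM hc, h]
        unfold dot
        simp
      | succ i =>
        have hij' : i < j.1 := by
          have : i + 1 < j.1 + 1 := hij
          omega
        have hin : i < n := by
          have := j.2
          omega
        have h4 := dot_lvl_succ c x M ⟨i, hin⟩ L
        simp only at h4
        rw [h4]
        exact hi ⟨i, hin⟩ hij'

variable {c : Fin (K + 1) → ℝ} {x : Var (K + 1) n → ℝ} {u : Mt K n → Var (K + 1) n → ℝ}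
  {S : Set (Var (K + 1) n → ℝ)}

theorem exists_lead {M : Mt K n} {L : Var (K + 1) n → ℝ} (h0 : L ≠ 0) (h : rd c M L = 0) :
    ∃ j, L (Fin.last K, j) ≠ 0 ∧ ∀ i < j, L (Fin.last K, i) = 0 := by
  classical
  have h1 : (univ.filter fun j : Fin n => L (Fin.last K, j) ≠ 0).Nonempty := by
    by_contra hcon
    rw [not_nonempty_iff_eq_empty] at hcon
    apply h0
    rw [← h]
    unfold rd
    rw [sum_eq_zero, sub_zero]
    intro j _
    have h2 : L (Fin.last K, j) = 0 := by
      by_contra h3
      have : j ∈ univ.filter fun j : Fin n => L (Fin.last K, j) ≠ 0 :=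
        mem_filter.2 ⟨mem_univ _, h3⟩
      rw [hcon] at this
      exact absurd this (notMem_empty _)
    rw [h2, zero_div, zero_smul]
  refine ⟨_, (mem_filter.1 (min'_mem _ h1)).2, fun i hi => ?_⟩
  by_contra h3
  exact absurd (min'_le _ i (mem_filter.2 ⟨mem_univ _, h3⟩)) (not_le.2 hi)

theorem inst_ne (hI : Inst c x u S) (M : Mt K n) {L : Var (K + 1) n → ℝ} (hL : L ∈ S)
    (h0 : L ≠ 0) : dot L (u M) ≠ 0 := by
  by_cases h : rd c M L = 0
  · obtain ⟨j, h1, h2⟩ := exists_lead h0 h
    have h3 := hI.lead M L hL h j h1 h2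
    intro h4
    rw [h4, sign_zero] at h3
    exact h1 (sign_eq_zero_iff.1 h3.symm)
  · have h1 := hI.gen M L hL h
    have h3 := hI.far M L hL h1
    intro h4
    rw [h4, sign_zero] at h3
    exact h1 (sign_eq_zero_iff.1 h3.symm)

theorem rounds_of_diff (R : KS.LT (Var (K + 1) n)) {y z : Var (K + 1) n → ℝ} (h : Diff R y z) :
    1 ≤ R.rounds y := by
  cases R with
  | leaf b => exact absurd h id
  | round m L σ next =>
    show 1 ≤ (next (ans L σ y)).rounds y + 1
    omega

theorem rd_form (hc : ∀ p, c p ≠ 0) (M : Mt K n) (j : Fin n) : rd c M (form c (tp M j)) = 0 := by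
  unfold rd
  simp only [form_last]
  rw [sub_eq_zero, sum_eq_single j]
  · rw [if_pos rfl, div_self (hc _), one_smul]
  · intro i _ hi
    rw [if_neg (Ne.symm hi), zero_div, zero_smul]
  · intro h
    exact absurd (mem_univ _) h

open Classical in
/-- a tuple of the assignment is found only by a form whose first variable it has -/
theorem lead_of_path (hc : ∀ p, c p ≠ 0) (hI : Inst c x u S) {R : KS.LT (Var (K + 1) n)}
    (hR : forms R ⊆ S) (hRt : ∀ L ∈ forms R, ∀ s, tl c s L ∈ S) {M : Mt K n} {j : Fin n}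
    {y z : Var (K + 1) n → ℝ}
    (hy : ∀ L ∈ forms R, (¬ ∃ a : ℝ, L = a • form c (tp M j)) →
      SignType.sign (dot L y) = SignType.sign (dot L (yes c (u M) (tp M j))))
    (hz' : ∀ L ∈ forms R, (¬ ∃ a : ℝ, L = a • form c (tp M j)) →
      SignType.sign (dot L z) = SignType.sign (dot L (yes c (u M) (tp M j))))
    {r : ℕ} (hr : R.rounds y ≤ r) (hd : Diff R y z) :
    ∃ L ∈ tf R r (u M), rd c M L = 0 ∧ L (Fin.last K, j) ≠ 0 ∧
      ∀ i < j, L (Fin.last K, i) = 0 := by
  by_contra hcon
  push Not at hcon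
  have key : ∀ L ∈ tf R r (u M), L ≠ 0 → (¬ ∃ a : ℝ, L = a • form c (tp M j)) ∧
      SignType.sign (dot (tl c (tp M j) L) (u M)) = SignType.sign (dot L (u M)) := by
    intro L hL h0
    have hLf := RR.tf_forms R (u M) _ L hL
    have hLS := hR hLf
    have htS := hRt L hLf (tp M j)
    constructor
    · rintro ⟨a, ha⟩
      have ha0 : a ≠ 0 := by
        rintro rfl
        rw [zero_smul] at ha
        exact h0 ha
      have h1 : rd c M L = 0 := by rw [ha, rd_smul, rd_form hc, smul_zero]
      have h2 : L (Fin.last K, j) ≠ 0 := by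
        rw [ha, Pi.smul_apply, form_last, if_pos rfl, smul_eq_mul]
        exact mul_ne_zero ha0 (hc _)
      obtain ⟨i, hi, h3⟩ := hcon L hL h1 h2
      apply h3
      rw [ha, Pi.smul_apply, form_last, if_neg hi.ne', smul_zero]
    · by_cases hz : rd c M L = 0
      · obtain ⟨i₀, h1, h2⟩ := exists_lead h0 hz
        have hne : i₀ ≠ j := by
          rintro rfl
          obtain ⟨i, hi, h3⟩ := hcon L hL hz h1
          exact h3 (h2 i hi)
        have hco : ∀ i, i ≠ j → tl c (tp M j) L (Fin.last K, i) = L (Fin.last K, i) := by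
          intro i hi
          unfold tl
          rw [Pi.sub_apply, Pi.smul_apply, form_last, if_neg (Ne.symm hi), smul_zero, sub_zero]
        have hcj : tl c (tp M j) L (Fin.last K, j) = 0 := by
          unfold tl
          rw [Pi.sub_apply, Pi.smul_apply, form_last, if_pos rfl, lv_tp, smul_eq_mul,
            div_mul_cancel₀ _ (hc _), sub_self]
        have hrd : rd c M (tl c (tp M j) L) = 0 := by
          unfold tl
          have : L - (L (lv (tp M j)) / c (Fin.last K)) • form c (tp M j) =
              L + (-(L (lv (tp M j)) / c (Fin.last K))) • form c (tp M j) := by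
            rw [neg_smul, sub_eq_add_neg]
          rw [this, rd_add, rd_smul, rd_form hc, smul_zero, add_zero, hz]
        rw [hI.lead M L hLS hz i₀ h1 h2, hI.lead M _ htS hrd i₀ (by rw [hco i₀ hne]; exact h1)
          (fun i hi => ?_), hco i₀ hne]
        by_cases hij : i = j
        · rw [hij]
          exact hcj
        · rw [hco i hij]
          exact h2 i hi
      · have h1 := hI.gen M L hLS hz
        have h2 : dot (tl c (tp M j) L) (zM c x M) = dot L (zM c x M) := by
          rw [dot_tl, val_zM hc, mul_zero, sub_zero]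
        rw [hI.far M L hLS h1, hI.far M _ htS (by rw [h2]; exact h1), h2]
  have hpath := sub_path R (u := u M) (y := y) (z := z) r (fun L hL h0 => by
      obtain ⟨h7, h8⟩ := key L hL h0
      have h9 := hy L (RR.tf_forms R (u M) _ L hL) h7
      have h10 := hz' L (RR.tf_forms R (u M) _ L hL) h7
      rw [dot_yes] at h9 h10
      exact ⟨h9.trans h8, h10.trans h8⟩)
  have h1 := rounds_of_diff _ (hpath.1 hd)
  have h2 := hpath.2
  omega

theorem lead_of_diff (hc : ∀ p, c p ≠ 0) (hI : Inst c x u S) {R : KS.LT (Var (K + 1) n)}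
    (hR : forms R ⊆ S) (hRt : ∀ L ∈ forms R, ∀ s, tl c s L ∈ S) {M : Mt K n} {j : Fin n} {ε : ℝ}
    (hε : ∀ L ∈ forms R, (¬ ∃ a : ℝ, L = a • form c (tp M j)) →
      SignType.sign (dot L (noi c (u M) ε (tp M j))) =
        SignType.sign (dot L (yes c (u M) (tp M j))))
    {r : ℕ} (hr : R.rounds (noi c (u M) ε (tp M j)) ≤ r)
    (hd : Diff R (noi c (u M) ε (tp M j)) (yes c (u M) (tp M j))) :
    ∃ L ∈ tf R r (u M), rd c M L = 0 ∧ L (Fin.last K, j) ≠ 0 ∧
      ∀ i < j, L (Fin.last K, i) = 0 :=
  lead_of_path hc hI hR hRt hε (fun _ _ _ => rfl) hr hd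

/-- the last part -/
def lastPart (K n : ℕ) : Finset (Var (K + 1) n) := univ.filter fun v => v.1 = Fin.last K

theorem card_lastPart : (lastPart K n).card = n := by
  have h1 : lastPart K n = univ.image fun j : Fin n => ((Fin.last K, j) : Var (K + 1) n) := by
    ext ⟨p, j⟩
    unfold lastPart
    simp only [mem_filter, mem_univ, true_and, mem_image, Prod.mk.injEq]
    constructor
    · intro h
      exact ⟨j, h.symm, rfl⟩
    · rintro ⟨i, h1, -⟩
      exact h1.symm
  rw [h1, card_image_of_injective _ (fun a b h => (Prod.mk.inj h).2), card_univ, Fintype.card_fin]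

open Classical in
/-- the assignments which agree outside of `J`, and for which the tuples of the variables in `J` are
found -/
theorem card_class (hc : ∀ p, c p ≠ 0) (hI : Inst c x u S) (R : KS.LT (Var (K + 1) n))
    (hR : forms R ⊆ S) (k T : ℕ) (J : Finset (Fin n)) (G : Finset (Mt K n))
    (hT : ∀ M ∈ G, R.tests (u M) ≤ T)
    (hG : ∀ M ∈ G, ∀ j ∈ J, ∃ L ∈ tf R (k + 1) (u M), rd c M L = 0 ∧ L (Fin.last K, j) ≠ 0 ∧
      ∀ i < j, L (Fin.last K, i) = 0)
    (hJ : ∀ M ∈ G, ∀ M' ∈ G, ∀ i, i ∉ J → M i = M' i) : G.card ≤ sc J.card T ^ (k + 1) := by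
  set B : Finset (Var (K + 1) n) := J.image fun j => ((Fin.last K, j) : Var (K + 1) n) with hB
  have hBc : B.card = J.card := card_image_of_injective _ fun a b h => (Prod.mk.inj h).2
  obtain ⟨F, hF1, hF2⟩ := card_joint (I := Unit) B T k (fun _ => R) {v | ∃ M ∈ G, v = u M}
    (by
      rintro v ⟨M, hM, rfl⟩ v' ⟨M', hM', rfl⟩ w hw
      refine hI.agree M M' w fun h => hJ M hM M' hM' _ fun hj => hw ?_
      exact mem_image.2 ⟨w.2, hj, Prod.ext h.symm rfl⟩)
    (by
      rintro v ⟨M, -, rfl⟩ i L hL h0
      exact inst_ne hI M (hR hL) h0)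
    (by
      rintro v ⟨M, hM, rfl⟩
      rw [sum_const, card_univ, Fintype.card_unit, one_smul]
      exact hT M hM)
  have hJF : ∀ v : Var (K + 1) n → ℝ, JF (fun _ : Unit => R) (k + 1) v = tf R (k + 1) v := by
    intro v
    ext L
    rw [mem_JF]
    exact ⟨fun ⟨_, h⟩ => h, fun h => ⟨(), h⟩⟩
  rw [hBc] at hF1
  choose! L hL1 hL2 hL3 hL4 using hG
  have h1 : G ⊆ (F.filter fun s : Finset (Var (K + 1) n → ℝ) => s.card ≤ T).biUnion
      fun s => G.filter fun M => tf R (k + 1) (u M) = s := by
    intro M hM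
    rw [mem_biUnion]
    refine ⟨tf R (k + 1) (u M), mem_filter.2 ⟨?_, (RR.card_tf R (u M) _).trans (hT M hM)⟩,
      mem_filter.2 ⟨hM, rfl⟩⟩
    rw [← hJF]
    exact hF2 _ ⟨M, hM, rfl⟩
  have h2 : ∀ s : Finset (Var (K + 1) n → ℝ), s.card ≤ T →
      (G.filter fun M => tf R (k + 1) (u M) = s).card ≤ sc J.card T := by
    intro s hs
    have h3 : (G.filter fun M => tf R (k + 1) (u M) = s).card ≤ (powersetCard J.card s).card := by
      refine card_le_card_of_injOn (fun M => J.image (L M)) ?_ ?_
      · intro M hM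
        obtain ⟨hM1, hM2⟩ := mem_filter.1 (mem_coe.1 hM)
        refine mem_coe.2 (mem_powersetCard.2 ⟨?_, card_image_of_injOn ?_⟩)
        · intro L' hL'
          obtain ⟨j, hj, rfl⟩ := mem_image.1 hL'
          rw [← hM2]
          exact hL1 M hM1 j hj
        · intro i hi j hj hij
          have hi' := mem_coe.1 hi
          have hj' := mem_coe.1 hj
          rcases lt_trichotomy i j with h | h | h
          · exact absurd (by rw [hij]; exact hL4 M hM1 j hj' i h) (hL3 M hM1 i hi')
          · exact h
          · exact absurd (by rw [← hij]; exact hL4 M hM1 i hi' j h) (hL3 M hM1 j hj')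
      · intro M hM M' hM' hMM
        obtain ⟨hM1, hM2⟩ := mem_filter.1 (mem_coe.1 hM)
        obtain ⟨hM1', hM2'⟩ := mem_filter.1 (mem_coe.1 hM')
        by_contra hne
        have hD : (univ.filter fun i => M i ≠ M' i).Nonempty := by
          by_contra hcon
          rw [not_nonempty_iff_eq_empty] at hcon
          apply hne
          funext i
          by_contra hi
          have : i ∈ univ.filter fun i => M i ≠ M' i := mem_filter.2 ⟨mem_univ _, hi⟩
          rw [hcon] at this
          exact absurd this (notMem_empty _)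
        set j := (univ.filter fun i => M i ≠ M' i).max' hD with hj
        have hjD : M j ≠ M' j := (mem_filter.1 (max'_mem _ hD)).2
        have hjJ : j ∈ J := by
          by_contra h
          exact hjD (hJ M hM1 M' hM1' j h)
        have hmax : ∀ i, j < i → M i = M' i := by
          intro i hi
          by_contra h
          exact absurd (le_max' _ i (mem_filter.2 ⟨mem_univ _, h⟩)) (not_le.2 hi)
        have e1 := hL2 M hM1 j hjJ
        have e2 : rd c M' (L M j) = 0 := by
          have h4 : L M j ∈ J.image (L M') := by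
            have h5 : J.image (L M) = J.image (L M') := hMM
            rw [← h5]
            exact mem_image_of_mem _ hjJ
          obtain ⟨i, hi, h5⟩ := mem_image.1 h4
          rw [← h5]
          exact hL2 M' hM1' i hi
        have e3 := hL3 M hM1 j hjJ
        have e4 := hL4 M hM1 j hjJ
        set Q := L M j with hQ
        have h5 : ∑ i, (Q (Fin.last K, i) / c (Fin.last K)) • form c (tp M i) =
            ∑ i, (Q (Fin.last K, i) / c (Fin.last K)) • form c (tp M' i) := by
          unfold rd at e1 e2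
          rw [sub_eq_zero] at e1 e2
          rw [← e1, ← e2]
        rw [← add_sum_erase univ _ (mem_univ j),
          ← add_sum_erase univ (fun i => (Q (Fin.last K, i) / c (Fin.last K)) •
            form c (tp M' i)) (mem_univ j)] at h5
        have h6 : ∑ i ∈ univ.erase j, (Q (Fin.last K, i) / c (Fin.last K)) • form c (tp M i) =
            ∑ i ∈ univ.erase j, (Q (Fin.last K, i) / c (Fin.last K)) • form c (tp M' i) := by
          refine sum_congr rfl fun i hi => ?_
          rcases lt_or_gt_of_ne (mem_erase.1 hi).1 with h | h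
          · rw [e4 i h, zero_div, zero_smul, zero_smul]
          · unfold tp
            rw [hmax i h]
        rw [h6] at h5
        have h7 := add_right_cancel h5
        have h8 : Q (Fin.last K, j) / c (Fin.last K) ≠ 0 := div_ne_zero e3 (hc _)
        have h9 := smul_right_injective _ h8 h7
        have h10 : tp M j = tp M' j := form_inj hc (a := 1) (by rw [one_smul]; exact h9)
        apply hjD
        funext p
        rw [← tp_cast M j p, ← tp_cast M' j p, h10]
    rw [card_powersetCard] at h3
    exact h3.trans ((Nat.choose_le_choose _ hs).trans (choose_le_sc le_rfl))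
  calc G.card ≤ ∑ s ∈ F.filter (fun s : Finset (Var (K + 1) n → ℝ) => s.card ≤ T),
        (G.filter fun M => tf R (k + 1) (u M) = s).card := (card_le_card h1).trans card_biUnion_le
    _ ≤ ∑ _s ∈ F.filter (fun s : Finset (Var (K + 1) n → ℝ) => s.card ≤ T), sc J.card T :=
        sum_le_sum fun s hs => h2 s (mem_filter.1 hs).2
    _ = (F.filter fun s : Finset (Var (K + 1) n → ℝ) => s.card ≤ T).card * sc J.card T := by
        rw [sum_const, smul_eq_mul]
    _ ≤ sc J.card T ^ k * sc J.card T :=
        Nat.mul_le_mul_right _ ((card_filter_le _ _).trans hF1)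
    _ = _ := (pow_succ _ _).symm

open Classical in
/-- the number of the assignments which agree with a given one outside of `J` -/
theorem card_agree (M : Mt K n) (J : Finset (Fin n)) :
    (univ.filter fun M' : Mt K n => ∀ i, i ∉ J → M i = M' i).card = (n ^ K) ^ J.card := by
  have h1 : (univ.filter fun M' : Mt K n => ∀ i, i ∉ J → M i = M' i) =
      Fintype.piFinset fun i => if i ∈ J then (univ : Finset (Fin K → Fin n)) else {M i} := by
    ext M'
    rw [mem_filter, Fintype.mem_piFinset]
    constructor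
    · rintro ⟨-, h⟩ i
      split_ifs with hi
      · exact mem_univ _
      · exact mem_singleton.2 (h i hi).symm
    · intro h
      refine ⟨mem_univ _, fun i hi => ?_⟩
      have h2 := h i
      rw [if_neg hi] at h2
      exact (mem_singleton.1 h2).symm
  rw [h1, Fintype.card_piFinset]
  have h2 : ∀ i : Fin n, (if i ∈ J then (univ : Finset (Fin K → Fin n)) else {M i}).card =
      if i ∈ J then n ^ K else 1 := by
    intro i
    split_ifs
    · rw [card_univ, Fintype.card_pi_const, Fintype.card_fin]
    · exact card_singleton _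
  rw [prod_congr rfl fun i _ => h2 i, prod_ite_mem, univ_inter, prod_const]

open Classical in
/-- the assignments for which the tuples of the variables in `J` are found -/
theorem card_sub (hc : ∀ p, c p ≠ 0) (hI : Inst c x u S) (R : KS.LT (Var (K + 1) n))
    (hR : forms R ⊆ S) (k T : ℕ) (J : Finset (Fin n)) (G : Finset (Mt K n))
    (hT : ∀ M ∈ G, R.tests (u M) ≤ T)
    (hG : ∀ M ∈ G, ∀ j ∈ J, ∃ L ∈ tf R (k + 1) (u M), rd c M L = 0 ∧ L (Fin.last K, j) ≠ 0 ∧
      ∀ i < j, L (Fin.last K, i) = 0) :
    G.card * (n ^ K) ^ J.card ≤ (n ^ K) ^ n * sc J.card T ^ (k + 1) := by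
  have h1 : ∑ M₀ : Mt K n, (G.filter fun M => ∀ i, i ∉ J → M i = M₀ i).card =
      ∑ M ∈ G, (univ.filter fun M₀ : Mt K n => ∀ i, i ∉ J → M i = M₀ i).card := by
    simp only [card_filter]
    exact sum_comm
  rw [sum_congr rfl fun M (_ : M ∈ G) => card_agree M J, sum_const, smul_eq_mul] at h1
  rw [← h1]
  calc ∑ M₀ : Mt K n, (G.filter fun M => ∀ i, i ∉ J → M i = M₀ i).card
      ≤ ∑ _M₀ : Mt K n, sc J.card T ^ (k + 1) := by
        refine sum_le_sum fun M₀ _ => card_class hc hI R hR k T J _
          (fun M hM => hT M (mem_filter.1 hM).1) (fun M hM => hG M (mem_filter.1 hM).1) ?_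
        intro M hM M' hM' i hi
        rw [(mem_filter.1 hM).2 i hi, (mem_filter.1 hM').2 i hi]
    _ = _ := by
        rw [sum_const, smul_eq_mul, card_univ, Fintype.card_pi_const, Fintype.card_pi_const,
          Fintype.card_fin]

end Pool.Agent.H692.RB
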