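import Mathlib
import Pool.Agent.H692.RT.Main
import Pool.Agent.H692.RB.Inst

/-!
# Randomized trees with few rounds: bounded error and zero error
-/

set_option autoImplicit false
set_option linter.unusedSectionVars false

namespace Pool.Agent.H692.RB

open Finset Filter Topology
open Pool.Agent.H692.KS
open Pool.Agent.H692.RT (forms forms_finite gen_of lv tl dot_tl tl_ne yes dot_yes noi dot_noi
  dot_noi_smul form_lv prob prob_eq eventually_sign)
open Pool.Agent.H692.RR (tf Diff of_not_diff)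

variable {K n : ℕ}

open Classical in
/-- the reduction to linear tests near a special input -/
theorem core {c : Fin (K + 1) → ℝ} (hc : ∀ p, c p ≠ 0) {κ' : Type}
    [Finite κ'] {E : κ' → Var (K + 1) n → ℝ} (hE : Indep c E) {P : Type} [TopologicalSpace P]
    [BaireSpace P]
    {pot : P → Var (K + 1) n → ℝ} (hpot : Continuous pot) (hval : ∀ y s, val c (pot y) s = 0)
    (hEpot : ∀ y e, dot (E e) (pot y) = 0)
    {W : Set (Var (K + 1) n → ℝ)} (hW : IsOpen W) {y₀ : P} (hy₀ : pot y₀ ∈ W)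
    {β : Type} (φ : β → Bool) {Ω : Type} [Fintype Ω] (p : Ω → ℝ) (hp0 : ∀ ρ, 0 ≤ p ρ)
    (hp1 : ∑ ρ, p ρ = 1) (t : Ω → RTree pot β) {γ T : ℝ} {r : ℕ}
    (hno : ∀ w ∈ W, (∀ s, val c w s ≠ 0) → (∀ e, dot (E e) w ≠ 0) →
      (1 + γ) / 2 ≤ prob p (fun ρ => φ ((t ρ).run w) = false) ∧ (∀ ρ, (t ρ).rounds w ≤ r) ∧
        ∑ ρ, p ρ * (t ρ).tests w ≤ T)
    (hyes : ∀ w ∈ W, ∀ τ, val c w τ = 0 → (∀ s, s ≠ τ → val c w s ≠ 0) →
      (∀ e, dot (E e) w ≠ 0) → (1 + γ) / 2 ≤ prob p (fun ρ => φ ((t ρ).run w) = true)) :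
    ∃ (x : Var (K + 1) n → ℝ) (u : Mt K n → Var (K + 1) n → ℝ) (S : Set (Var (K + 1) n → ℝ))
      (ε : ℝ) (R : Ω → KS.LT (Var (K + 1) n)),
      Inst c x u S ∧ (∀ ρ, forms (R ρ) ⊆ S) ∧ (∀ ρ, ∀ L ∈ forms (R ρ), ∀ s, tl c s L ∈ S) ∧
      (∀ ρ M j, ∀ L ∈ forms (R ρ), (¬ ∃ a : ℝ, L = a • form c (tp M j)) →
        SignType.sign (dot L (noi c (u M) ε (tp M j))) =
          SignType.sign (dot L (yes c (u M) (tp M j)))) ∧
      (∀ M j, γ ≤ prob p fun ρ =>
        Diff (R ρ) (noi c (u M) ε (tp M j)) (yes c (u M) (tp M j))) ∧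
      (∀ M j, (∀ ρ, (R ρ).rounds (noi c (u M) ε (tp M j)) ≤ r) ∧
        ∑ ρ, p ρ * (R ρ).tests (noi c (u M) ε (tp M j)) ≤ T) ∧
      ∀ M, ∑ ρ, p ρ * (R ρ).tests (u M) ≤ T := by
  -- the generic special input
  obtain ⟨x₀, hxW, hgood⟩ : ∃ x₀, pot x₀ ∈ W ∧ ∀ ρ, Good φ (t ρ) x₀ := by
    have hd : Dense {x | ∀ ρ, Good φ (t ρ) x} :=
      dense_of_mem_residual (eventually_all.2 fun ρ => good hpot φ (t ρ))
    obtain ⟨x₀, h1, h2⟩ := hd.inter_open_nonempty (pot ⁻¹' W) (hW.preimage hpot) ⟨y₀, hy₀⟩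
    exact ⟨x₀, h1, h2⟩
  let R : Ω → KS.LT (Var (K + 1) n) := fun ρ => red φ (t ρ) x₀
  have hev : ∀ v : Var (K + 1) n → ℝ, ∃ ε : ℝ, 0 < ε ∧ pot x₀ + ε • v ∈ W ∧
      ∀ ρ, (R ρ).Gen v → φ ((t ρ).run (pot x₀ + ε • v)) = (R ρ).run v ∧
      (R ρ).rounds v = (t ρ).rounds (pot x₀ + ε • v) ∧
      (R ρ).tests v = (t ρ).tests (pot x₀ + ε • v) := by
    intro v
    have h1 : ∀ᶠ ε in 𝓝[>] (0 : ℝ), ∀ ρ, (R ρ).Gen v →
        φ ((t ρ).run (pot x₀ + ε • v)) = (R ρ).run v ∧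
        (R ρ).rounds v = (t ρ).rounds (pot x₀ + ε • v) ∧
        (R ρ).tests v = (t ρ).tests (pot x₀ + ε • v) := by
      refine eventually_all.2 fun ρ => ?_
      by_cases hG : (R ρ).Gen v
      · filter_upwards [hgood ρ v hG] with ε h _
        exact h
      · exact Eventually.of_forall fun ε h => absurd h hG
    obtain ⟨ε, ⟨h2, h3⟩, h4⟩ := ((h1.and ((tendsto_line (pot x₀) v).eventually
      (hW.mem_nhds hxW))).and self_mem_nhdsWithin).exists
    exact ⟨ε, h4, h3, h2⟩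
  have hvv : ∀ (ε : ℝ) (u : Var (K + 1) n → ℝ) (s : Tup (K + 1) n),
      val c (pot x₀ + ε • u) s = ε * val c u s := by
    intro ε u s
    rw [val_add_smul, hval, zero_add]
  have hEv : ∀ (ε : ℝ) (u : Var (K + 1) n → ℝ) e,
      dot (E e) (pot x₀ + ε • u) = ε * dot (E e) u := by
    intro ε u e
    rw [dot_add_smul, hEpot, zero_add]
  -- the forms
  set FL : Set (Var (K + 1) n → ℝ) := (⋃ ρ, forms (R ρ)) ∪ (Set.range (form c) ∪ Set.range E)
    with hFL
  have hFLfin : FL.Finite := (Set.finite_iUnion fun ρ => forms_finite (R ρ)).union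
    ((Set.finite_range _).union (Set.finite_range _))
  set FL' : Set (Var (K + 1) n → ℝ) := FL ∪ ⋃ s, tl c s '' FL with hFL'
  have hFLfin' : FL'.Finite := hFLfin.union (Set.finite_iUnion fun s => hFLfin.image _)
  have hmem : ∀ ρ, ∀ L ∈ forms (R ρ), L ∈ FL := fun ρ L hL => Or.inl (Set.mem_iUnion.2 ⟨ρ, hL⟩)
  have hmemf : ∀ s, form c s ∈ FL := fun s => Or.inr (Or.inl ⟨s, rfl⟩)
  have hmemE : ∀ e, E e ∈ FL := fun e => Or.inr (Or.inr ⟨e, rfl⟩)
  have hmem' : ∀ L ∈ FL, L ∈ FL' := fun L hL => Or.inl hL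
  have hmemtl : ∀ L ∈ FL, ∀ s, tl c s L ∈ FL' := fun L hL s =>
    Or.inr (Set.mem_iUnion.2 ⟨s, L, hL, rfl⟩)
  obtain ⟨x, u, hI⟩ := exists_inst hc hFLfin'
  have hune : ∀ (M : Mt K n), ∀ L ∈ FL', L ≠ 0 → dot L (u M) ≠ 0 :=
    fun M L hL h0 => inst_ne hI M hL h0
  have hzne : ∀ (M : Mt K n) s, ∀ L ∈ FL, (¬ ∃ a : ℝ, L = a • form c s) →
      dot L (yes c (u M) s) ≠ 0 := by
    intro M s L hL h
    rw [dot_yes]
    exact hune M _ (hmemtl L hL s) (tl_ne h)
  obtain ⟨ε, hε1, hε⟩ : ∃ ε : ℝ, (∀ (M : Mt K n) s, ∀ L ∈ FL,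
      (¬ ∃ a : ℝ, L = a • form c s) →
      SignType.sign (dot L (noi c (u M) ε s)) = SignType.sign (dot L (yes c (u M) s))) ∧
      0 < ε := by
    have h1 : ∀ᶠ ε in 𝓝[>] (0 : ℝ), ∀ (M : Mt K n) s, ∀ L ∈ FL,
        (¬ ∃ a : ℝ, L = a • form c s) →
        SignType.sign (dot L (noi c (u M) ε s)) = SignType.sign (dot L (yes c (u M) s)) := by
      refine eventually_all.2 fun M => eventually_all.2 fun s => (eventually_all_finite hFLfin).2
        fun L hL => ?_
      by_cases h : ∃ a : ℝ, L = a • form c s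
      · exact Eventually.of_forall fun ε h' => absurd h h'
      · filter_upwards [eventually_sign L (yes c (u M) s) (Pi.single (lv s) 1)
          (hzne M s L hL h)] with ε h2 _
        exact h2
    obtain ⟨ε, h2, h3⟩ := (h1.and self_mem_nhdsWithin).exists
    exact ⟨ε, h2, h3⟩
  have hyne : ∀ (M : Mt K n) s, ∀ L ∈ FL, L ≠ 0 → dot L (noi c (u M) ε s) ≠ 0 := by
    intro M s L hL h0
    by_cases h : ∃ a : ℝ, L = a • form c s
    · obtain ⟨a, rfl⟩ := h
      rw [dot_noi_smul hc]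
      have ha : a ≠ 0 := by
        rintro rfl
        rw [zero_smul] at h0
        exact h0 rfl
      exact mul_ne_zero hε.ne' (mul_ne_zero ha (hc _))
    · intro h1
      have h2 := hε1 M s L hL h
      rw [h1, sign_zero] at h2
      exact hzne M s L hL h (sign_eq_zero_iff.1 h2.symm)
  -- no-instances
  have hA : ∀ v : Var (K + 1) n → ℝ, (∀ L ∈ FL, L ≠ 0 → dot L v ≠ 0) →
      (1 + γ) / 2 ≤ prob p (fun ρ => (R ρ).run v = false) ∧ (∀ ρ, (R ρ).rounds v ≤ r) ∧
        ∑ ρ, p ρ * (R ρ).tests v ≤ T := by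
    intro v hvF
    obtain ⟨ε', hε', h1, h2⟩ := hev v
    have hG : ∀ ρ, (R ρ).Gen v := fun ρ => gen_of _ fun L hL h0 => hvF L (hmem ρ L hL) h0
    have h3 := hno _ h1 (fun s => by
        rw [hvv]
        refine mul_ne_zero hε'.ne' ?_
        rw [← dot_form]
        exact hvF _ (hmemf s) (form_ne hc s))
      (fun e => by
        rw [hEv]
        exact mul_ne_zero hε'.ne' (hvF _ (hmemE e) (hE e).1))
    have e1 : (fun ρ => (R ρ).run v = false) =
        fun ρ => φ ((t ρ).run (pot x₀ + ε' • v)) = false := by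
      funext ρ
      rw [(h2 ρ (hG ρ)).1]
    refine ⟨by rw [e1]; exact h3.1, fun ρ => ?_, ?_⟩
    · rw [(h2 ρ (hG ρ)).2.1]
      exact h3.2.1 ρ
    · rw [sum_congr rfl fun ρ _ => by rw [(h2 ρ (hG ρ)).2.2]]
      exact h3.2.2
  refine ⟨x, u, FL', ε, R, hI, fun ρ L hL => hmem' L (hmem ρ L hL),
    fun ρ L hL s => hmemtl L (hmem ρ L hL) s, fun ρ M j L hL h => hε1 M _ L (hmem ρ L hL) h, ?_,
    fun M j => (hA _ (hyne M (tp M j))).2,
    fun M => (hA (u M) fun L hL h0 => hune M L (hmem' L hL) h0).2.2⟩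
  intro M j
  set s := tp M j with hs
  have h1 := (hA _ (hyne M s)).1
  obtain ⟨ε', hε', h2, h3⟩ := hev (yes c (u M) s)
  have h4 := hyes _ h2 s (by
      rw [hvv, ← dot_form, dot_yes]
      have : tl c s (form c s) = 0 := by
        unfold tl
        rw [form_lv, div_self (hc _), one_smul, sub_self]
      rw [this]
      unfold dot
      simp)
    (fun s' hs' => by
      rw [hvv, ← dot_form]
      refine mul_ne_zero hε'.ne' (hzne _ _ _ (hmemf s') ?_)
      rintro ⟨a, ha⟩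
      exact hs' (form_inj hc ha))
    (fun e => by
      rw [hEv]
      refine mul_ne_zero hε'.ne' (hzne _ _ _ (hmemE e) ?_)
      rintro ⟨a, ha⟩
      exact (hE e).2 _ a ha)
  have h5 : ∀ ρ, (if (R ρ).run (noi c (u M) ε s) = false then p ρ else 0) +
      (if φ ((t ρ).run (pot x₀ + ε' • yes c (u M) s)) = true then p ρ else 0) ≤
      p ρ + (if Diff (R ρ) (noi c (u M) ε s) (yes c (u M) s) then p ρ else 0) := by
    intro ρ
    have h0 := hp0 ρ
    by_cases hb : Diff (R ρ) (noi c (u M) ε s) (yes c (u M) s)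
    · rw [if_pos hb]
      split_ifs <;> linarith
    · obtain ⟨hb1, hb2⟩ := of_not_diff (R ρ) (fun L hL h0 => hyne M s L (hmem ρ L hL) h0) hb
      rw [if_neg hb, (h3 ρ hb1).1, hb2]
      cases (R ρ).run (yes c (u M) s) <;> simp
  have h6 := sum_le_sum fun ρ (_ : ρ ∈ (univ : Finset Ω)) => h5 ρ
  rw [sum_add_distrib, sum_add_distrib, hp1] at h6
  rw [prob_eq] at h1 h4
  rw [prob_eq]
  linarith

theorem card_Mt : Fintype.card (Mt K n) = (n ^ K) ^ n := by
  rw [Fintype.card_pi_const, Fintype.card_pi_const, Fintype.card_fin]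

/-- a value which is at least the average -/
theorem exists_ge {Ω : Type} [Fintype Ω] (p : Ω → ℝ) (hp0 : ∀ ρ, 0 ≤ p ρ) (hp1 : ∑ ρ, p ρ = 1)
    (f : Ω → ℝ) {a : ℝ} (h : a ≤ ∑ ρ, p ρ * f ρ) : ∃ ρ, a ≤ f ρ := by
  by_contra hcon
  push Not at hcon
  have h2 : ∑ ρ, p ρ * f ρ < ∑ ρ, p ρ * a := by
    refine sum_lt_sum (fun ρ _ => mul_le_mul_of_nonneg_left (hcon ρ).le (hp0 ρ)) ?_
    obtain ⟨ρ, hρ⟩ : ∃ ρ, p ρ ≠ 0 := by
      by_contra! h3
      rw [sum_eq_zero fun ρ _ => h3 ρ] at hp1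
      exact zero_ne_one hp1
    exact ⟨ρ, mem_univ _, mul_lt_mul_of_pos_left (hcon ρ)
      (lt_of_le_of_ne (hp0 ρ) (Ne.symm hρ))⟩
  rw [← sum_mul, hp1, one_mul] at h2
  exact absurd h (not_le.2 h2)

/-- the sum of the powers -/
theorem sum_pow {n : ℕ} {θ A Q : ℝ} (hθ : 0 < θ) (hA : 0 ≤ A) (hQ : 0 ≤ Q)
    (hch : ∀ d : ℕ, d ≤ n → θ < d → (n.choose d : ℝ) ≤ A ^ d) (hq : A * Q ≤ 1 / 2) :
    ∑ d ∈ range (n + 1), (n.choose d : ℝ) * (if θ < (d : ℝ) then Q ^ d else 0) ≤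
      2 * (A * Q) := by
  set q : ℝ := A * Q with hqd
  have hq0 : 0 ≤ q := mul_nonneg hA hQ
  have h1 : ∀ d ∈ range (n + 1), (n.choose d : ℝ) * (if θ < (d : ℝ) then Q ^ d else 0) ≤
      2 * q * (1 / 2) ^ d - (if d = 0 then 2 * q else 0) := by
    intro d hd
    have hdn : d ≤ n := by
      have := mem_range.1 hd
      omega
    rcases Nat.eq_zero_or_pos d with h0 | h0
    · subst h0
      rw [if_neg (by push_cast; exact not_lt.2 hθ.le), if_pos rfl]
      simp
    · rw [if_neg (by omega : ¬ d = 0), sub_zero]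
      split_ifs with h
      · obtain ⟨e, rfl⟩ : ∃ e, d = e + 1 := ⟨d - 1, by omega⟩
        calc (n.choose (e + 1) : ℝ) * Q ^ (e + 1) ≤ A ^ (e + 1) * Q ^ (e + 1) :=
              mul_le_mul_of_nonneg_right (hch _ hdn h) (pow_nonneg hQ _)
          _ = q * q ^ e := by rw [← mul_pow, ← hqd, pow_succ]; ring
          _ ≤ q * (1 / 2) ^ e := mul_le_mul_of_nonneg_left (pow_le_pow_left₀ hq0 hq _) hq0
          _ = 2 * q * (1 / 2) ^ (e + 1) := by rw [pow_succ]; ring
      · rw [mul_zero]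
        positivity
  refine (sum_le_sum h1).trans ?_
  rw [sum_sub_distrib, ← mul_sum, sum_ite_eq' (range (n + 1)) 0 fun _ => 2 * q,
    if_pos (mem_range.2 (by omega))]
  have h2 := sum_geometric_two_le (n + 1)
  have h3 : 2 * q * ∑ i ∈ range (n + 1), (1 / 2 : ℝ) ^ i ≤ 2 * q * 2 :=
    mul_le_mul_of_nonneg_left h2 (by positivity)
  linarith

open Classical in
/-- the count of the assignments, if each variable is found with probability `γ` -/
theorem count_main {c : Fin (K + 1) → ℝ} (hc : ∀ p, c p ≠ 0) {x : Var (K + 1) n → ℝ}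
    {u : Mt K n → Var (K + 1) n → ℝ} {S : Set (Var (K + 1) n → ℝ)} (hI : Inst c x u S)
    {Ω : Type} [Fintype Ω] (p : Ω → ℝ) (hp0 : ∀ ρ, 0 ≤ p ρ) (hp1 : ∑ ρ, p ρ = 1)
    (R : Ω → KS.LT (Var (K + 1) n)) (hR : ∀ ρ, forms (R ρ) ⊆ S) {γ T : ℝ} (hγ : 0 < γ) {k : ℕ}
    (Dt : Ω → Mt K n → Finset (Fin n))
    (hlead : ∀ ρ M, ∀ j ∈ Dt ρ M, ∃ L ∈ tf (R ρ) (k + 1) (u M), rd c M L = 0 ∧
      L (Fin.last K, j) ≠ 0 ∧ ∀ i < j, L (Fin.last K, i) = 0)
    (hdet : ∀ M j, γ ≤ ∑ ρ, (if j ∈ Dt ρ M then p ρ else 0))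
    (hcost : ∀ M, ∑ ρ, p ρ * (R ρ).tests (u M) ≤ T) (hn : 1 ≤ n) :
    γ ≤ 1 ∧ γ * n ≤ T ∧ γ ^ (k + 3) * (n : ℝ) ^ (K + (k + 1)) ≤
      32 * Real.exp 1 * (2 * Real.exp 1 * T) ^ (k + 1) := by
  have hn0 : (0 : ℝ) < n := by exact_mod_cast hn
  have hDT : ∀ ρ M, (Dt ρ M).card ≤ (R ρ).tests (u M) := by
    intro ρ M
    refine le_trans ?_ (RR.card_tf (R ρ) (u M) (k + 1))
    choose! L hL1 hL2 hL3 hL4 using hlead ρ M
    refine card_le_card_of_injOn L hL1 ?_
    intro i hi j hj hij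
    have hi' := mem_coe.1 hi
    have hj' := mem_coe.1 hj
    rcases lt_trichotomy i j with h | h | h
    · exact absurd (by rw [hij]; exact hL4 j hj' i h) (hL3 i hi')
    · exact h
    · exact absurd (by rw [← hij]; exact hL4 i hi' j h) (hL3 j hj')
  have hDn : ∀ ρ M, (Dt ρ M).card ≤ n := fun ρ M =>
    (card_le_univ _).trans (by rw [Fintype.card_fin])
  have hsum1 : ∀ M, γ * n ≤ ∑ ρ, p ρ * ((Dt ρ M).card : ℝ) := by
    intro M
    calc γ * n = ∑ _j : Fin n, γ := by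
          rw [sum_const, card_univ, Fintype.card_fin, nsmul_eq_mul, mul_comm]
      _ ≤ ∑ j : Fin n, ∑ ρ, (if j ∈ Dt ρ M then p ρ else 0) := sum_le_sum fun j _ => hdet M j
      _ = _ := by
          rw [sum_comm]
          refine sum_congr rfl fun ρ _ => ?_
          rw [← sum_filter, sum_const, nsmul_eq_mul, filter_mem_eq_inter, univ_inter, mul_comm]
  let M₀ : Mt K n := fun j _ => j
  have hTn : γ * n ≤ T := by
    refine (hsum1 M₀).trans (le_trans (sum_le_sum fun ρ _ => ?_) (hcost M₀))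
    exact mul_le_mul_of_nonneg_left (by exact_mod_cast hDT ρ M₀) (hp0 ρ)
  have hT0 : 0 < T := lt_of_lt_of_le (mul_pos hγ hn0) hTn
  have hγ1 : γ ≤ 1 := by
    have h1 : γ * n ≤ 1 * n := by
      refine (hsum1 M₀).trans ?_
      calc ∑ ρ, p ρ * ((Dt ρ M₀).card : ℝ) ≤ ∑ ρ, p ρ * (n : ℝ) := sum_le_sum fun ρ _ =>
            mul_le_mul_of_nonneg_left (by exact_mod_cast hDn ρ M₀) (hp0 ρ)
        _ = 1 * n := by rw [← sum_mul, hp1]
    exact le_of_mul_le_mul_right h1 hn0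
  refine ⟨hγ1, hTn, ?_⟩
  set N : ℝ := ((n : ℝ) ^ K) ^ n with hN
  have hN0 : 0 < N := by positivity
  have hcardN : ((univ : Finset (Mt K n)).card : ℝ) = N := by
    rw [card_univ, card_Mt]
    push_cast
    rfl
  -- the choice of the tree
  set θ : ℝ := γ * n / (2 * T) with hθd
  have hθT : θ * T = γ * n / 2 := by
    rw [hθd]
    field_simp
  have hθ0 : 0 < θ := by positivity
  obtain ⟨ρ, hρ⟩ : ∃ ρ, N * (γ * n / 2) ≤
      ∑ M : Mt K n, (((Dt ρ M).card : ℝ) - θ * (R ρ).tests (u M)) := by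
    refine exists_ge p hp0 hp1 _ ?_
    calc N * (γ * n / 2) = ∑ _M : Mt K n, (γ * n / 2) := by
          rw [sum_const, nsmul_eq_mul, hcardN]
      _ ≤ ∑ M : Mt K n, ∑ ρ, p ρ * (((Dt ρ M).card : ℝ) - θ * (R ρ).tests (u M)) := by
          refine sum_le_sum fun M _ => ?_
          have h1 : ∑ ρ, p ρ * (((Dt ρ M).card : ℝ) - θ * (R ρ).tests (u M)) =
              ∑ ρ, p ρ * ((Dt ρ M).card : ℝ) - θ * ∑ ρ, p ρ * (R ρ).tests (u M) := by
            rw [mul_sum, ← sum_sub_distrib]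
            exact sum_congr rfl fun ρ _ => by ring
          have h2 : θ * ∑ ρ, p ρ * ((R ρ).tests (u M) : ℝ) ≤ θ * T :=
            mul_le_mul_of_nonneg_left (hcost M) hθ0.le
          have h3 := hsum1 M
          rw [h1]
          linarith
      _ = _ := by
          rw [sum_comm]
          exact sum_congr rfl fun ρ _ => (mul_sum _ _ _).symm
  set D : Mt K n → Finset (Fin n) := Dt ρ with hD
  set g : Mt K n → ℝ := fun M => ((D M).card : ℝ) - θ * (R ρ).tests (u M) with hg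
  set G : Finset (Mt K n) := univ.filter fun M => γ * n / 4 < g M with hG
  have hgD : ∀ M, g M ≤ (D M).card := by
    intro M
    have : 0 ≤ θ * ((R ρ).tests (u M) : ℝ) := by positivity
    simp only [hg]
    linarith
  have hGc : γ / 4 * N ≤ G.card := by
    have h3 : ∀ M : Mt K n, g M ≤ (if M ∈ G then (n : ℝ) else 0) + γ * n / 4 := by
      intro M
      split_ifs with hM
      · have h4 : ((D M).card : ℝ) ≤ n := by exact_mod_cast hDn ρ M
        have h5 := hgD M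
        have h6 : 0 < γ * n / 4 := by positivity
        linarith
      · rw [zero_add]
        by_contra hcon
        push Not at hcon
        exact hM (mem_filter.2 ⟨mem_univ _, hcon⟩)
    have h4 := hρ.trans (sum_le_sum fun M (_ : M ∈ univ) => h3 M)
    rw [sum_add_distrib, ← sum_filter, sum_const, sum_const, nsmul_eq_mul, nsmul_eq_mul, hcardN,
      filter_mem_eq_inter, univ_inter] at h4
    have h5 : (γ / 4 * N) * n ≤ (G.card : ℝ) * n := by
      have e1 : N * (γ * n / 2) = 2 * ((γ / 4 * N) * n) := by ring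
      have e2 : N * (γ * n / 4) = (γ / 4 * N) * n := by ring
      rw [e1, e2] at h4
      linarith
    exact le_of_mul_le_mul_right h5 hn0
  -- the assignments with given detected variables
  set Q : ℝ := (2 * Real.exp 1 * T / (γ * n)) ^ (k + 1) / (n : ℝ) ^ K with hQ
  have hQ0 : 0 ≤ Q := by positivity
  have hJ : ∀ J : Finset (Fin n), ((G.filter fun M => D M = J).card : ℝ) ≤
      N * (if γ * n / 4 < (J.card : ℝ) then Q ^ J.card else 0) := by
    intro J
    split_ifs with h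
    · have hJ0 : 0 < J.card := by
        by_contra hcon
        have h1 : J.card = 0 := by omega
        rw [h1, Nat.cast_zero] at h
        have : 0 < γ * n / 4 := by positivity
        linarith
      have hJ0' : (0 : ℝ) < J.card := by exact_mod_cast hJ0
      set T' : ℕ := ⌊(J.card : ℝ) / θ⌋₊ with hT'
      have hT'2 : (T' : ℝ) ≤ J.card / θ := Nat.floor_le (by positivity)
      have hJT : J.card ≤ T' := by
        refine Nat.le_floor ?_
        rw [le_div_iff₀ hθ0]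
        have h1 : θ ≤ 1 := by
          rw [hθd, div_le_one (by positivity)]
          linarith
        calc (J.card : ℝ) * θ ≤ J.card * 1 := mul_le_mul_of_nonneg_left h1 hJ0'.le
          _ = J.card := mul_one _
      have h1 := card_sub hc hI (R ρ) (hR ρ) k T' J (G.filter fun M => D M = J)
        (by
          intro M hM
          obtain ⟨hM1, hM2⟩ := mem_filter.1 hM
          have h2 := (mem_filter.1 hM1).2
          refine Nat.le_floor ?_
          rw [le_div_iff₀ hθ0]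
          simp only [hg, hM2] at h2
          have h3 : 0 < γ * n / 4 := by positivity
          rw [mul_comm]
          linarith)
        (by
          intro M hM j hj
          obtain ⟨hM1, hM2⟩ := mem_filter.1 hM
          rw [← hM2] at hj
          exact hlead ρ M j hj)
      have h2 : ((G.filter fun M => D M = J).card : ℝ) * ((n : ℝ) ^ K) ^ J.card ≤
          N * (sc J.card T' : ℝ) ^ (k + 1) := by
        rw [hN]
        exact_mod_cast h1
      have h3 : (sc J.card T' : ℝ) ≤ (2 * Real.exp 1 * T / (γ * n)) ^ J.card := by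
        refine (sc_le hJ0 hJT).trans (pow_le_pow_left₀ (by positivity) ?_ _)
        rw [div_le_iff₀ hJ0']
        calc Real.exp 1 * (T' : ℝ) ≤ Real.exp 1 * (J.card / θ) :=
              mul_le_mul_of_nonneg_left hT'2 (Real.exp_pos 1).le
          _ = 2 * Real.exp 1 * T / (γ * n) * J.card := by
              rw [hθd]
              field_simp
      have h4 : (sc J.card T' : ℝ) ^ (k + 1) ≤ Q ^ J.card * ((n : ℝ) ^ K) ^ J.card := by
        calc (sc J.card T' : ℝ) ^ (k + 1) ≤ ((2 * Real.exp 1 * T / (γ * n)) ^ J.card) ^ (k + 1) :=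
              pow_le_pow_left₀ (Nat.cast_nonneg _) h3 _
          _ = Q ^ J.card * ((n : ℝ) ^ K) ^ J.card := by
              rw [← pow_mul, mul_comm J.card, pow_mul, ← mul_pow]
              congr 1
              rw [hQ, div_mul_cancel₀ _ (by positivity)]
      have h5 : (0 : ℝ) < ((n : ℝ) ^ K) ^ J.card := by positivity
      refine le_of_mul_le_mul_right ?_ h5
      calc ((G.filter fun M => D M = J).card : ℝ) * ((n : ℝ) ^ K) ^ J.card
          ≤ N * (sc J.card T' : ℝ) ^ (k + 1) := h2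
        _ ≤ N * (Q ^ J.card * ((n : ℝ) ^ K) ^ J.card) := mul_le_mul_of_nonneg_left h4 hN0.le
        _ = _ := by ring
    · rw [mul_zero]
      have h1 : (G.filter fun M => D M = J) = ∅ := by
        refine filter_eq_empty_iff.2 fun M hM hMJ => h ?_
        have h2 := (mem_filter.1 hM).2
        have h3 := hgD M
        rw [hMJ] at h3
        linarith
      rw [h1, card_empty, Nat.cast_zero]
  have hGs : (G.card : ℝ) ≤ N * ∑ d ∈ range (n + 1), (n.choose d : ℝ) *
      (if γ * n / 4 < (d : ℝ) then Q ^ d else 0) := by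
    have h1 := card_eq_sum_card_fiberwise (f := D) (s := G) (t := univ)
      (fun M _ => mem_coe.2 (mem_univ _))
    rw [h1]
    push_cast
    refine (sum_le_sum fun J _ => hJ J).trans (le_of_eq ?_)
    rw [← mul_sum]
    congr 1
    have h2 := sum_powerset_apply_card (x := (univ : Finset (Fin n)))
      (fun d : ℕ => if γ * n / 4 < (d : ℝ) then Q ^ d else 0)
    rw [powerset_univ, card_univ, Fintype.card_fin] at h2
    rw [h2]
    exact sum_congr rfl fun d _ => nsmul_eq_mul _ _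
  -- the end of the proof
  set A : ℝ := 4 * Real.exp 1 / γ with hA
  have hA0 : 0 ≤ A := by positivity
  have hch : ∀ d : ℕ, d ≤ n → γ * n / 4 < d → (n.choose d : ℝ) ≤ A ^ d := by
    intro d hd h
    have hd0 : 0 < d := by
      by_contra hcon
      have h1 : d = 0 := by omega
      rw [h1, Nat.cast_zero] at h
      have : 0 < γ * n / 4 := by positivity
      linarith
    have hd0' : (0 : ℝ) < d := by exact_mod_cast hd0
    have h1 : (n.choose d : ℝ) ≤ sc d n := by exact_mod_cast choose_le_sc le_rfl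
    refine h1.trans ((sc_le hd0 hd).trans (pow_le_pow_left₀ (by positivity) ?_ _))
    rw [div_le_iff₀ hd0', hA, div_mul_eq_mul_div, le_div_iff₀ hγ]
    have h2 : γ * n ≤ 4 * d := by linarith
    calc Real.exp 1 * n * γ = Real.exp 1 * (γ * n) := by ring
      _ ≤ Real.exp 1 * (4 * d) := mul_le_mul_of_nonneg_left h2 (Real.exp_pos 1).le
      _ = _ := by ring
  have hfin : γ ≤ 8 * (A * Q) := by
    by_cases hq : A * Q ≤ 1 / 2
    · have h1 := sum_pow (n := n) (by positivity : 0 < γ * n / 4) hA0 hQ0 hch hq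
      have h2 : γ / 4 * N ≤ 2 * (A * Q) * N := by
        calc γ / 4 * N ≤ G.card := hGc
          _ ≤ _ := hGs
          _ ≤ N * (2 * (A * Q)) := mul_le_mul_of_nonneg_left h1 hN0.le
          _ = _ := mul_comm _ _
      have h3 := le_of_mul_le_mul_right h2 hN0
      linarith
    · push Not at hq
      linarith
  have e1 : γ ^ (k + 3) * (n : ℝ) ^ (K + (k + 1)) = γ * (γ * (n : ℝ) ^ K * (γ * n) ^ (k + 1)) := by
    rw [mul_pow, pow_add (n : ℝ)]
    ring
  rw [e1]
  calc γ * (γ * (n : ℝ) ^ K * (γ * n) ^ (k + 1))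
      ≤ 8 * (A * Q) * (γ * (n : ℝ) ^ K * (γ * n) ^ (k + 1)) :=
        mul_le_mul_of_nonneg_right hfin (by positivity)
    _ = 32 * Real.exp 1 * (2 * Real.exp 1 * T) ^ (k + 1) := by
        rw [hA, hQ, div_pow]
        field_simp
        ring

open Classical in
/-- bounded error -/
theorem bounded {c : Fin (K + 1) → ℝ} (hc : ∀ p, c p ≠ 0) {κ' : Type}
    [Finite κ'] {E : κ' → Var (K + 1) n → ℝ} (hE : Indep c E) {P : Type} [TopologicalSpace P]
    [BaireSpace P]
    {pot : P → Var (K + 1) n → ℝ} (hpot : Continuous pot) (hval : ∀ y s, val c (pot y) s = 0)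
    (hEpot : ∀ y e, dot (E e) (pot y) = 0)
    {W : Set (Var (K + 1) n → ℝ)} (hW : IsOpen W) {y₀ : P} (hy₀ : pot y₀ ∈ W)
    {β : Type} (φ : β → Bool) {Ω : Type} [Fintype Ω] (p : Ω → ℝ) (hp0 : ∀ ρ, 0 ≤ p ρ)
    (hp1 : ∑ ρ, p ρ = 1) (t : Ω → RTree pot β) {γ T : ℝ} (hγ : 0 < γ) {k : ℕ}
    (hno : ∀ w ∈ W, (∀ s, val c w s ≠ 0) → (∀ e, dot (E e) w ≠ 0) →
      (1 + γ) / 2 ≤ prob p (fun ρ => φ ((t ρ).run w) = false) ∧ (∀ ρ, (t ρ).rounds w ≤ k + 1) ∧
        ∑ ρ, p ρ * (t ρ).tests w ≤ T)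
    (hyes : ∀ w ∈ W, ∀ τ, val c w τ = 0 → (∀ s, s ≠ τ → val c w s ≠ 0) →
      (∀ e, dot (E e) w ≠ 0) → (1 + γ) / 2 ≤ prob p (fun ρ => φ ((t ρ).run w) = true))
    (hn : 1 ≤ n) :
    γ ≤ 1 ∧ γ * n ≤ T ∧ γ ^ (k + 3) * (n : ℝ) ^ (K + (k + 1)) ≤
      32 * Real.exp 1 * (2 * Real.exp 1 * T) ^ (k + 1) := by
  obtain ⟨x, u, S, ε, R, hI, hR, hRt, hε, hdet, hnoi, hcost⟩ := core hc hE hpot hval hEpot hW hy₀
    φ p hp0 hp1 t hno hyes
  -- the detected variables
  refine count_main hc hI p hp0 hp1 R hR hγ (fun ρ M => univ.filter fun j =>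
    Diff (R ρ) (noi c (u M) ε (tp M j)) (yes c (u M) (tp M j))) (fun ρ M j hj =>
    lead_of_diff hc hI (hR ρ) (hRt ρ) (hε ρ M j) ((hnoi M j).1 ρ) (mem_filter.1 hj).2) ?_ hcost hn
  intro M j
  have h := hdet M j
  rw [prob_eq] at h
  refine h.trans (le_of_eq (sum_congr rfl fun ρ _ => ?_))
  simp only [mem_filter, mem_univ, true_and]

end Pool.Agent.H692.RB
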