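import Mathlib
import Pool.Agent.H692.RB.Main
import Pool.Agent.H692.RR.Final
import Pool.Agent.H692.KS.ThreeSum

/-!
# Randomized trees with few rounds, for any number of rounds: the result
-/

set_option autoImplicit false
set_option linter.unusedSectionVars false

namespace Pool.Agent.H692.RB

open Finset Filter Topology
open Pool.Agent.H692.KS
open Pool.Agent.H692.RT (prob c111 c111_ne val_c111 near0 near0_open pot_near0 inj_of_near0)

/-- the bound for randomized trees with at most `r` rounds which make at most `T` tests on average -/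
def Bound (K : ℕ) (γ : ℝ) (r n : ℕ) (T : ℝ) : Prop :=
  γ ^ (r + 2) * (n : ℝ) ^ (K + r) ≤ 87 * (6 * T) ^ r ∧
    ∀ a : ℝ, 0 ≤ a → 16 ≤ n → T ≤ n * Real.log n ^ a →
      K * Real.log n ≤ r * ((7 + 3 * Real.log (1 / γ) + a) * Real.log (Real.log n))

theorem bound_of {K k n : ℕ} {γ T : ℝ} (hγ : 0 < γ) (hγ1 : γ ≤ 1) (hT : 0 < T)
    (h : γ ^ (k + 3) * (n : ℝ) ^ (K + (k + 1)) ≤
      32 * Real.exp 1 * (2 * Real.exp 1 * T) ^ (k + 1)) : Bound K γ (k + 1) n T := by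
  have he := Real.exp_one_lt_d9
  have h1 : γ ^ (k + 1 + 2) * (n : ℝ) ^ (K + (k + 1)) ≤ 87 * (6 * T) ^ (k + 1) := by
    refine h.trans (mul_le_mul (by linarith) (pow_le_pow_left₀ (by positivity) ?_ _)
      (by positivity) (by norm_num))
    exact mul_le_mul_of_nonneg_right (by linarith) hT.le
  refine ⟨h1, fun a ha h16 hTa => ?_⟩
  have hn' : (16 : ℝ) ≤ n := by exact_mod_cast h16
  have hn0 : (0 : ℝ) < n := by linarith
  have hl2 := Real.log_two_gt_d9
  have hl2' := Real.log_two_lt_d9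
  -- `exp 1 ≤ log n`
  have hL1 : Real.exp 1 ≤ Real.log n := by
    have h1 : Real.log 16 ≤ Real.log n := Real.log_le_log (by norm_num) hn'
    have h2 : Real.log 16 = 4 * Real.log 2 := by
      rw [show (16 : ℝ) = 2 ^ 4 by norm_num, Real.log_pow]
      norm_num
    linarith
  set L : ℝ := Real.log n with hL
  have hL0 : 0 < L := lt_of_lt_of_le (Real.exp_pos 1) hL1
  have hM1 : 1 ≤ Real.log L := by
    rw [Real.le_log_iff_exp_le hL0]
    exact hL1
  have hg : 0 ≤ Real.log (1 / γ) := Real.log_nonneg (by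
    rw [le_div_iff₀ hγ]
    linarith)
  have hg2 : Real.log γ = -Real.log (1 / γ) := by
    rw [one_div, Real.log_inv, neg_neg]
  have h87 : Real.log 87 ≤ 7 * Real.log 2 := by
    have : Real.log 87 ≤ Real.log ((2 : ℝ) ^ 7) := Real.log_le_log (by norm_num) (by norm_num)
    rw [Real.log_pow] at this
    exact_mod_cast this
  have h6 : Real.log 6 ≤ 3 * Real.log 2 := by
    have : Real.log 6 ≤ Real.log ((2 : ℝ) ^ 3) := Real.log_le_log (by norm_num) (by norm_num)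
    rw [Real.log_pow] at this
    exact_mod_cast this
  have hlT : Real.log T ≤ L + a * Real.log L := by
    have h2 := Real.log_le_log hT hTa
    rwa [Real.log_mul hn0.ne' (by positivity), Real.log_rpow hL0] at h2
  have h2 := Real.log_le_log (by positivity) h1
  rw [Real.log_mul (by positivity) (by positivity), Real.log_mul (by positivity) (by positivity),
    Real.log_pow, Real.log_pow, Real.log_pow, Real.log_mul (by positivity) (by positivity), hg2]
    at h2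
  push_cast at h2 ⊢
  have hk : (0 : ℝ) ≤ k := Nat.cast_nonneg _
  set g : ℝ := Real.log (1 / γ) with hgd
  set M : ℝ := Real.log L with hM
  have h3 : ((k : ℝ) + 1) * (Real.log 6 + Real.log T) ≤
      ((k : ℝ) + 1) * (3 * Real.log 2 + (L + a * M)) :=
    mul_le_mul_of_nonneg_left (by linarith) (by linarith)
  have h4 : (K : ℝ) * L ≤ 7 * Real.log 2 + ((k : ℝ) + 1) * (3 * Real.log 2 + a * M) +
      ((k : ℝ) + 3) * g := by
    nlinarith [h2, h3, h87]
  have h5 : 7 * Real.log 2 ≤ ((k : ℝ) + 1) * (7 * Real.log 2) := by nlinarith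
  have h7 : ((k : ℝ) + 3) * g ≤ ((k : ℝ) + 1) * (3 * g) := by nlinarith
  have h8 : 10 * Real.log 2 + 3 * g ≤ (7 + 3 * g) * M := by
    have h9 : (7 + 3 * g) * 1 ≤ (7 + 3 * g) * M := mul_le_mul_of_nonneg_left hM1 (by linarith)
    linarith
  calc (K : ℝ) * L ≤ ((k : ℝ) + 1) * (10 * Real.log 2 + 3 * g + a * M) := by linarith
    _ ≤ ((k : ℝ) + 1) * ((7 + 3 * g) * M + a * M) :=
        mul_le_mul_of_nonneg_left (by linarith) (by linarith)
    _ = _ := by ring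

theorem headline {K : ℕ} {γ : ℝ} (hγ : 0 < γ) {r n : ℕ} (hr : 1 ≤ r) (hn : 1 ≤ n) {T : ℝ}
    {c : Fin (K + 1) → ℝ} (hc : ∀ p, c p ≠ 0) {κ' : Type}
    [Finite κ'] {E : κ' → Var (K + 1) n → ℝ} (hE : Indep c E) {P : Type} [TopologicalSpace P]
    [BaireSpace P]
    {pot : P → Var (K + 1) n → ℝ} (hpot : Continuous pot) (hval : ∀ y s, val c (pot y) s = 0)
    (hEpot : ∀ y e, dot (E e) (pot y) = 0)
    {W : Set (Var (K + 1) n → ℝ)} (hW : IsOpen W) {y₀ : P} (hy₀ : pot y₀ ∈ W)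
    {β : Type} (φ : β → Bool) {Ω : Type} [Fintype Ω] (p : Ω → ℝ) (hp0 : ∀ ρ, 0 ≤ p ρ)
    (hp1 : ∑ ρ, p ρ = 1) (t : Ω → RTree pot β)
    (hno : ∀ w ∈ W, (∀ s, val c w s ≠ 0) → (∀ e, dot (E e) w ≠ 0) →
      (1 + γ) / 2 ≤ prob p (fun ρ => φ ((t ρ).run w) = false) ∧ (∀ ρ, (t ρ).rounds w ≤ r) ∧
        ∑ ρ, p ρ * (t ρ).tests w ≤ T)
    (hyes : ∀ w ∈ W, ∀ τ, val c w τ = 0 → (∀ s, s ≠ τ → val c w s ≠ 0) →
      (∀ e, dot (E e) w ≠ 0) → (1 + γ) / 2 ≤ prob p (fun ρ => φ ((t ρ).run w) = true)) :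
    Bound K γ r n T := by
  obtain ⟨k, rfl⟩ : ∃ k, r = k + 1 := ⟨r - 1, by omega⟩
  have hn0 : (0 : ℝ) < n := by exact_mod_cast hn
  obtain ⟨h1, h2, h3⟩ := bounded hc hE hpot hval hEpot hW hy₀ φ p hp0 hp1 t hγ hno hyes hn
  exact bound_of hγ h1 (lt_of_lt_of_le (mul_pos hγ hn0) h2) h3

open Classical in
/-- solutions of `a + b + c = 0` -/
theorem three_sum_zero {γ : ℝ} (hγ : 0 < γ) {r n : ℕ} (hr : 1 ≤ r) (hn : 1 ≤ n) {T : ℝ}
    {Ω : Type} [Fintype Ω] (p : Ω → ℝ) (hp0 : ∀ ρ, 0 ≤ p ρ) (hp1 : ∑ ρ, p ρ = 1)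
    {β : Type} (φ : β → Bool)
    (t : Ω → RTree (pot c111 : (Fin (2 + 1) → ℝ) → Var (2 + 1) n → ℝ) β)
    (hno : ∀ w : Fin 3 × Fin n → ℝ, Function.Injective w → (∀ a b c, ¬ RT.IsSol w a b c) →
      (1 + γ) / 2 ≤ prob p (fun ρ => φ ((t ρ).run w) = false) ∧ (∀ ρ, (t ρ).rounds w ≤ r) ∧
        ∑ ρ, p ρ * (t ρ).tests w ≤ T)
    (hyes : ∀ w : Fin 3 × Fin n → ℝ, Function.Injective w →
      (∃ a b c, RT.IsSol w a b c ∧ ∀ a' b' c', RT.IsSol w a' b' c' →
        ({a', b', c'} : Finset (Fin 3 × Fin n)) = {a, b, c}) →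
      (1 + γ) / 2 ≤ prob p (fun ρ => φ ((t ρ).run w) = true)) :
    Bound 2 γ r n T := by
  refine headline hγ hr hn c111_ne (indep_dif c111)
    (pot_continuous c111) (val_pot c111_ne) (dif_pot c111) near0_open (y₀ := ![1, 3, -4])
    pot_near0 φ p hp0 hp1 t ?_ ?_
  · intro w hw h1 h2
    refine hno w (inj_of_near0 hw h2) ?_
    rintro a b c ⟨-, -, -, h3⟩
    obtain ⟨i, j, k, -, h4⟩ := RT.parts_of_sol hw h3
    have h5 := h1 ![i, j, k]
    rw [val_c111] at h5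
    exact h5 (by simpa using h4)
  · intro w hw τ h1 h2 h3
    refine hyes w (inj_of_near0 hw h3) ?_
    rw [val_c111] at h1
    refine ⟨(0, τ 0), (1, τ 1), (2, τ 2), ⟨by simp, by simp, by simp, h1⟩, ?_⟩
    rintro a b c ⟨-, -, -, h4⟩
    obtain ⟨i, j, k, h5, h6⟩ := RT.parts_of_sol hw h4
    rw [h5]
    have h7 : ![i, j, k] = τ := by
      by_contra hne
      have h8 := h2 _ hne
      rw [val_c111] at h8
      exact h8 (by simpa using h6)
    rw [← h7]
    rfl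

/-- solutions of `a + b = c` -/
theorem three_sum_diff {γ : ℝ} (hγ : 0 < γ) {r n : ℕ} (hr : 1 ≤ r) (hn : 1 ≤ n) {T : ℝ}
    {Ω : Type} [Fintype Ω] (p : Ω → ℝ) (hp0 : ∀ ρ, 0 ≤ p ρ) (hp1 : ∑ ρ, p ρ = 1)
    {β : Type} (φ : β → Bool)
    (t : Ω → RTree (pot c3 : (Fin (2 + 1) → ℝ) → Var (2 + 1) n → ℝ) β)
    (hno : ∀ w : Fin 3 × Fin n → ℝ, Function.Injective w → (∀ a b c, ¬ KS.IsSol w a b c) →
      (1 + γ) / 2 ≤ prob p (fun ρ => φ ((t ρ).run w) = false) ∧ (∀ ρ, (t ρ).rounds w ≤ r) ∧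
        ∑ ρ, p ρ * (t ρ).tests w ≤ T)
    (hyes : ∀ w : Fin 3 × Fin n → ℝ, Function.Injective w →
      (∃ a b c, KS.IsSol w a b c ∧ ∀ a' b' c', KS.IsSol w a' b' c' →
        c' = c ∧ (a' = a ∧ b' = b ∨ a' = b ∧ b' = a)) →
      (1 + γ) / 2 ≤ prob p (fun ρ => φ ((t ρ).run w) = true)) :
    Bound 2 γ r n T := by
  refine headline hγ hr hn c3_ne (indep_dif c3) (pot_continuous c3)
    (val_pot c3_ne) (dif_pot c3) near_open (y₀ := ![1, 3, -4]) pot_near φ p hp0 hp1 t ?_ ?_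
  · intro w hw h1 h2
    refine hno w (inj_of_near hw h2) ?_
    rintro a b c ⟨-, -, -, h3⟩
    rcases KS.parts_of_sol hw h3 with ⟨i, j, k, rfl, rfl, rfl⟩ | ⟨i, j, k, rfl, rfl, rfl⟩
    · have h4 := h1 ![i, j, k]
      rw [val_c3] at h4
      simp at h4
      exact h4 (by linarith)
    · have h4 := h1 ![i, j, k]
      rw [val_c3] at h4
      simp at h4
      exact h4 (by linarith)
  · intro w hw τ h1 h2 h3
    refine hyes w (inj_of_near hw h3) ?_
    rw [val_c3] at h1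
    refine ⟨(0, τ 0), (1, τ 1), (2, τ 2), ⟨by simp, by simp, by simp, by linarith⟩, ?_⟩
    rintro a b c ⟨-, -, -, h4⟩
    have key : ∀ i j k, w (0, i) + w (1, j) = w (2, k) → i = τ 0 ∧ j = τ 1 ∧ k = τ 2 := by
      intro i j k h5
      by_contra hne
      have h6 := h2 ![i, j, k] (by
        intro h7
        refine hne ⟨?_, ?_, ?_⟩
        · rw [← h7]; rfl
        · rw [← h7]; rfl
        · rw [← h7]; rfl)
      rw [val_c3] at h6
      simp at h6
      exact h6 (by linarith)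
    rcases KS.parts_of_sol hw h4 with ⟨i, j, k, rfl, rfl, rfl⟩ | ⟨i, j, k, rfl, rfl, rfl⟩
    · obtain ⟨rfl, rfl, rfl⟩ := key i j k h4
      exact ⟨rfl, Or.inl ⟨rfl, rfl⟩⟩
    · obtain ⟨rfl, rfl, rfl⟩ := key i j k (by linarith)
      exact ⟨rfl, Or.inr ⟨rfl, rfl⟩⟩

/-- The family of trees `t ρ` with the probabilities `p ρ` finds out whether one number is the sum of
two others, for the lists with at most one solution: lists of `3 n` different real numbers without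
solution are rejected with probability `(1 + γ) / 2`, in at most `r` rounds and with at most `T` tests
on average; lists of different numbers with exactly one solution (up to the exchange of the summands)
are accepted with probability `(1 + γ) / 2`. -/
def SolvesSum {n : ℕ} {Ω : Type} [Fintype Ω] (p : Ω → ℝ)
    (t : Ω → RTree (pot c3 : (Fin 3 → ℝ) → Fin 3 × Fin n → ℝ) Bool) (γ T : ℝ) (r : ℕ) : Prop :=
  ((∀ ρ, 0 ≤ p ρ) ∧ ∑ ρ, p ρ = 1) ∧
    (∀ w : Fin 3 × Fin n → ℝ, Function.Injective w → (∀ a b c, ¬ KS.IsSol w a b c) →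
      (1 + γ) / 2 ≤ prob p (fun ρ => (t ρ).run w = false) ∧ (∀ ρ, (t ρ).rounds w ≤ r) ∧
        ∑ ρ, p ρ * (t ρ).tests w ≤ T) ∧
    ∀ w : Fin 3 × Fin n → ℝ, Function.Injective w →
      (∃ a b c, KS.IsSol w a b c ∧ ∀ a' b' c', KS.IsSol w a' b' c' →
        c' = c ∧ (a' = a ∧ b' = b ∨ a' = b ∧ b' = a)) →
      (1 + γ) / 2 ≤ prob p (fun ρ => (t ρ).run w = true)

end Pool.Agent.H692.RB
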