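import Mathlib
import Pool.Agent.H692.RB.Main

/-!
# Forms of the tuples of a given set
-/

set_option autoImplicit false
set_option linter.unusedSectionVars false

namespace Pool.Agent.H692.RB

open Finset Filter Topology
open Pool.Agent.H692.KS
open Pool.Agent.H692.RT (forms forms_finite gen_of lv tl dot_tl tl_ne yes dot_yes noi dot_noi
  dot_noi_smul form_lv prob prob_eq eventually_sign)
open Pool.Agent.H692.RR (tf Diff of_not_diff)

variable {K n : ℕ}

open Classical in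
/-- the reduction to linear tests near a special input -/
theorem core_gen {c : Fin (K + 1) → ℝ} (hc : ∀ p, c p ≠ 0)
    (TT : Set (Tup (K + 1) n)) {P : Type} [TopologicalSpace P] [BaireSpace P]
    {pot : P → Var (K + 1) n → ℝ} (hpot : Continuous pot)
    (hval : ∀ y, ∀ s ∈ TT, val c (pot y) s = 0)
    {W : Set (Var (K + 1) n → ℝ)} (hW : IsOpen W) {y₀ : P} (hy₀ : pot y₀ ∈ W)
    {β : Type} (φ : β → Bool) {Ω : Type} [Fintype Ω] (p : Ω → ℝ) (hp0 : ∀ ρ, 0 ≤ p ρ)
    (hp1 : ∑ ρ, p ρ = 1) (t : Ω → RTree pot β) {γ T : ℝ} {r : ℕ}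
    (hno : ∀ w ∈ W, (∀ s ∈ TT, val c w s ≠ 0) →
      (1 + γ) / 2 ≤ prob p (fun ρ => φ ((t ρ).run w) = false) ∧ (∀ ρ, (t ρ).rounds w ≤ r) ∧
        ∑ ρ, p ρ * (t ρ).tests w ≤ T)
    (hyes : ∀ w ∈ W, ∀ τ ∈ TT, val c w τ = 0 → (∀ s ∈ TT, s ≠ τ → val c w s ≠ 0) →
      (1 + γ) / 2 ≤ prob p (fun ρ => φ ((t ρ).run w) = true)) :
    ∃ (x : Var (K + 1) n → ℝ) (u : Mt K n → Var (K + 1) n → ℝ) (S : Set (Var (K + 1) n → ℝ))
      (ε : ℝ) (R : Ω → KS.LT (Var (K + 1) n)),
      Inst c x u S ∧ (∀ ρ, forms (R ρ) ⊆ S) ∧ (∀ ρ, ∀ L ∈ forms (R ρ), ∀ s, tl c s L ∈ S) ∧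
      (∀ ρ M j, ∀ L ∈ forms (R ρ), (¬ ∃ a : ℝ, L = a • form c (tp M j)) →
        SignType.sign (dot L (noi c (u M) ε (tp M j))) =
          SignType.sign (dot L (yes c (u M) (tp M j)))) ∧
      (∀ M j, tp M j ∈ TT → γ ≤ prob p fun ρ =>
        Diff (R ρ) (noi c (u M) ε (tp M j)) (yes c (u M) (tp M j))) ∧
      (∀ M j, (∀ ρ, (R ρ).rounds (noi c (u M) ε (tp M j)) ≤ r) ∧
        ∑ ρ, p ρ * (R ρ).tests (noi c (u M) ε (tp M j)) ≤ T) ∧
      ∀ M, ∑ ρ, p ρ * (R ρ).tests (u M) ≤ T := by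
  -- the generic special input
  obtain ⟨x₀, hxW, hgood⟩ : ∃ x₀, pot x₀ ∈ W ∧ ∀ ρ, Good φ (t ρ) x₀ := by
    have hd : Dense {x | ∀ ρ, Good φ (t ρ) x} :=
      dense_of_mem_residual (eventually_all.2 fun ρ => good hpot φ (t ρ))
    obtain ⟨x₀, h1, h2⟩ := hd.inter_open_nonempty (pot ⁻¹' W) (hW.preimage hpot) ⟨y₀, hy₀⟩
    exact ⟨x₀, h1, h2⟩
  let R : Ω → KS.LT (Var (K + 1) n) := fun ρ => red φ (t ρ) x₀
  have hev : ∀ v : Var (K + 1) n → ℝ, ∃ ε : ℝ, 0 < ε ∧ pot x₀ + ε • v ∈ W ∧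
      ∀ ρ, (R ρ).Gen v → φ ((t ρ).run (pot x₀ + ε • v)) = (R ρ).run v ∧
      (R ρ).rounds v = (t ρ).rounds (pot x₀ + ε • v) ∧
      (R ρ).tests v = (t ρ).tests (pot x₀ + ε • v) := by
    intro v
    have h1 : ∀ᶠ ε in 𝓝[>] (0 : ℝ), ∀ ρ, (R ρ).Gen v →
        φ ((t ρ).run (pot x₀ + ε • v)) = (R ρ).run v ∧
        (R ρ).rounds v = (t ρ).rounds (pot x₀ + ε • v) ∧
        (R ρ).tests v = (t ρ).tests (pot x₀ + ε • v) := by
      refine eventually_all.2 fun ρ => ?_
      by_cases hG : (R ρ).Gen v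
      · filter_upwards [hgood ρ v hG] with ε h _
        exact h
      · exact Eventually.of_forall fun ε h => absurd h hG
    obtain ⟨ε, ⟨h2, h3⟩, h4⟩ := ((h1.and ((tendsto_line (pot x₀) v).eventually
      (hW.mem_nhds hxW))).and self_mem_nhdsWithin).exists
    exact ⟨ε, h4, h3, h2⟩
  have hvv : ∀ (ε : ℝ) (u : Var (K + 1) n → ℝ), ∀ s ∈ TT,
      val c (pot x₀ + ε • u) s = ε * val c u s := by
    intro ε u s hs
    rw [val_add_smul, hval _ s hs, zero_add]
  -- the forms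
  set FL : Set (Var (K + 1) n → ℝ) := (⋃ ρ, forms (R ρ)) ∪ Set.range (form c)
    with hFL
  have hFLfin : FL.Finite := (Set.finite_iUnion fun ρ => forms_finite (R ρ)).union
    (Set.finite_range _)
  set FL' : Set (Var (K + 1) n → ℝ) := FL ∪ ⋃ s, tl c s '' FL with hFL'
  have hFLfin' : FL'.Finite := hFLfin.union (Set.finite_iUnion fun s => hFLfin.image _)
  have hmem : ∀ ρ, ∀ L ∈ forms (R ρ), L ∈ FL := fun ρ L hL => Or.inl (Set.mem_iUnion.2 ⟨ρ, hL⟩)
  have hmemf : ∀ s, form c s ∈ FL := fun s => Or.inr ⟨s, rfl⟩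
  have hmem' : ∀ L ∈ FL, L ∈ FL' := fun L hL => Or.inl hL
  have hmemtl : ∀ L ∈ FL, ∀ s, tl c s L ∈ FL' := fun L hL s =>
    Or.inr (Set.mem_iUnion.2 ⟨s, L, hL, rfl⟩)
  obtain ⟨x, u, hI⟩ := exists_inst hc hFLfin'
  have hune : ∀ (M : Mt K n), ∀ L ∈ FL', L ≠ 0 → dot L (u M) ≠ 0 :=
    fun M L hL h0 => inst_ne hI M hL h0
  have hzne : ∀ (M : Mt K n) s, ∀ L ∈ FL, (¬ ∃ a : ℝ, L = a • form c s) →
      dot L (yes c (u M) s) ≠ 0 := by
    intro M s L hL h
    rw [dot_yes]
    exact hune M _ (hmemtl L hL s) (tl_ne h)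
  obtain ⟨ε, hε1, hε⟩ : ∃ ε : ℝ, (∀ (M : Mt K n) s, ∀ L ∈ FL,
      (¬ ∃ a : ℝ, L = a • form c s) →
      SignType.sign (dot L (noi c (u M) ε s)) = SignType.sign (dot L (yes c (u M) s))) ∧
      0 < ε := by
    have h1 : ∀ᶠ ε in 𝓝[>] (0 : ℝ), ∀ (M : Mt K n) s, ∀ L ∈ FL,
        (¬ ∃ a : ℝ, L = a • form c s) →
        SignType.sign (dot L (noi c (u M) ε s)) = SignType.sign (dot L (yes c (u M) s)) := by
      refine eventually_all.2 fun M => eventually_all.2 fun s => (eventually_all_finite hFLfin).2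
        fun L hL => ?_
      by_cases h : ∃ a : ℝ, L = a • form c s
      · exact Eventually.of_forall fun ε h' => absurd h h'
      · filter_upwards [eventually_sign L (yes c (u M) s) (Pi.single (lv s) 1)
          (hzne M s L hL h)] with ε h2 _
        exact h2
    obtain ⟨ε, h2, h3⟩ := (h1.and self_mem_nhdsWithin).exists
    exact ⟨ε, h2, h3⟩
  have hyne : ∀ (M : Mt K n) s, ∀ L ∈ FL, L ≠ 0 → dot L (noi c (u M) ε s) ≠ 0 := by
    intro M s L hL h0
    by_cases h : ∃ a : ℝ, L = a • form c s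
    · obtain ⟨a, rfl⟩ := h
      rw [dot_noi_smul hc]
      have ha : a ≠ 0 := by
        rintro rfl
        rw [zero_smul] at h0
        exact h0 rfl
      exact mul_ne_zero hε.ne' (mul_ne_zero ha (hc _))
    · intro h1
      have h2 := hε1 M s L hL h
      rw [h1, sign_zero] at h2
      exact hzne M s L hL h (sign_eq_zero_iff.1 h2.symm)
  -- no-instances
  have hA : ∀ v : Var (K + 1) n → ℝ, (∀ L ∈ FL, L ≠ 0 → dot L v ≠ 0) →
      (1 + γ) / 2 ≤ prob p (fun ρ => (R ρ).run v = false) ∧ (∀ ρ, (R ρ).rounds v ≤ r) ∧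
        ∑ ρ, p ρ * (R ρ).tests v ≤ T := by
    intro v hvF
    obtain ⟨ε', hε', h1, h2⟩ := hev v
    have hG : ∀ ρ, (R ρ).Gen v := fun ρ => gen_of _ fun L hL h0 => hvF L (hmem ρ L hL) h0
    have h3 := hno _ h1 (fun s hs => by
        rw [hvv _ _ s hs]
        refine mul_ne_zero hε'.ne' ?_
        rw [← dot_form]
        exact hvF _ (hmemf s) (form_ne hc s))
    have e1 : (fun ρ => (R ρ).run v = false) =
        fun ρ => φ ((t ρ).run (pot x₀ + ε' • v)) = false := by
      funext ρ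
      rw [(h2 ρ (hG ρ)).1]
    refine ⟨by rw [e1]; exact h3.1, fun ρ => ?_, ?_⟩
    · rw [(h2 ρ (hG ρ)).2.1]
      exact h3.2.1 ρ
    · rw [sum_congr rfl fun ρ _ => by rw [(h2 ρ (hG ρ)).2.2]]
      exact h3.2.2
  refine ⟨x, u, FL', ε, R, hI, fun ρ L hL => hmem' L (hmem ρ L hL),
    fun ρ L hL s => hmemtl L (hmem ρ L hL) s, fun ρ M j L hL h => hε1 M _ L (hmem ρ L hL) h, ?_,
    fun M j => (hA _ (hyne M (tp M j))).2,
    fun M => (hA (u M) fun L hL h0 => hune M L (hmem' L hL) h0).2.2⟩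
  intro M j hMj
  set s := tp M j with hs
  have h1 := (hA _ (hyne M s)).1
  obtain ⟨ε', hε', h2, h3⟩ := hev (yes c (u M) s)
  have h4 := hyes _ h2 s hMj (by
      rw [hvv _ _ s hMj, ← dot_form, dot_yes]
      have : tl c s (form c s) = 0 := by
        unfold tl
        rw [form_lv, div_self (hc _), one_smul, sub_self]
      rw [this]
      unfold dot
      simp)
    (fun s' hs'T hs' => by
      rw [hvv _ _ s' hs'T, ← dot_form]
      refine mul_ne_zero hε'.ne' (hzne _ _ _ (hmemf s') ?_)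
      rintro ⟨a, ha⟩
      exact hs' (form_inj hc ha))
  have h5 : ∀ ρ, (if (R ρ).run (noi c (u M) ε s) = false then p ρ else 0) +
      (if φ ((t ρ).run (pot x₀ + ε' • yes c (u M) s)) = true then p ρ else 0) ≤
      p ρ + (if Diff (R ρ) (noi c (u M) ε s) (yes c (u M) s) then p ρ else 0) := by
    intro ρ
    have h0 := hp0 ρ
    by_cases hb : Diff (R ρ) (noi c (u M) ε s) (yes c (u M) s)
    · rw [if_pos hb]
      split_ifs <;> linarith
    · obtain ⟨hb1, hb2⟩ := of_not_diff (R ρ) (fun L hL h0 => hyne M s L (hmem ρ L hL) h0) hb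
      rw [if_neg hb, (h3 ρ hb1).1, hb2]
      cases (R ρ).run (yes c (u M) s) <;> simp
  have h6 := sum_le_sum fun ρ (_ : ρ ∈ (univ : Finset Ω)) => h5 ρ
  rw [sum_add_distrib, sum_add_distrib, hp1] at h6
  rw [prob_eq] at h1 h4
  rw [prob_eq]
  linarith

open Classical in
theorem card_agree_gen {m : ℕ} (O : Fin n → Finset (Fin K → Fin n)) (hO : ∀ j, (O j).card = m)
    {M : Mt K n} (hM : M ∈ Fintype.piFinset O) (J : Finset (Fin n)) :
    ((Fintype.piFinset O).filter fun M' : Mt K n => ∀ i, i ∉ J → M i = M' i).card =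
      m ^ J.card := by
  have hMi := Fintype.mem_piFinset.1 hM
  have h1 : ((Fintype.piFinset O).filter fun M' : Mt K n => ∀ i, i ∉ J → M i = M' i) =
      Fintype.piFinset fun i => if i ∈ J then O i else {M i} := by
    ext M'
    rw [mem_filter, Fintype.mem_piFinset, Fintype.mem_piFinset]
    constructor
    · rintro ⟨h0, h⟩ i
      split_ifs with hi
      · exact h0 i
      · exact mem_singleton.2 (h i hi).symm
    · intro h
      refine ⟨fun i => ?_, fun i hi => ?_⟩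
      · have h2 := h i
        split_ifs at h2 with hi
        · exact h2
        · rw [mem_singleton.1 h2]
          exact hMi i
      · have h2 := h i
        rw [if_neg hi] at h2
        exact (mem_singleton.1 h2).symm
  rw [h1, Fintype.card_piFinset]
  have h2 : ∀ i : Fin n, (if i ∈ J then O i else {M i}).card = if i ∈ J then m else 1 := by
    intro i
    split_ifs
    · exact hO i
    · exact card_singleton _
  rw [prod_congr rfl fun i _ => h2 i, prod_ite_mem, univ_inter, prod_const]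

open Classical in
theorem card_sub_gen {c : Fin (K + 1) → ℝ} (hc : ∀ p, c p ≠ 0) {x : Var (K + 1) n → ℝ}
    {u : Mt K n → Var (K + 1) n → ℝ} {S : Set (Var (K + 1) n → ℝ)} (hI : Inst c x u S)
    (R : KS.LT (Var (K + 1) n)) (hR : forms R ⊆ S) (k T : ℕ) (J : Finset (Fin n))
    (G : Finset (Mt K n)) {m : ℕ} (O : Fin n → Finset (Fin K → Fin n))
    (hO : ∀ j, (O j).card = m) (hGO : G ⊆ Fintype.piFinset O)
    (hT : ∀ M ∈ G, R.tests (u M) ≤ T)
    (hG : ∀ M ∈ G, ∀ j ∈ J, ∃ L ∈ tf R (k + 1) (u M), rd c M L = 0 ∧ L (Fin.last K, j) ≠ 0 ∧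
      ∀ i < j, L (Fin.last K, i) = 0) :
    G.card * m ^ J.card ≤ m ^ n * sc J.card T ^ (k + 1) := by
  have h1 : ∑ M₀ ∈ Fintype.piFinset O, (G.filter fun M => ∀ i, i ∉ J → M i = M₀ i).card =
      ∑ M ∈ G, ((Fintype.piFinset O).filter fun M₀ : Mt K n =>
        ∀ i, i ∉ J → M i = M₀ i).card := by
    simp only [card_filter]
    exact sum_comm
  rw [sum_congr rfl fun M (hM : M ∈ G) => card_agree_gen O hO (hGO hM) J, sum_const,
    smul_eq_mul] at h1
  rw [← h1]
  calc ∑ M₀ ∈ Fintype.piFinset O, (G.filter fun M => ∀ i, i ∉ J → M i = M₀ i).card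
      ≤ ∑ _M₀ ∈ Fintype.piFinset O, sc J.card T ^ (k + 1) := by
        refine sum_le_sum fun M₀ _ => card_class hc hI R hR k T J _
          (fun M hM => hT M (mem_filter.1 hM).1) (fun M hM => hG M (mem_filter.1 hM).1) ?_
        intro M hM M' hM' i hi
        rw [(mem_filter.1 hM).2 i hi, (mem_filter.1 hM').2 i hi]
    _ = _ := by
        rw [sum_const, smul_eq_mul, Fintype.card_piFinset, prod_congr rfl fun j _ => hO j,
          prod_const, card_univ, Fintype.card_fin]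

open Classical in
/-- the count of the assignments, if each variable is found with probability `γ` -/
theorem count_gen {c : Fin (K + 1) → ℝ} (hc : ∀ p, c p ≠ 0) {x : Var (K + 1) n → ℝ}
    {u : Mt K n → Var (K + 1) n → ℝ} {S : Set (Var (K + 1) n → ℝ)} (hI : Inst c x u S)
    {Ω : Type} [Fintype Ω] (p : Ω → ℝ) (hp0 : ∀ ρ, 0 ≤ p ρ) (hp1 : ∑ ρ, p ρ = 1)
    (R : Ω → KS.LT (Var (K + 1) n)) (hR : ∀ ρ, forms (R ρ) ⊆ S) {γ T : ℝ} (hγ : 0 < γ) {k : ℕ}
    (Dt : Ω → Mt K n → Finset (Fin n))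
    (hlead : ∀ ρ M, ∀ j ∈ Dt ρ M, ∃ L ∈ tf (R ρ) (k + 1) (u M), rd c M L = 0 ∧
      L (Fin.last K, j) ≠ 0 ∧ ∀ i < j, L (Fin.last K, i) = 0)
    {m : ℕ} (hm : 1 ≤ m) (O : Fin n → Finset (Fin K → Fin n)) (hO : ∀ j, (O j).card = m)
    (hdet : ∀ M ∈ Fintype.piFinset O, ∀ j, γ ≤ ∑ ρ, (if j ∈ Dt ρ M then p ρ else 0))
    (hcost : ∀ M, ∑ ρ, p ρ * (R ρ).tests (u M) ≤ T) (hn : 1 ≤ n) :
    γ ≤ 1 ∧ γ * n ≤ T ∧ γ ^ (k + 3) * (m * (n : ℝ) ^ (k + 1)) ≤
      32 * Real.exp 1 * (2 * Real.exp 1 * T) ^ (k + 1) := by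
  have hn0 : (0 : ℝ) < n := by exact_mod_cast hn
  have hDT : ∀ ρ M, (Dt ρ M).card ≤ (R ρ).tests (u M) := by
    intro ρ M
    refine le_trans ?_ (RR.card_tf (R ρ) (u M) (k + 1))
    choose! L hL1 hL2 hL3 hL4 using hlead ρ M
    refine card_le_card_of_injOn L hL1 ?_
    intro i hi j hj hij
    have hi' := mem_coe.1 hi
    have hj' := mem_coe.1 hj
    rcases lt_trichotomy i j with h | h | h
    · exact absurd (by rw [hij]; exact hL4 j hj' i h) (hL3 i hi')
    · exact h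
    · exact absurd (by rw [← hij]; exact hL4 i hi' j h) (hL3 j hj')
  have hDn : ∀ ρ M, (Dt ρ M).card ≤ n := fun ρ M =>
    (card_le_univ _).trans (by rw [Fintype.card_fin])
  have hm0 : (0 : ℝ) < m := by exact_mod_cast hm
  have hsum1 : ∀ M ∈ Fintype.piFinset O, γ * n ≤ ∑ ρ, p ρ * ((Dt ρ M).card : ℝ) := by
    intro M hM
    calc γ * n = ∑ _j : Fin n, γ := by
          rw [sum_const, card_univ, Fintype.card_fin, nsmul_eq_mul, mul_comm]
      _ ≤ ∑ j : Fin n, ∑ ρ, (if j ∈ Dt ρ M then p ρ else 0) := sum_le_sum fun j _ => hdet M hM j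
      _ = _ := by
          rw [sum_comm]
          refine sum_congr rfl fun ρ _ => ?_
          rw [← sum_filter, sum_const, nsmul_eq_mul, filter_mem_eq_inter, univ_inter, mul_comm]
  obtain ⟨M₀, hM₀⟩ : (Fintype.piFinset O).Nonempty := by
    rw [← card_pos, Fintype.card_piFinset]
    exact prod_pos fun j _ => by rw [hO j]; exact hm
  have hTn : γ * n ≤ T := by
    refine (hsum1 M₀ hM₀).trans (le_trans (sum_le_sum fun ρ _ => ?_) (hcost M₀))
    exact mul_le_mul_of_nonneg_left (by exact_mod_cast hDT ρ M₀) (hp0 ρ)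
  have hT0 : 0 < T := lt_of_lt_of_le (mul_pos hγ hn0) hTn
  have hγ1 : γ ≤ 1 := by
    have h1 : γ * n ≤ 1 * n := by
      refine (hsum1 M₀ hM₀).trans ?_
      calc ∑ ρ, p ρ * ((Dt ρ M₀).card : ℝ) ≤ ∑ ρ, p ρ * (n : ℝ) := sum_le_sum fun ρ _ =>
            mul_le_mul_of_nonneg_left (by exact_mod_cast hDn ρ M₀) (hp0 ρ)
        _ = 1 * n := by rw [← sum_mul, hp1]
    exact le_of_mul_le_mul_right h1 hn0
  refine ⟨hγ1, hTn, ?_⟩
  set N : ℝ := (m : ℝ) ^ n with hN
  have hN0 : 0 < N := by positivity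
  have hcardN : ((Fintype.piFinset O).card : ℝ) = N := by
    rw [Fintype.card_piFinset, prod_congr rfl fun j _ => hO j, prod_const, card_univ,
      Fintype.card_fin]
    push_cast
    rfl
  -- the choice of the tree
  set θ : ℝ := γ * n / (2 * T) with hθd
  have hθT : θ * T = γ * n / 2 := by
    rw [hθd]
    field_simp
  have hθ0 : 0 < θ := by positivity
  obtain ⟨ρ, hρ⟩ : ∃ ρ, N * (γ * n / 2) ≤
      ∑ M ∈ Fintype.piFinset O, (((Dt ρ M).card : ℝ) - θ * (R ρ).tests (u M)) := by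
    refine exists_ge p hp0 hp1 _ ?_
    calc N * (γ * n / 2) = ∑ _M ∈ Fintype.piFinset O, (γ * n / 2) := by
          rw [sum_const, nsmul_eq_mul, hcardN]
      _ ≤ ∑ M ∈ Fintype.piFinset O, ∑ ρ,
          p ρ * (((Dt ρ M).card : ℝ) - θ * (R ρ).tests (u M)) := by
          refine sum_le_sum fun M hM => ?_
          have h1 : ∑ ρ, p ρ * (((Dt ρ M).card : ℝ) - θ * (R ρ).tests (u M)) =
              ∑ ρ, p ρ * ((Dt ρ M).card : ℝ) - θ * ∑ ρ, p ρ * (R ρ).tests (u M) := by
            rw [mul_sum, ← sum_sub_distrib]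
            exact sum_congr rfl fun ρ _ => by ring
          have h2 : θ * ∑ ρ, p ρ * ((R ρ).tests (u M) : ℝ) ≤ θ * T :=
            mul_le_mul_of_nonneg_left (hcost M) hθ0.le
          have h3 := hsum1 M hM
          rw [h1]
          linarith
      _ = _ := by
          rw [sum_comm]
          exact sum_congr rfl fun ρ _ => (mul_sum _ _ _).symm
  set D : Mt K n → Finset (Fin n) := Dt ρ with hD
  set g : Mt K n → ℝ := fun M => ((D M).card : ℝ) - θ * (R ρ).tests (u M) with hg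
  set G : Finset (Mt K n) := (Fintype.piFinset O).filter fun M => γ * n / 4 < g M with hG
  have hgD : ∀ M, g M ≤ (D M).card := by
    intro M
    have : 0 ≤ θ * ((R ρ).tests (u M) : ℝ) := by positivity
    simp only [hg]
    linarith
  have hGc : γ / 4 * N ≤ G.card := by
    have h3 : ∀ M ∈ Fintype.piFinset O, g M ≤ (if M ∈ G then (n : ℝ) else 0) + γ * n / 4 := by
      intro M hMO
      split_ifs with hM
      · have h4 : ((D M).card : ℝ) ≤ n := by exact_mod_cast hDn ρ M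
        have h5 := hgD M
        have h6 : 0 < γ * n / 4 := by positivity
        linarith
      · rw [zero_add]
        by_contra hcon
        push Not at hcon
        exact hM (mem_filter.2 ⟨hMO, hcon⟩)
    have h4 := hρ.trans (sum_le_sum h3)
    rw [sum_add_distrib, ← sum_filter, sum_const, sum_const, nsmul_eq_mul, nsmul_eq_mul, hcardN,
      filter_mem_eq_inter, inter_eq_right.2 (filter_subset _ _ : G ⊆ Fintype.piFinset O)] at h4
    have h5 : (γ / 4 * N) * n ≤ (G.card : ℝ) * n := by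
      have e1 : N * (γ * n / 2) = 2 * ((γ / 4 * N) * n) := by ring
      have e2 : N * (γ * n / 4) = (γ / 4 * N) * n := by ring
      rw [e1, e2] at h4
      linarith
    exact le_of_mul_le_mul_right h5 hn0
  -- the assignments with given detected variables
  set Q : ℝ := (2 * Real.exp 1 * T / (γ * n)) ^ (k + 1) / (m : ℝ) with hQ
  have hQ0 : 0 ≤ Q := by positivity
  have hJ : ∀ J : Finset (Fin n), ((G.filter fun M => D M = J).card : ℝ) ≤
      N * (if γ * n / 4 < (J.card : ℝ) then Q ^ J.card else 0) := by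
    intro J
    split_ifs with h
    · have hJ0 : 0 < J.card := by
        by_contra hcon
        have h1 : J.card = 0 := by omega
        rw [h1, Nat.cast_zero] at h
        have : 0 < γ * n / 4 := by positivity
        linarith
      have hJ0' : (0 : ℝ) < J.card := by exact_mod_cast hJ0
      set T' : ℕ := ⌊(J.card : ℝ) / θ⌋₊ with hT'
      have hT'2 : (T' : ℝ) ≤ J.card / θ := Nat.floor_le (by positivity)
      have hJT : J.card ≤ T' := by
        refine Nat.le_floor ?_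
        rw [le_div_iff₀ hθ0]
        have h1 : θ ≤ 1 := by
          rw [hθd, div_le_one (by positivity)]
          linarith
        calc (J.card : ℝ) * θ ≤ J.card * 1 := mul_le_mul_of_nonneg_left h1 hJ0'.le
          _ = J.card := mul_one _
      have h1 := card_sub_gen hc hI (R ρ) (hR ρ) k T' J (G.filter fun M => D M = J) O hO
        ((filter_subset _ _).trans (filter_subset _ _))
        (by
          intro M hM
          obtain ⟨hM1, hM2⟩ := mem_filter.1 hM
          have h2 := (mem_filter.1 hM1).2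
          refine Nat.le_floor ?_
          rw [le_div_iff₀ hθ0]
          simp only [hg, hM2] at h2
          have h3 : 0 < γ * n / 4 := by positivity
          rw [mul_comm]
          linarith)
        (by
          intro M hM j hj
          obtain ⟨hM1, hM2⟩ := mem_filter.1 hM
          rw [← hM2] at hj
          exact hlead ρ M j hj)
      have h2 : ((G.filter fun M => D M = J).card : ℝ) * (m : ℝ) ^ J.card ≤
          N * (sc J.card T' : ℝ) ^ (k + 1) := by
        rw [hN]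
        exact_mod_cast h1
      have h3 : (sc J.card T' : ℝ) ≤ (2 * Real.exp 1 * T / (γ * n)) ^ J.card := by
        refine (sc_le hJ0 hJT).trans (pow_le_pow_left₀ (by positivity) ?_ _)
        rw [div_le_iff₀ hJ0']
        calc Real.exp 1 * (T' : ℝ) ≤ Real.exp 1 * (J.card / θ) :=
              mul_le_mul_of_nonneg_left hT'2 (Real.exp_pos 1).le
          _ = 2 * Real.exp 1 * T / (γ * n) * J.card := by
              rw [hθd]
              field_simp
      have h4 : (sc J.card T' : ℝ) ^ (k + 1) ≤ Q ^ J.card * (m : ℝ) ^ J.card := by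
        calc (sc J.card T' : ℝ) ^ (k + 1) ≤ ((2 * Real.exp 1 * T / (γ * n)) ^ J.card) ^ (k + 1) :=
              pow_le_pow_left₀ (Nat.cast_nonneg _) h3 _
          _ = Q ^ J.card * (m : ℝ) ^ J.card := by
              rw [← pow_mul, mul_comm J.card, pow_mul, ← mul_pow]
              congr 1
              rw [hQ, div_mul_cancel₀ _ (by positivity)]
      have h5 : (0 : ℝ) < (m : ℝ) ^ J.card := by positivity
      refine le_of_mul_le_mul_right ?_ h5
      calc ((G.filter fun M => D M = J).card : ℝ) * (m : ℝ) ^ J.card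
          ≤ N * (sc J.card T' : ℝ) ^ (k + 1) := h2
        _ ≤ N * (Q ^ J.card * (m : ℝ) ^ J.card) := mul_le_mul_of_nonneg_left h4 hN0.le
        _ = _ := by ring
    · rw [mul_zero]
      have h1 : (G.filter fun M => D M = J) = ∅ := by
        refine filter_eq_empty_iff.2 fun M hM hMJ => h ?_
        have h2 := (mem_filter.1 hM).2
        have h3 := hgD M
        rw [hMJ] at h3
        linarith
      rw [h1, card_empty, Nat.cast_zero]
  have hGs : (G.card : ℝ) ≤ N * ∑ d ∈ range (n + 1), (n.choose d : ℝ) *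
      (if γ * n / 4 < (d : ℝ) then Q ^ d else 0) := by
    have h1 := card_eq_sum_card_fiberwise (f := D) (s := G) (t := univ)
      (fun M _ => mem_coe.2 (mem_univ _))
    rw [h1]
    push_cast
    refine (sum_le_sum fun J _ => hJ J).trans (le_of_eq ?_)
    rw [← mul_sum]
    congr 1
    have h2 := sum_powerset_apply_card (x := (univ : Finset (Fin n)))
      (fun d : ℕ => if γ * n / 4 < (d : ℝ) then Q ^ d else 0)
    rw [powerset_univ, card_univ, Fintype.card_fin] at h2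
    rw [h2]
    exact sum_congr rfl fun d _ => nsmul_eq_mul _ _
  -- the end of the proof
  set A : ℝ := 4 * Real.exp 1 / γ with hA
  have hA0 : 0 ≤ A := by positivity
  have hch : ∀ d : ℕ, d ≤ n → γ * n / 4 < d → (n.choose d : ℝ) ≤ A ^ d := by
    intro d hd h
    have hd0 : 0 < d := by
      by_contra hcon
      have h1 : d = 0 := by omega
      rw [h1, Nat.cast_zero] at h
      have : 0 < γ * n / 4 := by positivity
      linarith
    have hd0' : (0 : ℝ) < d := by exact_mod_cast hd0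
    have h1 : (n.choose d : ℝ) ≤ sc d n := by exact_mod_cast choose_le_sc le_rfl
    refine h1.trans ((sc_le hd0 hd).trans (pow_le_pow_left₀ (by positivity) ?_ _))
    rw [div_le_iff₀ hd0', hA, div_mul_eq_mul_div, le_div_iff₀ hγ]
    have h2 : γ * n ≤ 4 * d := by linarith
    calc Real.exp 1 * n * γ = Real.exp 1 * (γ * n) := by ring
      _ ≤ Real.exp 1 * (4 * d) := mul_le_mul_of_nonneg_left h2 (Real.exp_pos 1).le
      _ = _ := by ring
  have hfin : γ ≤ 8 * (A * Q) := by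
    by_cases hq : A * Q ≤ 1 / 2
    · have h1 := sum_pow (n := n) (by positivity : 0 < γ * n / 4) hA0 hQ0 hch hq
      have h2 : γ / 4 * N ≤ 2 * (A * Q) * N := by
        calc γ / 4 * N ≤ G.card := hGc
          _ ≤ _ := hGs
          _ ≤ N * (2 * (A * Q)) := mul_le_mul_of_nonneg_left h1 hN0.le
          _ = _ := mul_comm _ _
      have h3 := le_of_mul_le_mul_right h2 hN0
      linarith
    · push Not at hq
      linarith
  have e1 : γ ^ (k + 3) * (m * (n : ℝ) ^ (k + 1)) = γ * (γ * (m : ℝ) * (γ * n) ^ (k + 1)) := by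
    rw [mul_pow]
    ring
  rw [e1]
  calc γ * (γ * (m : ℝ) * (γ * n) ^ (k + 1))
      ≤ 8 * (A * Q) * (γ * (m : ℝ) * (γ * n) ^ (k + 1)) :=
        mul_le_mul_of_nonneg_right hfin (by positivity)
    _ = 32 * Real.exp 1 * (2 * Real.exp 1 * T) ^ (k + 1) := by
        rw [hA, hQ, div_pow]
        field_simp
        ring

open Classical in
/-- bounded error, for a set of tuples -/
theorem bounded_gen {c : Fin (K + 1) → ℝ} (hc : ∀ p, c p ≠ 0)
    (TT : Set (Tup (K + 1) n)) {P : Type} [TopologicalSpace P] [BaireSpace P]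
    {pot : P → Var (K + 1) n → ℝ} (hpot : Continuous pot)
    (hval : ∀ y, ∀ s ∈ TT, val c (pot y) s = 0)
    {W : Set (Var (K + 1) n → ℝ)} (hW : IsOpen W) {y₀ : P} (hy₀ : pot y₀ ∈ W)
    {β : Type} (φ : β → Bool) {Ω : Type} [Fintype Ω] (p : Ω → ℝ) (hp0 : ∀ ρ, 0 ≤ p ρ)
    (hp1 : ∑ ρ, p ρ = 1) (t : Ω → RTree pot β) {γ T : ℝ} (hγ : 0 < γ) {k : ℕ}
    (hno : ∀ w ∈ W, (∀ s ∈ TT, val c w s ≠ 0) →
      (1 + γ) / 2 ≤ prob p (fun ρ => φ ((t ρ).run w) = false) ∧ (∀ ρ, (t ρ).rounds w ≤ k + 1) ∧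
        ∑ ρ, p ρ * (t ρ).tests w ≤ T)
    (hyes : ∀ w ∈ W, ∀ τ ∈ TT, val c w τ = 0 → (∀ s ∈ TT, s ≠ τ → val c w s ≠ 0) →
      (1 + γ) / 2 ≤ prob p (fun ρ => φ ((t ρ).run w) = true))
    {m : ℕ} (hm : 1 ≤ m) (O : Fin n → Finset (Fin K → Fin n)) (hO : ∀ j, (O j).card = m)
    (hOT : ∀ M ∈ Fintype.piFinset O, ∀ j, tp M j ∈ TT) (hn : 1 ≤ n) :
    γ ≤ 1 ∧ γ * n ≤ T ∧ γ ^ (k + 3) * (m * (n : ℝ) ^ (k + 1)) ≤
      32 * Real.exp 1 * (2 * Real.exp 1 * T) ^ (k + 1) := by
  obtain ⟨x, u, S, ε, R, hI, hR, hRt, hε, hdet, hnoi, hcost⟩ := core_gen hc TT hpot hval hW hy₀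
    φ p hp0 hp1 t hno hyes
  refine count_gen hc hI p hp0 hp1 R hR hγ (fun ρ M => univ.filter fun j =>
    Diff (R ρ) (noi c (u M) ε (tp M j)) (yes c (u M) (tp M j))) (fun ρ M j hj =>
    lead_of_diff hc hI (hR ρ) (hRt ρ) (hε ρ M j) ((hnoi M j).1 ρ) (mem_filter.1 hj).2) hm O hO
    ?_ hcost hn
  intro M hM j
  have h := hdet M j (hOT M hM j)
  rw [prob_eq] at h
  refine h.trans (le_of_eq (sum_congr rfl fun ρ _ => ?_))
  simp only [mem_filter, mem_univ, true_and]

end Pool.Agent.H692.RB
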