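import Mathlib
import Pool.Agent.H692.RB.Final

/-!
# Lists of integers and linear tests
-/

set_option autoImplicit false
set_option linter.unusedSectionVars false

namespace Pool.Agent.H692.RB

open Finset Filter Topology
open Pool.Agent.H692.KS
open Pool.Agent.H692.RT (forms forms_finite gen_of lv tl dot_tl tl_ne yes dot_yes noi dot_noi
  dot_noi_smul form_lv prob prob_eq eventually_sign)
open Pool.Agent.H692.RR (tf Diff of_not_diff)

section

variable {ι : Type} [Fintype ι]

/-- Decision trees for integral inputs. A node is a round: the signs of any number of affine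
functions with real coefficients (`L i` is the vector of the coefficients and `b i` the constant term
of the function `i`) are determined simultaneously. -/
inductive ATree (ι : Type) : Type
  | leaf (b : Bool) : ATree ι
  | round (m : ℕ) (L : Fin m → ι → ℝ) (b : Fin m → ℝ)
      (next : (Fin m → SignType) → ATree ι) : ATree ι

/-- the outcomes of the tests of a round -/
noncomputable def outc {m : ℕ} (L : Fin m → ι → ℝ) (b : Fin m → ℝ) (w : ι → ℤ) :
    Fin m → SignType := fun i => SignType.sign (∑ v, L i v * w v + b i)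

/-- the answer -/
noncomputable def ATree.run : ATree ι → (ι → ℤ) → Bool
  | .leaf b, _ => b
  | .round _ L b next, w => (next (outc L b w)).run w

/-- the number of the rounds -/
noncomputable def ATree.rounds : ATree ι → (ι → ℤ) → ℕ
  | .leaf _, _ => 0
  | .round _ L b next, w => (next (outc L b w)).rounds w + 1

/-- the number of the tests in all rounds together -/
noncomputable def ATree.tests : ATree ι → (ι → ℤ) → ℕ
  | .leaf _, _ => 0
  | .round m L b next, w => (next (outc L b w)).tests w + m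

/-- the tree for large multiples -/
noncomputable def hom : ATree ι → KS.LT ι
  | .leaf b => .leaf b
  | .round m L b next => .round m L (fun i => SignType.sign (b i)) fun a => hom (next a)

theorem sign_large (d b : ℝ) (hd : d ≠ 0) :
    ∀ᶠ N : ℕ in atTop, SignType.sign (N * d + b) = SignType.sign d := by
  filter_upwards [eventually_gt_atTop (Nat.ceil (|b| / |d|))] with N hN
  have h1 : |b| / |d| < N := lt_of_le_of_lt (Nat.le_ceil _) (by exact_mod_cast hN)
  rw [div_lt_iff₀ (abs_pos.2 hd)] at h1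
  rcases lt_or_gt_of_ne hd with h | h
  · rw [abs_of_neg h] at h1
    rw [sign_neg h, sign_neg]
    have := le_abs_self b
    linarith
  · rw [abs_of_pos h] at h1
    rw [sign_pos h, sign_pos]
    have := neg_abs_le b
    linarith

theorem hom_spec (t : ATree ι) {v : ι → ℝ} (hG : (hom t).Gen v) : ∀ᶠ N : ℕ in atTop,
    ∀ w : ι → ℤ, (∀ i, (w i : ℝ) = N * v i) → t.run w = (hom t).run v ∧
      t.rounds w = (hom t).rounds v ∧ t.tests w = (hom t).tests v := by
  induction t with
  | leaf b => exact Eventually.of_forall fun N w _ => ⟨rfl, rfl, rfl⟩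
  | round m L b next ih =>
    obtain ⟨h1, h2⟩ := hG
    have h3 : ∀ᶠ N : ℕ in atTop, ∀ i, SignType.sign (N * dot (L i) v + b i) =
        ans L (fun i => SignType.sign (b i)) v i := by
      refine eventually_all.2 fun i => ?_
      by_cases h0 : L i = 0
      · refine Eventually.of_forall fun N => ?_
        unfold ans
        rw [if_pos h0, h0]
        unfold dot
        simp
      · filter_upwards [sign_large (dot (L i) v) (b i) (h1 i h0)] with N h4
        unfold ans
        rw [if_neg h0, h4]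
    filter_upwards [h3, ih _ h2] with N h4 h5 w hw
    have h6 : outc L b w = ans L (fun i => SignType.sign (b i)) v := by
      funext i
      rw [← h4 i]
      unfold outc dot
      congr 2
      rw [mul_sum]
      exact sum_congr rfl fun e _ => by rw [hw e]; ring
    have h7 := h5 w hw
    refine ⟨?_, ?_, ?_⟩
    · show (next (outc L b w)).run w = (hom (next _)).run v
      rw [h6]
      exact h7.1
    · show (next (outc L b w)).rounds w + 1 = (hom (next _)).rounds v + 1
      rw [h6, h7.2.1]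
    · show (next (outc L b w)).tests w + m = (hom (next _)).tests v + m
      rw [h6, h7.2.2]

theorem gen_same (R : KS.LT ι) {v v' : ι → ℝ} (h : ∀ L ∈ forms R, dot L v ≠ 0 →
    SignType.sign (dot L v') = SignType.sign (dot L v)) (hG : R.Gen v) :
    R.Gen v' ∧ R.run v' = R.run v ∧ R.rounds v' = R.rounds v ∧ R.tests v' = R.tests v := by
  induction R with
  | leaf b => exact ⟨trivial, rfl, rfl, rfl⟩
  | round m L σ next ih =>
    obtain ⟨h1, h2⟩ := hG
    have h3 : ans L σ v' = ans L σ v := RR.ans_eq fun i hi => h (L i) (Or.inl ⟨i, rfl⟩) (h1 i hi)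
    have h4 := ih (ans L σ v) (fun L' hL' => h L' (Or.inr (Set.mem_iUnion.2 ⟨_, hL'⟩))) h2
    refine ⟨⟨fun i hi h0 => ?_, ?_⟩, ?_, ?_, ?_⟩
    · have h5 := h (L i) (Or.inl ⟨i, rfl⟩) (h1 i hi)
      rw [h0, sign_zero] at h5
      exact h1 i hi (sign_eq_zero_iff.1 h5.symm)
    · rw [h3]
      exact h4.1
    · show (next (ans L σ v')).run v' = (next (ans L σ v)).run v
      rw [h3]
      exact h4.2.1
    · show (next (ans L σ v')).rounds v' + 1 = (next (ans L σ v)).rounds v + 1
      rw [h3, h4.2.2.1]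
    · show (next (ans L σ v')).tests v' + m = (next (ans L σ v)).tests v + m
      rw [h3, h4.2.2.2]

theorem exists_rat {U : Set (ι → ℝ)} (hU : IsOpen U) {v : ι → ℝ} (hv : v ∈ U) :
    ∃ q : ι → ℚ, (fun i => (q i : ℝ)) ∈ U := by
  obtain ⟨ε, hε, hb⟩ := Metric.isOpen_iff.1 hU v hv
  have h : ∀ i, ∃ q : ℚ, |v i - q| < ε := fun i => exists_rat_near (v i) hε
  choose q hq using h
  refine ⟨q, hb ?_⟩
  rw [Metric.mem_ball, dist_pi_lt_iff hε]
  intro i
  rw [dist_comm, Real.dist_eq]
  exact hq i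

theorem exists_int (q : ι → ℚ) : ∃ D : ℕ, 0 < D ∧ ∀ k : ℕ, ∃ w : ι → ℤ,
    ∀ i, (w i : ℝ) = ((k * D : ℕ) : ℝ) * (q i : ℝ) := by
  refine ⟨∏ i, (q i).den, prod_pos fun i _ => (q i).den_pos, fun k => ?_⟩
  have h : ∀ i, ∃ z : ℤ, (z : ℝ) = ((k * ∏ i, (q i).den : ℕ) : ℝ) * (q i : ℝ) := by
    intro i
    obtain ⟨e, he⟩ := dvd_prod_of_mem (fun i => (q i).den) (mem_univ i)
    refine ⟨k * e * (q i).num, ?_⟩
    rw [he]
    have h1 : ((q i).den : ℝ) ≠ 0 := by exact_mod_cast (q i).den_ne_zero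
    have h2 : (q i : ℝ) = (q i).num / (q i).den := by
      rw [← Rat.cast_intCast, ← Rat.cast_natCast, ← Rat.cast_div, Rat.num_div_den]
    rw [h2]
    push_cast
    field_simp
  choose w hw using h
  exact ⟨w, hw⟩

open Classical in
theorem int_point {Ψ : (ι → ℝ) → ι → ℝ} (hΨ : Continuous Ψ) {v : ι → ℝ} (hv : Ψ v = v)
    (hq : ∀ q : ι → ℚ, ∃ q' : ι → ℚ, Ψ (fun i => (q i : ℝ)) = fun i => (q' i : ℝ))
    {FL : Set (ι → ℝ)} (hFL : FL.Finite) {Ω : Type} [Fintype Ω] (t : Ω → ATree ι)
    (hf : ∀ ρ, forms (hom (t ρ)) ⊆ FL) : ∃ (w : ι → ℤ) (N : ℕ) (x : ι → ℝ), 0 < N ∧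
      (∀ i, (w i : ℝ) = N * Ψ x i) ∧
      (∀ L ∈ FL, dot L v ≠ 0 → SignType.sign (dot L (Ψ x)) = SignType.sign (dot L v)) ∧
      ∀ ρ, (hom (t ρ)).Gen v → (t ρ).run w = (hom (t ρ)).run v ∧
        (t ρ).rounds w = (hom (t ρ)).rounds v ∧ (t ρ).tests w = (hom (t ρ)).tests v := by
  set U : Set (ι → ℝ) := ⋂ L ∈ FL, {x | dot L v ≠ 0 → 0 < dot L v * dot L (Ψ x)} with hUd
  have hU : IsOpen U := by
    refine hFL.isOpen_biInter fun L _ => ?_
    by_cases h0 : dot L v = 0
    · have : {x : ι → ℝ | dot L v ≠ 0 → 0 < dot L v * dot L (Ψ x)} = Set.univ := by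
        ext x
        simp [h0]
      rw [this]
      exact isOpen_univ
    · have : {x : ι → ℝ | dot L v ≠ 0 → 0 < dot L v * dot L (Ψ x)} =
          {x | 0 < dot L v * dot L (Ψ x)} := by
        ext x
        simp [h0]
      rw [this]
      exact isOpen_lt continuous_const (continuous_const.mul ((dot_continuous L).comp hΨ))
  have hvU : v ∈ U := by
    refine Set.mem_iInter₂.2 fun L _ h0 => ?_
    rw [hv]
    exact mul_self_pos.2 h0
  obtain ⟨q, hqU⟩ := exists_rat hU hvU
  obtain ⟨q', hq'⟩ := hq q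
  have hs : ∀ L ∈ FL, dot L v ≠ 0 →
      SignType.sign (dot L (Ψ fun i => (q i : ℝ))) = SignType.sign (dot L v) := by
    intro L hL h0
    have h1 : 0 < dot L v * dot L (Ψ fun i => (q i : ℝ)) := Set.mem_iInter₂.1 hqU L hL h0
    rcases lt_or_gt_of_ne h0 with h | h
    · have h2 : dot L (Ψ fun i => (q i : ℝ)) < 0 := by
        by_contra hcon
        push Not at hcon
        exact absurd (mul_nonpos_of_nonpos_of_nonneg h.le hcon) (not_le.2 h1)
      rw [sign_neg h, sign_neg h2]
    · have h2 : 0 < dot L (Ψ fun i => (q i : ℝ)) := by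
        by_contra hcon
        push Not at hcon
        exact absurd (mul_nonpos_of_nonneg_of_nonpos h.le hcon) (not_le.2 h1)
      rw [sign_pos h, sign_pos h2]
  have hg : ∀ ρ, (hom (t ρ)).Gen v → _ := fun ρ hG =>
    gen_same (hom (t ρ)) (v' := Ψ fun i => (q i : ℝ)) (fun L hL h0 => hs L (hf ρ hL) h0) hG
  have hev : ∀ᶠ N : ℕ in atTop, ∀ ρ, (hom (t ρ)).Gen v → ∀ w : ι → ℤ,
      (∀ i, (w i : ℝ) = N * Ψ (fun i => (q i : ℝ)) i) →
      (t ρ).run w = (hom (t ρ)).run (Ψ fun i => (q i : ℝ)) ∧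
      (t ρ).rounds w = (hom (t ρ)).rounds (Ψ fun i => (q i : ℝ)) ∧
      (t ρ).tests w = (hom (t ρ)).tests (Ψ fun i => (q i : ℝ)) := by
    refine eventually_all.2 fun ρ => ?_
    by_cases hG : (hom (t ρ)).Gen v
    · filter_upwards [hom_spec (t ρ) (hg ρ hG).1] with N h _
      exact h
    · exact Eventually.of_forall fun N h => absurd h hG
  obtain ⟨N₀, hN₀⟩ := eventually_atTop.1 hev
  obtain ⟨D, hD, hw⟩ := exists_int q'
  obtain ⟨w, hw⟩ := hw (N₀ + 1)
  have hN : N₀ ≤ (N₀ + 1) * D := by nlinarith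
  have hw' : ∀ i, (w i : ℝ) = (((N₀ + 1) * D : ℕ) : ℝ) * Ψ (fun i => (q i : ℝ)) i := by
    intro i
    rw [hw i, hq']
  refine ⟨w, (N₀ + 1) * D, fun i => (q i : ℝ), by positivity, hw', hs, fun ρ hG => ?_⟩
  have h1 := hN₀ _ hN ρ hG w hw'
  have h2 := hg ρ hG
  exact ⟨h1.1.trans h2.2.1, h1.2.1.trans h2.2.2.1, h1.2.2.trans h2.2.2.2⟩

end

end Pool.Agent.H692.RB
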