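import Mathlib
import Pool.Agent.H692.RB.Int

/-!
# The lower bound for lists of integers
-/

set_option autoImplicit false
set_option linter.unusedSectionVars false

namespace Pool.Agent.H692.RB

open Finset Filter Topology
open Pool.Agent.H692.KS
open Pool.Agent.H692.RT (forms forms_finite gen_of lv tl dot_tl tl_ne yes dot_yes noi dot_noi
  dot_noi_smul form_lv prob prob_eq eventually_sign)
open Pool.Agent.H692.RR (tf Diff of_not_diff)

variable {K n : ℕ}

theorem dot_mul_nat {ι : Type} [Fintype ι] (L : ι → ℝ) {w : ι → ℤ} {N : ℕ} {y : ι → ℝ}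
    (h : ∀ i, (w i : ℝ) = N * y i) : dot L (fun i => (w i : ℝ)) = N * dot L y := by
  unfold dot
  rw [mul_sum]
  refine sum_congr rfl fun e _ => ?_
  show L e * (w e : ℝ) = _
  rw [h e]
  ring

theorem yes_continuous (c : Fin (K + 1) → ℝ) (s : Tup (K + 1) n) :
    Continuous fun y : Var (K + 1) n → ℝ => yes c y s := by
  have h : Continuous fun y : Var (K + 1) n → ℝ => val c y s := val_continuous c s
  exact continuous_id.add ((h.div_const _).neg.smul continuous_const)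

theorem yes_rat {c : Fin (K + 1) → ℝ} (hcq : ∀ p, ∃ q : ℚ, (q : ℝ) = c p)
    (s : Tup (K + 1) n) (q : Var (K + 1) n → ℚ) : ∃ q' : Var (K + 1) n → ℚ,
      yes c (fun i => (q i : ℝ)) s = fun i => (q' i : ℝ) := by
  classical
  choose d hd using hcq
  refine ⟨fun i => q i + -((∑ p, d p * q (p, s p)) / d (Fin.last K)) *
    (if i = lv s then 1 else 0), ?_⟩
  funext i
  have h1 : yes c (fun i => (q i : ℝ)) s i = (q i : ℝ) +
      (-(val c (fun i => (q i : ℝ)) s / c (Fin.last K))) *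
        (Pi.single (lv s) (1 : ℝ) : Var (K + 1) n → ℝ) i := rfl
  rw [h1]
  have h2 : val c (fun i => (q i : ℝ)) s = ((∑ p, d p * q (p, s p) : ℚ) : ℝ) := by
    unfold KS.val
    push_cast
    exact sum_congr rfl fun p _ => by rw [hd p]
  rw [h2, ← hd, Pi.single_apply]
  push_cast
  split_ifs <;> simp

open Classical in
/-- the reduction to linear tests near a special input -/
theorem core_int {c : Fin (K + 1) → ℝ} (hc : ∀ p, c p ≠ 0)
    (hcq : ∀ p, ∃ q : ℚ, (q : ℝ) = c p) {κ' : Type} [Finite κ']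
    {E : κ' → Var (K + 1) n → ℝ} (hE : Indep c E) {Ω : Type} [Fintype Ω] (p : Ω → ℝ)
    (hp0 : ∀ ρ, 0 ≤ p ρ) (hp1 : ∑ ρ, p ρ = 1) (t : Ω → ATree (Var (K + 1) n)) {γ T : ℝ} {r : ℕ}
    (hno : ∀ w : Var (K + 1) n → ℤ, (∀ s, val c (fun v => (w v : ℝ)) s ≠ 0) →
      (∀ e, dot (E e) (fun v => (w v : ℝ)) ≠ 0) →
      (1 + γ) / 2 ≤ prob p (fun ρ => (t ρ).run w = false) ∧ (∀ ρ, (t ρ).rounds w ≤ r) ∧
        ∑ ρ, p ρ * (t ρ).tests w ≤ T)
    (hyes : ∀ w : Var (K + 1) n → ℤ, ∀ τ, val c (fun v => (w v : ℝ)) τ = 0 →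
      (∀ s, s ≠ τ → val c (fun v => (w v : ℝ)) s ≠ 0) →
      (∀ e, dot (E e) (fun v => (w v : ℝ)) ≠ 0) →
      (1 + γ) / 2 ≤ prob p (fun ρ => (t ρ).run w = true)) :
    ∃ (x : Var (K + 1) n → ℝ) (u : Mt K n → Var (K + 1) n → ℝ) (S : Set (Var (K + 1) n → ℝ))
      (ε : ℝ) (R : Ω → KS.LT (Var (K + 1) n)),
      Inst c x u S ∧ (∀ ρ, forms (R ρ) ⊆ S) ∧ (∀ ρ, ∀ L ∈ forms (R ρ), ∀ s, tl c s L ∈ S) ∧
      (∀ ρ M j, ∀ L ∈ forms (R ρ), (¬ ∃ a : ℝ, L = a • form c (tp M j)) →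
        SignType.sign (dot L (noi c (u M) ε (tp M j))) =
          SignType.sign (dot L (yes c (u M) (tp M j)))) ∧
      (∀ M j, γ ≤ prob p fun ρ =>
        Diff (R ρ) (noi c (u M) ε (tp M j)) (yes c (u M) (tp M j))) ∧
      (∀ M j, (∀ ρ, (R ρ).rounds (noi c (u M) ε (tp M j)) ≤ r) ∧
        ∑ ρ, p ρ * (R ρ).tests (noi c (u M) ε (tp M j)) ≤ T) ∧
      ∀ M, ∑ ρ, p ρ * (R ρ).tests (u M) ≤ T := by
  let R : Ω → KS.LT (Var (K + 1) n) := fun ρ => hom (t ρ)
  -- the forms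
  set FL : Set (Var (K + 1) n → ℝ) := (⋃ ρ, forms (R ρ)) ∪ (Set.range (form c) ∪ Set.range E)
    with hFL
  have hFLfin : FL.Finite := (Set.finite_iUnion fun ρ => forms_finite (R ρ)).union
    ((Set.finite_range _).union (Set.finite_range _))
  set FL' : Set (Var (K + 1) n → ℝ) := FL ∪ ⋃ s, tl c s '' FL with hFL'
  have hFLfin' : FL'.Finite := hFLfin.union (Set.finite_iUnion fun s => hFLfin.image _)
  have hmem : ∀ ρ, ∀ L ∈ forms (R ρ), L ∈ FL := fun ρ L hL => Or.inl (Set.mem_iUnion.2 ⟨ρ, hL⟩)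
  have hmemf : ∀ s, form c s ∈ FL := fun s => Or.inr (Or.inl ⟨s, rfl⟩)
  have hmemE : ∀ e, E e ∈ FL := fun e => Or.inr (Or.inr ⟨e, rfl⟩)
  have hmem' : ∀ L ∈ FL, L ∈ FL' := fun L hL => Or.inl hL
  have hmemtl : ∀ L ∈ FL, ∀ s, tl c s L ∈ FL' := fun L hL s =>
    Or.inr (Set.mem_iUnion.2 ⟨s, L, hL, rfl⟩)
  obtain ⟨x, u, hI⟩ := exists_inst hc hFLfin'
  have hune : ∀ (M : Mt K n), ∀ L ∈ FL', L ≠ 0 → dot L (u M) ≠ 0 :=
    fun M L hL h0 => inst_ne hI M hL h0
  have hzne : ∀ (M : Mt K n) s, ∀ L ∈ FL, (¬ ∃ a : ℝ, L = a • form c s) →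
      dot L (yes c (u M) s) ≠ 0 := by
    intro M s L hL h
    rw [dot_yes]
    exact hune M _ (hmemtl L hL s) (tl_ne h)
  obtain ⟨ε, hε1, hε⟩ : ∃ ε : ℝ, (∀ (M : Mt K n) s, ∀ L ∈ FL,
      (¬ ∃ a : ℝ, L = a • form c s) →
      SignType.sign (dot L (noi c (u M) ε s)) = SignType.sign (dot L (yes c (u M) s))) ∧
      0 < ε := by
    have h1 : ∀ᶠ ε in 𝓝[>] (0 : ℝ), ∀ (M : Mt K n) s, ∀ L ∈ FL,
        (¬ ∃ a : ℝ, L = a • form c s) →
        SignType.sign (dot L (noi c (u M) ε s)) = SignType.sign (dot L (yes c (u M) s)) := by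
      refine eventually_all.2 fun M => eventually_all.2 fun s => (eventually_all_finite hFLfin).2
        fun L hL => ?_
      by_cases h : ∃ a : ℝ, L = a • form c s
      · exact Eventually.of_forall fun ε h' => absurd h h'
      · filter_upwards [eventually_sign L (yes c (u M) s) (Pi.single (lv s) 1)
          (hzne M s L hL h)] with ε h2 _
        exact h2
    obtain ⟨ε, h2, h3⟩ := (h1.and self_mem_nhdsWithin).exists
    exact ⟨ε, h2, h3⟩
  have hyne : ∀ (M : Mt K n) s, ∀ L ∈ FL, L ≠ 0 → dot L (noi c (u M) ε s) ≠ 0 := by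
    intro M s L hL h0
    by_cases h : ∃ a : ℝ, L = a • form c s
    · obtain ⟨a, rfl⟩ := h
      rw [dot_noi_smul hc]
      have ha : a ≠ 0 := by
        rintro rfl
        rw [zero_smul] at h0
        exact h0 rfl
      exact mul_ne_zero hε.ne' (mul_ne_zero ha (hc _))
    · intro h1
      have h2 := hε1 M s L hL h
      rw [h1, sign_zero] at h2
      exact hzne M s L hL h (sign_eq_zero_iff.1 h2.symm)
  -- no-instances
  have hA : ∀ v : Var (K + 1) n → ℝ, (∀ L ∈ FL, L ≠ 0 → dot L v ≠ 0) →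
      (1 + γ) / 2 ≤ prob p (fun ρ => (R ρ).run v = false) ∧ (∀ ρ, (R ρ).rounds v ≤ r) ∧
        ∑ ρ, p ρ * (R ρ).tests v ≤ T := by
    intro v hvF
    obtain ⟨w, N, y, hN, hw, hs, h2⟩ := int_point (Ψ := id) continuous_id (v := v) rfl
      (fun q => ⟨q, rfl⟩) hFLfin t (fun ρ L hL => hmem ρ L hL)
    have hN0 : (0 : ℝ) < N := by exact_mod_cast hN
    have hwd : ∀ L ∈ FL, L ≠ 0 → dot L (fun i => (w i : ℝ)) ≠ 0 := by
      intro L hL h0
      rw [dot_mul_nat L hw]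
      refine mul_ne_zero hN0.ne' fun h1 => ?_
      have h3 := hs L hL (hvF L hL h0)
      have h4 : dot L (id y) = 0 := h1
      rw [h4, sign_zero] at h3
      exact hvF L hL h0 (sign_eq_zero_iff.1 h3.symm)
    have hG : ∀ ρ, (R ρ).Gen v := fun ρ => gen_of _ fun L hL h0 => hvF L (hmem ρ L hL) h0
    have h3 := hno w (fun s => by
        rw [← dot_form]
        exact hwd _ (hmemf s) (form_ne hc s))
      (fun e => hwd _ (hmemE e) (hE e).1)
    have e1 : (fun ρ => (R ρ).run v = false) = fun ρ => (t ρ).run w = false := by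
      funext ρ
      rw [(h2 ρ (hG ρ)).1]
    refine ⟨by rw [e1]; exact h3.1, fun ρ => ?_, ?_⟩
    · rw [← (h2 ρ (hG ρ)).2.1]
      exact h3.2.1 ρ
    · rw [sum_congr rfl fun ρ _ => by rw [← (h2 ρ (hG ρ)).2.2]]
      exact h3.2.2
  refine ⟨x, u, FL', ε, R, hI, fun ρ L hL => hmem' L (hmem ρ L hL),
    fun ρ L hL s => hmemtl L (hmem ρ L hL) s, fun ρ M j L hL h => hε1 M _ L (hmem ρ L hL) h, ?_,
    fun M j => (hA _ (hyne M (tp M j))).2,
    fun M => (hA (u M) fun L hL h0 => hune M L (hmem' L hL) h0).2.2⟩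
  intro M j
  set s := tp M j with hs
  have h1 := (hA _ (hyne M s)).1
  have hyy : yes c (yes c (u M) s) s = yes c (u M) s := by
    have h2 : val c (yes c (u M) s) s = 0 := by
      rw [← dot_form, dot_yes]
      have : tl c s (form c s) = 0 := by
        unfold tl
        rw [form_lv, div_self (hc _), one_smul, sub_self]
      rw [this]
      unfold dot
      simp
    have h3 : yes c (yes c (u M) s) s =
        yes c (u M) s + (-(val c (yes c (u M) s) s / c (Fin.last K))) • Pi.single (lv s) 1 := rfl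
    rw [h3, h2, zero_div, neg_zero, zero_smul, add_zero]
  obtain ⟨w, N, y, hN, hw, hss, h3⟩ := int_point (Ψ := fun y => yes c y s) (yes_continuous c s)
    (v := yes c (u M) s) hyy (yes_rat hcq s) hFLfin t (fun ρ L hL => hmem ρ L hL)
  have hN0 : (0 : ℝ) < N := by exact_mod_cast hN
  have hwd : ∀ L ∈ FL, (¬ ∃ a : ℝ, L = a • form c s) → dot L (fun i => (w i : ℝ)) ≠ 0 := by
    intro L hL h0
    rw [dot_mul_nat L hw]
    refine mul_ne_zero hN0.ne' fun h1 => ?_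
    have h4 := hss L hL (hzne M s L hL h0)
    have h5 : dot L ((fun y => yes c y s) y) = 0 := h1
    rw [h5, sign_zero] at h4
    exact hzne M s L hL h0 (sign_eq_zero_iff.1 h4.symm)
  have h4 := hyes w s (by
      rw [← dot_form, dot_mul_nat _ hw]
      have h5 : dot (form c s) (yes c y s) = 0 := by
        rw [dot_yes]
        have : tl c s (form c s) = 0 := by
          unfold tl
          rw [form_lv, div_self (hc _), one_smul, sub_self]
        rw [this]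
        unfold dot
        simp
      show (N : ℝ) * dot (form c s) (yes c y s) = 0
      rw [h5, mul_zero])
    (fun s' hs' => by
      rw [← dot_form]
      refine hwd _ (hmemf s') ?_
      rintro ⟨a, ha⟩
      exact hs' (form_inj hc ha))
    (fun e => by
      refine hwd _ (hmemE e) ?_
      rintro ⟨a, ha⟩
      exact (hE e).2 _ a ha)
  have h5 : ∀ ρ, (if (R ρ).run (noi c (u M) ε s) = false then p ρ else 0) +
      (if (t ρ).run w = true then p ρ else 0) ≤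
      p ρ + (if Diff (R ρ) (noi c (u M) ε s) (yes c (u M) s) then p ρ else 0) := by
    intro ρ
    have h0 := hp0 ρ
    by_cases hb : Diff (R ρ) (noi c (u M) ε s) (yes c (u M) s)
    · rw [if_pos hb]
      split_ifs <;> linarith
    · obtain ⟨hb1, hb2⟩ := of_not_diff (R ρ) (fun L hL h0 => hyne M s L (hmem ρ L hL) h0) hb
      have h8 : (t ρ).run w = (R ρ).run (yes c (u M) s) := (h3 ρ hb1).1
      rw [if_neg hb, h8, hb2]
      cases (R ρ).run (yes c (u M) s) <;> simp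
  have h6 := sum_le_sum fun ρ (_ : ρ ∈ (univ : Finset Ω)) => h5 ρ
  rw [sum_add_distrib, sum_add_distrib, hp1] at h6
  rw [prob_eq] at h1 h4
  rw [prob_eq]
  linarith

open Classical in
/-- bounded error, lists of integers -/
theorem bounded_int {c : Fin (K + 1) → ℝ} (hc : ∀ p, c p ≠ 0)
    (hcq : ∀ p, ∃ q : ℚ, (q : ℝ) = c p) {κ' : Type} [Finite κ']
    {E : κ' → Var (K + 1) n → ℝ} (hE : Indep c E) {Ω : Type} [Fintype Ω] (p : Ω → ℝ)
    (hp0 : ∀ ρ, 0 ≤ p ρ) (hp1 : ∑ ρ, p ρ = 1) (t : Ω → ATree (Var (K + 1) n)) {γ T : ℝ}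
    (hγ : 0 < γ) {k : ℕ}
    (hno : ∀ w : Var (K + 1) n → ℤ, (∀ s, val c (fun v => (w v : ℝ)) s ≠ 0) →
      (∀ e, dot (E e) (fun v => (w v : ℝ)) ≠ 0) →
      (1 + γ) / 2 ≤ prob p (fun ρ => (t ρ).run w = false) ∧ (∀ ρ, (t ρ).rounds w ≤ k + 1) ∧
        ∑ ρ, p ρ * (t ρ).tests w ≤ T)
    (hyes : ∀ w : Var (K + 1) n → ℤ, ∀ τ, val c (fun v => (w v : ℝ)) τ = 0 →
      (∀ s, s ≠ τ → val c (fun v => (w v : ℝ)) s ≠ 0) →
      (∀ e, dot (E e) (fun v => (w v : ℝ)) ≠ 0) →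
      (1 + γ) / 2 ≤ prob p (fun ρ => (t ρ).run w = true)) (hn : 1 ≤ n) :
    γ ≤ 1 ∧ γ * n ≤ T ∧ γ ^ (k + 3) * (n : ℝ) ^ (K + (k + 1)) ≤
      32 * Real.exp 1 * (2 * Real.exp 1 * T) ^ (k + 1) := by
  obtain ⟨x, u, S, ε, R, hI, hR, hRt, hε, hdet, hnoi, hcost⟩ := core_int hc hcq hE p hp0 hp1 t
    hno hyes
  refine count_main hc hI p hp0 hp1 R hR hγ (fun ρ M => univ.filter fun j =>
    Diff (R ρ) (noi c (u M) ε (tp M j)) (yes c (u M) (tp M j))) (fun ρ M j hj =>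
    lead_of_diff hc hI (hR ρ) (hRt ρ) (hε ρ M j) ((hnoi M j).1 ρ) (mem_filter.1 hj).2) ?_ hcost hn
  intro M j
  have h := hdet M j
  rw [prob_eq] at h
  refine h.trans (le_of_eq (sum_congr rfl fun ρ _ => ?_))
  simp only [mem_filter, mem_univ, true_and]

end Pool.Agent.H692.RB
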