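import Mathlib
import Pool.Agent.H692.RB.IntMain

/-!
# 3SUM for lists of integers
-/

set_option autoImplicit false
set_option linter.unusedSectionVars false

namespace Pool.Agent.H692.RB

open Finset Filter Topology
open Pool.Agent.H692.KS
open Pool.Agent.H692.RT (prob prob_eq c111 c111_ne val_c111)

variable {n : ℕ}

/-- three different places `a`, `b`, `c` with `w a + w b + w c = 0` -/
def SolZ (w : Fin 3 × Fin n → ℤ) (a b c : Fin 3 × Fin n) : Prop :=
  a ≠ b ∧ a ≠ c ∧ b ≠ c ∧ w a + w b + w c = 0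

/-- The family of linear decision trees `t ρ` with the probabilities `p ρ` finds out whether three of
the integers of a list have the sum zero, for the lists with at most one solution (up to the order):
lists of `3 n` different integers without solution are rejected with probability `(1 + γ) / 2`, in at
most `r` rounds and with at most `T` tests on average; lists of different integers with exactly one
solution are accepted with probability `(1 + γ) / 2`. -/
def SolvesZ {n : ℕ} {Ω : Type} [Fintype Ω] (p : Ω → ℝ) (t : Ω → ATree (Fin 3 × Fin n)) (γ T : ℝ)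
    (r : ℕ) : Prop :=
  ((∀ ρ, 0 ≤ p ρ) ∧ ∑ ρ, p ρ = 1) ∧
    (∀ w : Fin 3 × Fin n → ℤ, Function.Injective w → (∀ a b c, ¬ SolZ w a b c) →
      (1 + γ) / 2 ≤ prob p (fun ρ => (t ρ).run w = false) ∧ (∀ ρ, (t ρ).rounds w ≤ r) ∧
        ∑ ρ, p ρ * (t ρ).tests w ≤ T) ∧
    ∀ w : Fin 3 × Fin n → ℤ, Function.Injective w →
      (∃ a b c, SolZ w a b c ∧ ∀ a' b' c', SolZ w a' b' c' →
        ({a', b', c'} : Set (Fin 3 × Fin n)) = {a, b, c}) →
      (1 + γ) / 2 ≤ prob p (fun ρ => (t ρ).run w = true)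

/-- the coefficients `1` at `a` and `b` and `σ` at `c` -/
noncomputable def ev (σ : ℝ) (a b c : Fin 3 × Fin n) : Var (2 + 1) n → ℝ := fun v =>
  (if v = a then 1 else 0) + (if v = b then 1 else 0) + (if v = c then σ else 0)

theorem dot_ev (σ : ℝ) (a b c : Fin 3 × Fin n) (w : Var (2 + 1) n → ℝ) :
    dot (ev σ a b c) w = w a + w b + σ * w c := by
  unfold dot ev
  simp only [add_mul, sum_add_distrib, ite_mul, one_mul, zero_mul, sum_ite_eq', mem_univ, if_true]

/-- two different places, or three different places which are not in three different parts -/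
abbrev IdZ (n : ℕ) : Type :=
  {q : (Fin 3 × Fin n) × (Fin 3 × Fin n) // q.1 ≠ q.2} ⊕
  {q : (Fin 3 × Fin n) × (Fin 3 × Fin n) × (Fin 3 × Fin n) //
    (q.1 ≠ q.2.1 ∧ q.1 ≠ q.2.2 ∧ q.2.1 ≠ q.2.2) ∧
    ¬ (q.1.1 ≠ q.2.1.1 ∧ q.1.1 ≠ q.2.2.1 ∧ q.2.1.1 ≠ q.2.2.1)}

/-- the other forms -/
noncomputable def fz : IdZ n → Var (2 + 1) n → ℝ
  | .inl q => fun v => (if v = q.1.1 then 1 else 0) + (if v = q.1.2 then -1 else 0)
  | .inr q => ev 1 q.1.1 q.1.2.1 q.1.2.2

theorem dot_fz_inl (q : {q : (Fin 3 × Fin n) × (Fin 3 × Fin n) // q.1 ≠ q.2})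
    (w : Var (2 + 1) n → ℝ) : dot (fz (.inl q)) w = w q.1.1 - w q.1.2 := by
  unfold dot fz
  simp only [add_mul, sum_add_distrib, ite_mul, one_mul, zero_mul, neg_mul, sum_ite_eq', mem_univ,
    if_true]
  ring

theorem cover3 : ∀ x y z : Fin 3, (∀ p, p = x ∨ p = y ∨ p = z) → x ≠ y ∧ x ≠ z ∧ y ≠ z := by
  decide

theorem cover2 : ∀ x y : Fin 3, ∃ p, p ≠ x ∧ p ≠ y := by
  decide

theorem indep_fz : Indep c111 (fz : IdZ n → Var (2 + 1) n → ℝ) := by
  have hform : ∀ (s : Tup (2 + 1) n) (p : Fin 3), form c111 s (p, s p) ≠ 0 := by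
    intro s p
    have : form c111 s (p, s p) = c111 p := by
      unfold form
      simp
    rw [this]
    exact c111_ne p
  have key : ∀ (e : IdZ n), fz e ≠ 0 ∧ ∀ s : Tup (2 + 1) n, ∃ p : Fin 3, fz e (p, s p) = 0 := by
    rintro (⟨⟨a, b⟩, hab⟩ | ⟨⟨a, b, c⟩, ⟨h1, h2, h3⟩, h4⟩)
    · refine ⟨fun h => ?_, fun s => ?_⟩
      · have h5 := congrFun h a
        unfold fz at h5
        simp only [if_true, if_neg hab, Pi.zero_apply] at h5
        norm_num at h5
      · obtain ⟨p, hp1, hp2⟩ := cover2 a.1 b.1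
        refine ⟨p, ?_⟩
        unfold fz
        simp only
        rw [if_neg (fun h => hp1 (congrArg Prod.fst h)), if_neg (fun h => hp2 (congrArg Prod.fst h))]
        ring
    · simp only at h1 h2 h3 h4
      refine ⟨fun h => ?_, fun s => ?_⟩
      · have h5 := congrFun h a
        unfold fz ev at h5
        simp only [if_true, if_neg h1, if_neg h2, Pi.zero_apply] at h5
        norm_num at h5
      · by_contra hcon
        push Not at hcon
        apply h4
        refine cover3 a.1 b.1 c.1 fun p => ?_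
        by_contra hp
        push Not at hp
        apply hcon p
        unfold fz ev
        simp only
        rw [if_neg (fun h => hp.1 (congrArg Prod.fst h)),
          if_neg (fun h => hp.2.1 (congrArg Prod.fst h)),
          if_neg (fun h => hp.2.2 (congrArg Prod.fst h))]
        ring
  intro e
  obtain ⟨h1, h2⟩ := key e
  refine ⟨h1, fun s a h => ?_⟩
  obtain ⟨p, hp⟩ := h2 s
  have h3 := congrFun h (p, s p)
  rw [hp, Pi.smul_apply, smul_eq_mul] at h3
  have h4 : a = 0 := by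
    rcases mul_eq_zero.1 h3.symm with h | h
    · exact h
    · exact absurd h (hform s p)
  rw [h4, zero_smul] at h
  exact h1 h

theorem parts3 : ∀ x y z : Fin 3, x ≠ y → x ≠ z → y ≠ z →
    (x = 0 ∧ y = 1 ∧ z = 2) ∨ (x = 0 ∧ y = 2 ∧ z = 1) ∨ (x = 1 ∧ y = 0 ∧ z = 2) ∨
    (x = 1 ∧ y = 2 ∧ z = 0) ∨ (x = 2 ∧ y = 0 ∧ z = 1) ∨ (x = 2 ∧ y = 1 ∧ z = 0) := by
  decide

theorem sol_parts {w : Var (2 + 1) n → ℤ}
    (hE : ∀ e : IdZ n, dot (fz e) (fun v => (w v : ℝ)) ≠ 0) {a b c : Fin 3 × Fin n}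
    (h : SolZ w a b c) : ∃ i j k : Fin n,
      ({a, b, c} : Set (Fin 3 × Fin n)) = {(0, i), (1, j), (2, k)} ∧
      w (0, i) + w (1, j) + w (2, k) = 0 := by
  obtain ⟨h1, h2, h3, h4⟩ := h
  have h5 : a.1 ≠ b.1 ∧ a.1 ≠ c.1 ∧ b.1 ≠ c.1 := by
    by_contra hcon
    apply hE (.inr ⟨(a, b, c), ⟨h1, h2, h3⟩, hcon⟩)
    show dot (ev 1 a b c) _ = 0
    rw [dot_ev, one_mul]
    exact_mod_cast h4
  obtain ⟨x, i⟩ := a
  obtain ⟨y, j⟩ := b
  obtain ⟨z, k⟩ := c
  simp only at h5
  rcases parts3 x y z h5.1 h5.2.1 h5.2.2 with h | h | h | h | h | h <;>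
    obtain ⟨rfl, rfl, rfl⟩ := h
  · exact ⟨i, j, k, rfl, by omega⟩
  · refine ⟨i, k, j, ?_, by omega⟩
    ext v
    simp only [Set.mem_insert_iff, Set.mem_singleton_iff]
    tauto
  · refine ⟨j, i, k, ?_, by omega⟩
    ext v
    simp only [Set.mem_insert_iff, Set.mem_singleton_iff]
    tauto
  · refine ⟨k, i, j, ?_, by omega⟩
    ext v
    simp only [Set.mem_insert_iff, Set.mem_singleton_iff]
    tauto
  · refine ⟨j, k, i, ?_, by omega⟩
    ext v
    simp only [Set.mem_insert_iff, Set.mem_singleton_iff]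
    tauto
  · refine ⟨k, j, i, ?_, by omega⟩
    ext v
    simp only [Set.mem_insert_iff, Set.mem_singleton_iff]
    tauto

theorem solves_z {Ω : Type} [Fintype Ω] {p : Ω → ℝ} {t : Ω → ATree (Fin 3 × Fin n)} {γ T : ℝ}
    (hγ : 0 < γ) {r : ℕ} (hr : 1 ≤ r) (hn : 1 ≤ n) (h : SolvesZ p t γ T r) : Bound 2 γ r n T := by
  obtain ⟨⟨hp0, hp1⟩, hno, hyes⟩ := h
  obtain ⟨k, rfl⟩ : ∃ k, r = k + 1 := ⟨r - 1, by omega⟩
  have hn0 : (0 : ℝ) < n := by exact_mod_cast hn
  have hinj : ∀ w : Var (2 + 1) n → ℤ, (∀ e : IdZ n, dot (fz e) (fun v => (w v : ℝ)) ≠ 0) →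
      Function.Injective w := by
    intro w hE a b hab
    by_contra hne
    apply hE (.inl ⟨(a, b), hne⟩)
    rw [dot_fz_inl]
    simp only
    rw [hab, sub_self]
  have hv : ∀ (w : Var (2 + 1) n → ℤ) (i j k : Fin n), w (0, i) + w (1, j) + w (2, k) = 0 ↔
      KS.val c111 (fun v => (w v : ℝ)) ![i, j, k] = 0 := by
    intro w i j k
    rw [val_c111]
    show _ ↔ (w (0, i) : ℝ) + (w (1, j) : ℝ) + (w (2, k) : ℝ) = 0
    exact_mod_cast Iff.rfl
  obtain ⟨h2, h3, h4⟩ := bounded_int c111_ne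
    (fun p => ⟨1, by
      rw [Rat.cast_one]
      fin_cases p <;> rfl⟩)
    indep_fz p hp0 hp1 t hγ (k := k) (T := T)
    (fun w hw hE => hno w (hinj w hE) fun a b c hs => by
      obtain ⟨i, j, l, -, h5⟩ := sol_parts hE hs
      exact hw _ ((hv w i j l).1 h5))
    (fun w τ hτ hw hE => by
      have hτ' : (![τ 0, τ 1, τ 2] : Tup (2 + 1) n) = τ := by
        funext q
        fin_cases q <;> rfl
      refine hyes w (hinj w hE) ⟨(0, τ 0), (1, τ 1), (2, τ 2), ⟨by simp, by simp, by simp, ?_⟩, ?_⟩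
      · refine (hv w _ _ _).2 ?_
        rw [hτ']
        exact hτ
      · intro a' b' c' hs
        obtain ⟨i, j, l, h5, h6⟩ := sol_parts hE hs
        rw [h5]
        have h7 : (![i, j, l] : Tup (2 + 1) n) = τ := by
          by_contra hne
          exact hw _ hne ((hv w i j l).1 h6)
        rw [← h7]
        rfl)
    hn
  exact bound_of hγ h2 (lt_of_lt_of_le (mul_pos hγ hn0) h3) h4

end Pool.Agent.H692.RB
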