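import Mathlib
import Pool.Agent.H692.RB.IntSum

/-!
# 3SUM for lists of integers: `a + b = c`
-/

set_option autoImplicit false
set_option linter.unusedSectionVars false

namespace Pool.Agent.H692.RB

open Finset Filter Topology
open Pool.Agent.H692.KS
open Pool.Agent.H692.RT (prob prob_eq)

variable {n : ℕ}

/-- three different places `a`, `b`, `c` with `w a + w b = w c` -/
def SolD (w : Fin 3 × Fin n → ℤ) (a b c : Fin 3 × Fin n) : Prop :=
  a ≠ b ∧ a ≠ c ∧ b ≠ c ∧ w a + w b = w c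

/-- The family of linear decision trees `t ρ` with the probabilities `p ρ` finds out whether one of
the integers of a list is the sum of two others, for the lists with at most one solution (up to the
exchange of the summands): lists of `3 n` different integers without solution are rejected with
probability `(1 + γ) / 2`, in at most `r` rounds and with at most `T` tests on average; lists of
different integers with exactly one solution are accepted with probability `(1 + γ) / 2`. -/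
def SolvesD {n : ℕ} {Ω : Type} [Fintype Ω] (p : Ω → ℝ) (t : Ω → ATree (Fin 3 × Fin n)) (γ T : ℝ)
    (r : ℕ) : Prop :=
  ((∀ ρ, 0 ≤ p ρ) ∧ ∑ ρ, p ρ = 1) ∧
    (∀ w : Fin 3 × Fin n → ℤ, Function.Injective w → (∀ a b c, ¬ SolD w a b c) →
      (1 + γ) / 2 ≤ prob p (fun ρ => (t ρ).run w = false) ∧ (∀ ρ, (t ρ).rounds w ≤ r) ∧
        ∑ ρ, p ρ * (t ρ).tests w ≤ T) ∧
    ∀ w : Fin 3 × Fin n → ℤ, Function.Injective w →
      (∃ a b c, SolD w a b c ∧ ∀ a' b' c', SolD w a' b' c' →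
        c' = c ∧ (a' = a ∧ b' = b ∨ a' = b ∧ b' = a)) →
      (1 + γ) / 2 ≤ prob p (fun ρ => (t ρ).run w = true)

/-- two different places, or three different places with other parts than those of `c3` -/
abbrev IdD (n : ℕ) : Type :=
  {q : (Fin 3 × Fin n) × (Fin 3 × Fin n) // q.1 ≠ q.2} ⊕
  {q : (Fin 3 × Fin n) × (Fin 3 × Fin n) × (Fin 3 × Fin n) //
    (q.1 ≠ q.2.1 ∧ q.1 ≠ q.2.2 ∧ q.2.1 ≠ q.2.2) ∧
    ¬ ((q.1.1 = 0 ∧ q.2.1.1 = 1 ∧ q.2.2.1 = 2) ∨ (q.1.1 = 1 ∧ q.2.1.1 = 0 ∧ q.2.2.1 = 2))}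

/-- the other forms -/
noncomputable def fd : IdD n → Var (2 + 1) n → ℝ
  | .inl q => fun v => (if v = q.1.1 then 1 else 0) + (if v = q.1.2 then -1 else 0)
  | .inr q => ev (-1) q.1.1 q.1.2.1 q.1.2.2

theorem dot_fd_inl (q : {q : (Fin 3 × Fin n) × (Fin 3 × Fin n) // q.1 ≠ q.2})
    (w : Var (2 + 1) n → ℝ) : dot (fd (.inl q)) w = w q.1.1 - w q.1.2 := by
  unfold dot fd
  simp only [add_mul, sum_add_distrib, ite_mul, one_mul, zero_mul, neg_mul, sum_ite_eq', mem_univ,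
    if_true]
  ring

theorem form_c3 (s : Tup (2 + 1) n) (p : Fin 3) : form c3 s (p, s p) = c3 p := by
  unfold form
  simp

theorem indep_fd : Indep c3 (fd : IdD n → Var (2 + 1) n → ℝ) := by
  rintro (⟨⟨a, b⟩, hab⟩ | ⟨⟨a, b, c⟩, ⟨h1, h2, h3⟩, h4⟩)
  · have hne : fd (.inl ⟨(a, b), hab⟩) ≠ 0 := by
      intro h
      have h5 := congrFun h a
      unfold fd at h5
      simp only [if_true, if_neg hab, Pi.zero_apply] at h5
      norm_num at h5
    refine ⟨hne, fun s x h => ?_⟩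
    obtain ⟨p, hp1, hp2⟩ := cover2 a.1 b.1
    have h3 := congrFun h (p, s p)
    have h4 : fd (.inl ⟨(a, b), hab⟩) (p, s p) = 0 := by
      unfold fd
      simp only
      rw [if_neg (fun h => hp1 (congrArg Prod.fst h)), if_neg (fun h => hp2 (congrArg Prod.fst h))]
      ring
    rw [h4, Pi.smul_apply, smul_eq_mul, form_c3] at h3
    have h5 : x = 0 := by
      rcases mul_eq_zero.1 h3.symm with h | h
      · exact h
      · exact absurd h (c3_ne p)
    rw [h5, zero_smul] at h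
    exact hne h
  · simp only at h1 h2 h3 h4
    have hne : fd (.inr ⟨(a, b, c), ⟨h1, h2, h3⟩, h4⟩) ≠ 0 := by
      intro h
      have h5 := congrFun h a
      unfold fd ev at h5
      simp only [if_true, if_neg h1, if_neg h2, Pi.zero_apply] at h5
      norm_num at h5
    refine ⟨hne, fun s x h => ?_⟩
    have hx : x ≠ 0 := by
      rintro rfl
      rw [zero_smul] at h
      exact hne h
    have hp : ∀ p : Fin 3, ev (-1) a b c (p, s p) = x * c3 p := by
      intro p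
      have h5 := congrFun h (p, s p)
      rw [Pi.smul_apply, smul_eq_mul, form_c3] at h5
      exact h5
    have hcov : a.1 ≠ b.1 ∧ a.1 ≠ c.1 ∧ b.1 ≠ c.1 := by
      refine cover3 a.1 b.1 c.1 fun p => ?_
      by_contra hcon
      push Not at hcon
      have h5 := hp p
      unfold ev at h5
      rw [if_neg (fun h => hcon.1 (congrArg Prod.fst h)),
        if_neg (fun h => hcon.2.1 (congrArg Prod.fst h)),
        if_neg (fun h => hcon.2.2 (congrArg Prod.fst h))] at h5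
      exact mul_ne_zero hx (c3_ne p) (by linarith)
    have e0 := hp 0
    have e1 := hp 1
    obtain ⟨y₁, i⟩ := a
    obtain ⟨y₂, j⟩ := b
    obtain ⟨y₃, k⟩ := c
    simp only at hcov h4
    unfold ev c3 at e0 e1
    rcases parts3 y₁ y₂ y₃ hcov.1 hcov.2.1 hcov.2.2 with h | h | h | h | h | h <;>
      obtain ⟨rfl, rfl, rfl⟩ := h
    · exact h4 (Or.inl ⟨rfl, rfl, rfl⟩)
    · simp at e0 e1
      rcases lt_or_gt_of_ne hx with h | h <;> split_ifs at e0 e1 <;> linarith
    · exact h4 (Or.inr ⟨rfl, rfl, rfl⟩)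
    · simp at e0 e1
      rcases lt_or_gt_of_ne hx with h | h <;> split_ifs at e0 e1 <;> linarith
    · simp at e0 e1
      rcases lt_or_gt_of_ne hx with h | h <;> split_ifs at e0 e1 <;> linarith
    · simp at e0 e1
      rcases lt_or_gt_of_ne hx with h | h <;> split_ifs at e0 e1 <;> linarith

theorem solD_parts {w : Var (2 + 1) n → ℤ}
    (hE : ∀ e : IdD n, dot (fd e) (fun v => (w v : ℝ)) ≠ 0) {a b c : Fin 3 × Fin n}
    (h : SolD w a b c) : ∃ i j k : Fin n, c = (2, k) ∧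
      ((a = (0, i) ∧ b = (1, j)) ∨ (a = (1, j) ∧ b = (0, i))) ∧
      w (0, i) + w (1, j) = w (2, k) := by
  obtain ⟨h1, h2, h3, h4⟩ := h
  have h5 : (a.1 = 0 ∧ b.1 = 1 ∧ c.1 = 2) ∨ (a.1 = 1 ∧ b.1 = 0 ∧ c.1 = 2) := by
    by_contra hcon
    apply hE (.inr ⟨(a, b, c), ⟨h1, h2, h3⟩, hcon⟩)
    show dot (ev (-1) a b c) _ = 0
    rw [dot_ev]
    have h6 : (w a : ℝ) + (w b : ℝ) = (w c : ℝ) := by exact_mod_cast h4
    linarith
  obtain ⟨x, i⟩ := a
  obtain ⟨y, j⟩ := b
  obtain ⟨z, k⟩ := c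
  simp only at h5
  rcases h5 with ⟨rfl, rfl, rfl⟩ | ⟨rfl, rfl, rfl⟩
  · exact ⟨i, j, k, rfl, Or.inl ⟨rfl, rfl⟩, h4⟩
  · exact ⟨j, i, k, rfl, Or.inr ⟨rfl, rfl⟩, by rw [add_comm]; exact h4⟩

theorem solves_d {Ω : Type} [Fintype Ω] {p : Ω → ℝ} {t : Ω → ATree (Fin 3 × Fin n)} {γ T : ℝ}
    (hγ : 0 < γ) {r : ℕ} (hr : 1 ≤ r) (hn : 1 ≤ n) (h : SolvesD p t γ T r) : Bound 2 γ r n T := by
  obtain ⟨⟨hp0, hp1⟩, hno, hyes⟩ := h
  obtain ⟨k, rfl⟩ : ∃ k, r = k + 1 := ⟨r - 1, by omega⟩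
  have hn0 : (0 : ℝ) < n := by exact_mod_cast hn
  have hinj : ∀ w : Var (2 + 1) n → ℤ, (∀ e : IdD n, dot (fd e) (fun v => (w v : ℝ)) ≠ 0) →
      Function.Injective w := by
    intro w hE a b hab
    by_contra hne
    apply hE (.inl ⟨(a, b), hne⟩)
    rw [dot_fd_inl]
    simp only
    rw [hab, sub_self]
  have hv : ∀ (w : Var (2 + 1) n → ℤ) (i j k : Fin n), w (0, i) + w (1, j) = w (2, k) ↔
      KS.val c3 (fun v => (w v : ℝ)) ![i, j, k] = 0 := by
    intro w i j k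
    rw [val_c3]
    show _ ↔ (w (0, i) : ℝ) + (w (1, j) : ℝ) - (w (2, k) : ℝ) = 0
    rw [sub_eq_zero]
    exact_mod_cast Iff.rfl
  obtain ⟨h2, h3, h4⟩ := bounded_int c3_ne
    (fun p => ⟨(![1, 1, -1] : Fin 3 → ℚ) p, by fin_cases p <;> simp [c3]⟩)
    indep_fd p hp0 hp1 t hγ (k := k) (T := T)
    (fun w hw hE => hno w (hinj w hE) fun a b c hs => by
      obtain ⟨i, j, l, -, -, h5⟩ := solD_parts hE hs
      exact hw _ ((hv w i j l).1 h5))
    (fun w τ hτ hw hE => by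
      have hτ' : (![τ 0, τ 1, τ 2] : Tup (2 + 1) n) = τ := by
        funext q
        fin_cases q <;> rfl
      refine hyes w (hinj w hE) ⟨(0, τ 0), (1, τ 1), (2, τ 2), ⟨by simp, by simp, by simp, ?_⟩, ?_⟩
      · refine (hv w _ _ _).2 ?_
        rw [hτ']
        exact hτ
      · intro a' b' c' hs
        obtain ⟨i, j, l, h5, h6, h8⟩ := solD_parts hE hs
        have h7 : (![i, j, l] : Tup (2 + 1) n) = τ := by
          by_contra hne
          exact hw _ hne ((hv w i j l).1 h8)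
        have e0 : i = τ 0 := by rw [← h7]; rfl
        have e1 : j = τ 1 := by rw [← h7]; rfl
        have e2 : l = τ 2 := by rw [← h7]; rfl
        rw [h5, ← e0, ← e1, ← e2]
        exact ⟨rfl, h6⟩)
    hn
  exact bound_of hγ h2 (lt_of_lt_of_le (mul_pos hγ hn0) h3) h4

end Pool.Agent.H692.RB
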