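import Mathlib
import Pool.Agent.H692.RB.Final

/-!
# A given sum
-/

set_option autoImplicit false
set_option linter.unusedSectionVars false

namespace Pool.Agent.H692.RB

open Finset Filter Topology
open Pool.Agent.H692.KS
open Pool.Agent.H692.RT (prob prob_eq c111 c111_ne val_c111)

section

variable {ι : Type} [Fintype ι] {P : Type} [TopologicalSpace P]

theorem shallow_shift (d : ι → ℝ) {pot : P → ι → ℝ} {f : (ι → ℝ) → ℤ}
    (h : Shallow (fun x => pot x + d) f) : Shallow pot fun w => f (w + d) := by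
  refine h.mono fun x hx => ?_
  have h1 : Tendsto (fun w : ι → ℝ => w + d) (𝓝 (pot x)) (𝓝 (pot x + d)) :=
    (continuous_id.add continuous_const).tendsto (pot x)
  exact h1.eventually hx

theorem regular_shift (d : ι → ℝ) {pot : P → ι → ℝ} {g : (ι → ℝ) → ℝ}
    (h : Regular (fun x => pot x + d) g) : Regular pot fun w => g (w + d) := by
  filter_upwards [h] with x hx
  obtain ⟨h1, h2⟩ := hx
  have h3 : HasFDerivAt (fun w : ι → ℝ => g (w + d)) (fderiv ℝ g (pot x + d)) (pot x) := by
    have h4 : HasFDerivAt (fun w : ι → ℝ => w + d) (ContinuousLinearMap.id ℝ (ι → ℝ)) (pot x) :=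
      (hasFDerivAt_id (pot x)).add_const d
    have h5 := HasFDerivAt.comp (pot x) (h1.hasFDerivAt : HasFDerivAt g _ (pot x + d)) h4
    rwa [ContinuousLinearMap.comp_id] at h5
  refine ⟨h3.differentiableAt, ?_⟩
  rw [h3.fderiv]
  exact h2

/-- the tree for the shifted input -/
noncomputable def mapS (d : ι → ℝ) {pot : P → ι → ℝ} {β : Type} :
    RTree (fun x => pot x + d) β → RTree pot β
  | .leaf b => .leaf b
  | .free f hf next => .free (fun w => f (w + d)) (shallow_shift d hf) fun a => mapS d (next a)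
  | .round q g hg next => .round q (fun i w => g i (w + d)) (fun i => regular_shift d (hg i))
      fun a => mapS d (next a)

theorem mapS_spec (d : ι → ℝ) {pot : P → ι → ℝ} {β : Type} (t : RTree (fun x => pot x + d) β)
    (w : ι → ℝ) :
    (mapS d t).run w = t.run (w + d) ∧ (mapS d t).rounds w = t.rounds (w + d) ∧
      (mapS d t).tests w = t.tests (w + d) := by
  induction t with
  | leaf b => exact ⟨rfl, rfl, rfl⟩
  | free f hf next ih => exact ih _
  | round q g hg next ih =>
    have h := ih fun i => SignType.sign (g i (w + d))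
    refine ⟨h.1, ?_, ?_⟩
    · show (mapS d (next _)).rounds w + 1 = (next _).rounds (w + d) + 1
      rw [h.2.1]
    · show (mapS d (next _)).tests w + q = (next _).tests (w + d) + q
      rw [h.2.2]

end

variable {n : ℕ}

/-- `x` in the first part -/
def sh (n : ℕ) (x : ℝ) : Fin 3 × Fin n → ℝ := fun v => if v.1 = 0 then x else 0

/-- the special inputs: three constant lists with the sum `x` -/
noncomputable def potX {n : ℕ} (x : ℝ) (y : Fin 3 → ℝ) : Fin 3 × Fin n → ℝ :=
  (pot c111 y : Var (2 + 1) n → ℝ) + sh n x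

/-- The family of trees `t ρ` with the probabilities `p ρ` finds out whether `x` is a sum of one element
of each of three lists of `n` different real numbers (the parts `0`, `1`, `2` of the input `w`), if
there is at most one such sum. If there is none then the answer is no with probability
`(1 + γ) / 2`, after at most `r` rounds and at most `T` tests on average; if there is exactly one then
the answer is yes with probability `(1 + γ) / 2`. -/
def SolvesX {n : ℕ} (x : ℝ) {Ω : Type} [Fintype Ω] (p : Ω → ℝ)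
    (t : Ω → RTree (potX x : (Fin 3 → ℝ) → Fin 3 × Fin n → ℝ) Bool) (γ T : ℝ) (r : ℕ) : Prop :=
  ((∀ ρ, 0 ≤ p ρ) ∧ ∑ ρ, p ρ = 1) ∧
    (∀ w : Fin 3 × Fin n → ℝ, (∀ q, Function.Injective fun i => w (q, i)) →
      (∀ i j k, w (0, i) + w (1, j) + w (2, k) ≠ x) →
      (1 + γ) / 2 ≤ prob p (fun ρ => (t ρ).run w = false) ∧ (∀ ρ, (t ρ).rounds w ≤ r) ∧
        ∑ ρ, p ρ * (t ρ).tests w ≤ T) ∧
    ∀ w : Fin 3 × Fin n → ℝ, (∀ q, Function.Injective fun i => w (q, i)) →
      (∃ a : Fin n × Fin n × Fin n, w (0, a.1) + w (1, a.2.1) + w (2, a.2.2) = x ∧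
        ∀ b : Fin n × Fin n × Fin n, b ≠ a → w (0, b.1) + w (1, b.2.1) + w (2, b.2.2) ≠ x) →
      (1 + γ) / 2 ≤ prob p (fun ρ => (t ρ).run w = true)

theorem solves_x {x : ℝ} {Ω : Type} [Fintype Ω] {p : Ω → ℝ}
    {t : Ω → RTree (potX x : (Fin 3 → ℝ) → Fin 3 × Fin n → ℝ) Bool} {γ T : ℝ} (hγ : 0 < γ) {r : ℕ}
    (hr : 1 ≤ r) (hn : 1 ≤ n) (h : SolvesX x p t γ T r) : Bound 2 γ r n T := by
  obtain ⟨⟨hp0, hp1⟩, hno, hyes⟩ := h
  have h0 : ∀ (w : Var (2 + 1) n → ℝ) (i j k : Fin n),
      (w + sh n x) (0, i) + (w + sh n x) (1, j) + (w + sh n x) (2, k) = x ↔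
        KS.val c111 w ![i, j, k] = 0 := by
    intro w i j k
    have e1 : sh n x (0, i) = x := if_pos rfl
    have e2 : sh n x (1, j) = 0 := if_neg (show ¬ (1 : Fin 3) = 0 by decide)
    have e3 : sh n x (2, k) = 0 := if_neg (show ¬ (2 : Fin 3) = 0 by decide)
    rw [val_c111, Pi.add_apply, Pi.add_apply, Pi.add_apply, e1, e2, e3]
    show _ ↔ w (0, i) + w (1, j) + w (2, k) = 0
    constructor <;> intro h <;> linarith
  have hinj : ∀ w : Var (2 + 1) n → ℝ, (∀ e : Pr 2 n, dot (dif e) w ≠ 0) →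
      ∀ q, Function.Injective fun i => (w + sh n x) (q, i) := by
    intro w hw q i j hij
    by_contra hne
    have h3 := hw ⟨((q, i), (q, j)), by simpa using hne, rfl⟩
    rw [dot_dif] at h3
    apply h3
    have h4 : w (q, i) + sh n x (q, i) = w (q, j) + sh n x (q, j) := hij
    have h5 : sh n x (q, i) = sh n x (q, j) := rfl
    show w (q, i) - w (q, j) = 0
    linarith
  refine headline hγ hr hn c111_ne (indep_dif c111) (pot_continuous c111) (val_pot c111_ne)
    (dif_pot c111) isOpen_univ (y₀ := 0) (Set.mem_univ _) id p hp0 hp1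
    (fun ρ => mapS (sh n x) (t ρ)) ?_ ?_
  · intro w _ hv hd
    have h1 := hno (w + sh n x) (hinj w hd) fun i j k h => hv _ ((h0 w i j k).1 h)
    refine ⟨?_, fun ρ => ?_, ?_⟩
    · have e1 : (fun ρ => id ((mapS (sh n x) (t ρ)).run w) = false) =
          fun ρ => (t ρ).run (w + sh n x) = false := by
        funext ρ
        exact congrArg (· = false) (mapS_spec (sh n x) (t ρ) w).1
      rw [e1]
      exact h1.1
    · rw [(mapS_spec (sh n x) (t ρ) w).2.1]
      exact h1.2.1 ρ
    · rw [sum_congr rfl fun ρ _ => by rw [(mapS_spec (sh n x) (t ρ) w).2.2]]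
      exact h1.2.2
  · intro w _ τ hτ hv hd
    have hτ' : (![τ 0, τ 1, τ 2] : Tup (2 + 1) n) = τ := by
      funext q
      fin_cases q <;> rfl
    have h1 := hyes (w + sh n x) (hinj w hd) ⟨(τ 0, τ 1, τ 2), (h0 w _ _ _).2 (by
      rw [hτ']
      exact hτ), fun b hb h => hv ![b.1, b.2.1, b.2.2] (fun h2 => hb ?_) ((h0 w _ _ _).1 h)⟩
    · have e1 : (fun ρ => id ((mapS (sh n x) (t ρ)).run w) = true) =
          fun ρ => (t ρ).run (w + sh n x) = true := by
        funext ρ
        exact congrArg (· = true) (mapS_spec (sh n x) (t ρ) w).1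
      rw [e1]
      exact h1
    · rw [← h2]
      rfl

/-- linearly many tests -/
theorem linear_tests {γ : ℝ} {r n : ℕ} (hn : 1 ≤ n) {T C : ℝ} (h : Bound 2 γ r n T) (hT0 : 0 ≤ T)
    (hT : T ≤ C * n) : γ ^ (r + 2) * (n : ℝ) ^ 2 ≤ 87 * (6 * C) ^ r := by
  have hn0 : (0 : ℝ) < n := by exact_mod_cast hn
  refine le_of_mul_le_mul_right ?_ (pow_pos hn0 r)
  calc γ ^ (r + 2) * (n : ℝ) ^ 2 * (n : ℝ) ^ r = γ ^ (r + 2) * (n : ℝ) ^ (2 + r) := by
        rw [mul_assoc, ← pow_add]
    _ ≤ 87 * (6 * T) ^ r := h.1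
    _ ≤ 87 * (6 * (C * n)) ^ r :=
        mul_le_mul_of_nonneg_left (pow_le_pow_left₀ (by positivity) (by linarith) _) (by norm_num)
    _ = 87 * (6 * C) ^ r * (n : ℝ) ^ r := by
        rw [mul_assoc, ← mul_pow]
        congr 2
        ring

end Pool.Agent.H692.RB
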