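import Mathlib
import Pool.Agent.H692.RB.Main

/-!
# Randomized trees with few rounds which determine the signs of all forms
-/

set_option autoImplicit false
set_option linter.unusedSectionVars false

namespace Pool.Agent.H692.RB

open Finset Filter Topology
open Pool.Agent.H692.KS
open Pool.Agent.H692.RT (forms forms_finite gen_of lv tl dot_tl tl_ne yes dot_yes noi dot_noi
  dot_noi_smul form_lv prob prob_eq eventually_sign)
open Pool.Agent.H692.RR (tf Diff of_not_diff)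

section

variable {ι : Type} [Fintype ι] {P : Type} [TopologicalSpace P] {pot : P → ι → ℝ}

theorem red_diff {β : Type} (φ φ' : β → Bool) (t : RTree pot β) (x : P) {y z : ι → ℝ}
    (h : Diff (red φ t x) y z) : Diff (red φ' t x) y z := by
  induction t with
  | leaf b => exact h
  | free f hf next ih => exact ih _ h
  | round q g hg next ih =>
    rcases h with h | h
    · exact Or.inl h
    · exact Or.inr (ih _ h)

theorem red_gen {β : Type} (φ φ' : β → Bool) (t : RTree pot β) (x : P) {u : ι → ℝ}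
    (h : (red φ t x).Gen u) : (red φ' t x).Gen u := by
  induction t with
  | leaf b => trivial
  | free f hf next ih => exact ih _ h
  | round q g hg next ih => exact ⟨h.1, ih _ h.2⟩

theorem red_forms {β : Type} (φ φ' : β → Bool) (t : RTree pot β) (x : P) :
    forms (red φ t x) = forms (red φ' t x) := by
  induction t with
  | leaf b => rfl
  | free f hf next ih => exact ih _
  | round q g hg next ih =>
    show Set.range _ ∪ ⋃ a, forms (red φ (next a) x) = Set.range _ ∪ ⋃ a, forms (red φ' (next a) x)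
    congr 1
    exact Set.iUnion_congr fun a => ih a

end

variable {K n : ℕ}

open Classical in
theorem core_sort {c : Fin (K + 1) → ℝ} (hc : ∀ p, c p ≠ 0) {κ' : Type}
    [Finite κ'] {E : κ' → Var (K + 1) n → ℝ} (hE : Indep c E) {P : Type} [TopologicalSpace P]
    [BaireSpace P]
    {pot : P → Var (K + 1) n → ℝ} (hpot : Continuous pot) (hval : ∀ y s, val c (pot y) s = 0)
    (hEpot : ∀ y e, dot (E e) (pot y) = 0)
    {W : Set (Var (K + 1) n → ℝ)} (hW : IsOpen W) {y₀ : P} (hy₀ : pot y₀ ∈ W)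
    {β : Type} (φ : Tup (K + 1) n → β → Bool) {Ω : Type} [Fintype Ω] (p : Ω → ℝ)
    (hp0 : ∀ ρ, 0 ≤ p ρ) (hp1 : ∑ ρ, p ρ = 1) (t : Ω → RTree pot β) {γ T : ℝ} {r : ℕ}
    (hno : ∀ w ∈ W, (∀ s, val c w s ≠ 0) → (∀ e, dot (E e) w ≠ 0) →
      (∀ s, (1 + γ) / 2 ≤ prob p (fun ρ => φ s ((t ρ).run w) = decide (0 < val c w s))) ∧
        (∀ ρ, (t ρ).rounds w ≤ r) ∧ ∑ ρ, p ρ * (t ρ).tests w ≤ T) :
    ∃ (x : Var (K + 1) n → ℝ) (u : Mt K n → Var (K + 1) n → ℝ) (S : Set (Var (K + 1) n → ℝ))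
      (ε : ℝ) (R : Ω → KS.LT (Var (K + 1) n)),
      Inst c x u S ∧ (∀ ρ, forms (R ρ) ⊆ S) ∧ (∀ ρ, ∀ L ∈ forms (R ρ), ∀ s, tl c s L ∈ S) ∧
      (∀ ρ M j, ∀ L ∈ forms (R ρ), (¬ ∃ a : ℝ, L = a • form c (tp M j)) →
        SignType.sign (dot L (noi c (u M) ε (tp M j))) =
          SignType.sign (dot L (yes c (u M) (tp M j))) ∧
        SignType.sign (dot L (noi c (u M) (-ε) (tp M j))) =
          SignType.sign (dot L (yes c (u M) (tp M j)))) ∧
      (∀ M j, γ ≤ prob p fun ρ =>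
        Diff (R ρ) (noi c (u M) ε (tp M j)) (noi c (u M) (-ε) (tp M j))) ∧
      (∀ M j ρ, (R ρ).rounds (noi c (u M) ε (tp M j)) ≤ r) ∧
      ∀ M, ∑ ρ, p ρ * (R ρ).tests (u M) ≤ T := by
  -- the generic special input
  obtain ⟨x₀, hxW, hgood⟩ : ∃ x₀, pot x₀ ∈ W ∧ ∀ ρ, (∀ s, Good (φ s) (t ρ) x₀) ∧
      Good (fun _ => false) (t ρ) x₀ := by
    have hd : Dense {x | ∀ ρ, (∀ s, Good (φ s) (t ρ) x) ∧ Good (fun _ => false) (t ρ) x} :=
      dense_of_mem_residual (eventually_all.2 fun ρ =>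
        (eventually_all.2 fun s => good hpot (φ s) (t ρ)).and (good hpot (fun _ => false) (t ρ)))
    obtain ⟨x₀, h1, h2⟩ := hd.inter_open_nonempty (pot ⁻¹' W) (hW.preimage hpot) ⟨y₀, hy₀⟩
    exact ⟨x₀, h1, h2⟩
  let R : Ω → KS.LT (Var (K + 1) n) := fun ρ => red (fun _ => false) (t ρ) x₀
  have hev : ∀ v : Var (K + 1) n → ℝ, ∃ ε : ℝ, 0 < ε ∧ pot x₀ + ε • v ∈ W ∧
      ∀ ρ, (R ρ).Gen v → (∀ s, φ s ((t ρ).run (pot x₀ + ε • v)) = (red (φ s) (t ρ) x₀).run v) ∧
      (R ρ).rounds v = (t ρ).rounds (pot x₀ + ε • v) ∧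
      (R ρ).tests v = (t ρ).tests (pot x₀ + ε • v) := by
    intro v
    have h1 : ∀ᶠ ε in 𝓝[>] (0 : ℝ), ∀ ρ, (R ρ).Gen v →
        (∀ s, φ s ((t ρ).run (pot x₀ + ε • v)) = (red (φ s) (t ρ) x₀).run v) ∧
        (R ρ).rounds v = (t ρ).rounds (pot x₀ + ε • v) ∧
        (R ρ).tests v = (t ρ).tests (pot x₀ + ε • v) := by
      refine eventually_all.2 fun ρ => ?_
      by_cases hG : (R ρ).Gen v
      · have h2 : ∀ᶠ ε in 𝓝[>] (0 : ℝ), ∀ s,
            φ s ((t ρ).run (pot x₀ + ε • v)) = (red (φ s) (t ρ) x₀).run v := by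
          refine eventually_all.2 fun s => ?_
          filter_upwards [(hgood ρ).1 s v (red_gen _ _ _ _ hG)] with ε h
          exact h.1
        filter_upwards [h2, (hgood ρ).2 v hG] with ε h3 h4 _
        exact ⟨h3, h4.2⟩
      · exact Eventually.of_forall fun ε h => absurd h hG
    obtain ⟨ε, ⟨h2, h3⟩, h4⟩ := ((h1.and ((tendsto_line (pot x₀) v).eventually
      (hW.mem_nhds hxW))).and self_mem_nhdsWithin).exists
    exact ⟨ε, h4, h3, h2⟩
  have hvv : ∀ (ε : ℝ) (u : Var (K + 1) n → ℝ) (s : Tup (K + 1) n),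
      val c (pot x₀ + ε • u) s = ε * val c u s := by
    intro ε u s
    rw [val_add_smul, hval, zero_add]
  have hEv : ∀ (ε : ℝ) (u : Var (K + 1) n → ℝ) e,
      dot (E e) (pot x₀ + ε • u) = ε * dot (E e) u := by
    intro ε u e
    rw [dot_add_smul, hEpot, zero_add]
  -- the forms
  set FL : Set (Var (K + 1) n → ℝ) := (⋃ ρ, forms (R ρ)) ∪ (Set.range (form c) ∪ Set.range E)
    with hFL
  have hFLfin : FL.Finite := (Set.finite_iUnion fun ρ => forms_finite (R ρ)).union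
    ((Set.finite_range _).union (Set.finite_range _))
  set FL' : Set (Var (K + 1) n → ℝ) := FL ∪ ⋃ s, tl c s '' FL with hFL'
  have hFLfin' : FL'.Finite := hFLfin.union (Set.finite_iUnion fun s => hFLfin.image _)
  have hmem : ∀ ρ, ∀ L ∈ forms (R ρ), L ∈ FL := fun ρ L hL => Or.inl (Set.mem_iUnion.2 ⟨ρ, hL⟩)
  have hmemf : ∀ s, form c s ∈ FL := fun s => Or.inr (Or.inl ⟨s, rfl⟩)
  have hmemE : ∀ e, E e ∈ FL := fun e => Or.inr (Or.inr ⟨e, rfl⟩)
  have hmem' : ∀ L ∈ FL, L ∈ FL' := fun L hL => Or.inl hL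
  have hmemtl : ∀ L ∈ FL, ∀ s, tl c s L ∈ FL' := fun L hL s =>
    Or.inr (Set.mem_iUnion.2 ⟨s, L, hL, rfl⟩)
  obtain ⟨x, u, hI⟩ := exists_inst hc hFLfin'
  have hune : ∀ (M : Mt K n), ∀ L ∈ FL', L ≠ 0 → dot L (u M) ≠ 0 :=
    fun M L hL h0 => inst_ne hI M hL h0
  have hzne : ∀ (M : Mt K n) s, ∀ L ∈ FL, (¬ ∃ a : ℝ, L = a • form c s) →
      dot L (yes c (u M) s) ≠ 0 := by
    intro M s L hL h
    rw [dot_yes]
    exact hune M _ (hmemtl L hL s) (tl_ne h)
  obtain ⟨ε, hε1, hε⟩ : ∃ ε : ℝ, (∀ (M : Mt K n) s, ∀ L ∈ FL,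
      (¬ ∃ a : ℝ, L = a • form c s) →
      SignType.sign (dot L (noi c (u M) ε s)) = SignType.sign (dot L (yes c (u M) s)) ∧
      SignType.sign (dot L (noi c (u M) (-ε) s)) = SignType.sign (dot L (yes c (u M) s))) ∧
      0 < ε := by
    have h1 : ∀ᶠ ε in 𝓝[>] (0 : ℝ), ∀ (M : Mt K n) s, ∀ L ∈ FL,
        (¬ ∃ a : ℝ, L = a • form c s) →
        SignType.sign (dot L (noi c (u M) ε s)) = SignType.sign (dot L (yes c (u M) s)) ∧
        SignType.sign (dot L (noi c (u M) (-ε) s)) = SignType.sign (dot L (yes c (u M) s)) := by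
      refine eventually_all.2 fun M => eventually_all.2 fun s => (eventually_all_finite hFLfin).2
        fun L hL => ?_
      by_cases h : ∃ a : ℝ, L = a • form c s
      · exact Eventually.of_forall fun ε h' => absurd h h'
      · filter_upwards [eventually_sign L (yes c (u M) s) (Pi.single (lv s) 1)
          (hzne M s L hL h), eventually_sign L (yes c (u M) s) (-Pi.single (lv s) 1)
          (hzne M s L hL h)] with ε h2 h3 _
        refine ⟨h2, ?_⟩
        unfold noi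
        rw [neg_smul, ← smul_neg]
        exact h3
    obtain ⟨ε, h2, h3⟩ := (h1.and self_mem_nhdsWithin).exists
    exact ⟨ε, h2, h3⟩
  have hyne' : ∀ (a : ℝ), (a = ε ∨ a = -ε) → ∀ (M : Mt K n) s, ∀ L ∈ FL, L ≠ 0 →
      dot L (noi c (u M) a s) ≠ 0 := by
    intro a ha M s L hL h0
    have ha0 : a ≠ 0 := by
      rcases ha with rfl | rfl
      · exact hε.ne'
      · exact neg_ne_zero.2 hε.ne'
    by_cases h : ∃ a : ℝ, L = a • form c s
    · obtain ⟨b, rfl⟩ := h
      rw [dot_noi_smul hc]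
      have hb : b ≠ 0 := by
        rintro rfl
        rw [zero_smul] at h0
        exact h0 rfl
      exact mul_ne_zero ha0 (mul_ne_zero hb (hc _))
    · intro h1
      have h2 : SignType.sign (dot L (noi c (u M) a s)) =
          SignType.sign (dot L (yes c (u M) s)) := by
        rcases ha with rfl | rfl
        · exact (hε1 M s L hL h).1
        · exact (hε1 M s L hL h).2
      rw [h1, sign_zero] at h2
      exact hzne M s L hL h (sign_eq_zero_iff.1 h2.symm)
  -- the inputs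
  have hA : ∀ v : Var (K + 1) n → ℝ, (∀ L ∈ FL, L ≠ 0 → dot L v ≠ 0) →
      (∀ s, (1 + γ) / 2 ≤
        prob p (fun ρ => (red (φ s) (t ρ) x₀).run v = decide (0 < val c v s))) ∧
      (∀ ρ, (R ρ).rounds v ≤ r) ∧ ∑ ρ, p ρ * (R ρ).tests v ≤ T := by
    intro v hvF
    obtain ⟨ε', hε', h1, h2⟩ := hev v
    have hG : ∀ ρ, (R ρ).Gen v := fun ρ => gen_of _ fun L hL h0 => hvF L (hmem ρ L hL) h0
    have h3 := hno _ h1 (fun s => by
        rw [hvv]
        refine mul_ne_zero hε'.ne' ?_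
        rw [← dot_form]
        exact hvF _ (hmemf s) (form_ne hc s))
      (fun e => by
        rw [hEv]
        exact mul_ne_zero hε'.ne' (hvF _ (hmemE e) (hE e).1))
    refine ⟨fun s => ?_, fun ρ => ?_, ?_⟩
    · have h4 := h3.1 s
      have e1 : (fun ρ => φ s ((t ρ).run (pot x₀ + ε' • v)) =
          decide (0 < val c (pot x₀ + ε' • v) s)) =
          fun ρ => (red (φ s) (t ρ) x₀).run v = decide (0 < val c v s) := by
        funext ρ
        have e2 : (0 < val c (pot x₀ + ε' • v) s) = (0 < val c v s) := by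
          rw [hvv]
          exact propext (mul_pos_iff_of_pos_left hε')
        rw [(h2 ρ (hG ρ)).1 s]
        simp only [e2]
      rw [e1] at h4
      exact h4
    · rw [(h2 ρ (hG ρ)).2.1]
      exact h3.2.1 ρ
    · rw [sum_congr rfl fun ρ _ => by rw [(h2 ρ (hG ρ)).2.2]]
      exact h3.2.2
  refine ⟨x, u, FL', ε, R, hI, fun ρ L hL => hmem' L (hmem ρ L hL),
    fun ρ L hL s => hmemtl L (hmem ρ L hL) s, fun ρ M j L hL h => hε1 M _ L (hmem ρ L hL) h, ?_,
    fun M j => (hA _ (hyne' ε (Or.inl rfl) M (tp M j))).2.1,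
    fun M => (hA (u M) fun L hL h0 => hune M L (hmem' L hL) h0).2.2⟩
  intro M j
  set s := tp M j with hs
  have h1 := (hA _ (hyne' ε (Or.inl rfl) M s)).1 s
  have h2 := (hA _ (hyne' (-ε) (Or.inr rfl) M s)).1 s
  have hvn : ∀ a : ℝ, val c (noi c (u M) a s) s = a * c (Fin.last K) := by
    intro a
    have h3 := dot_noi_smul hc (u M) a s 1
    rwa [one_smul, dot_form, one_mul] at h3
  have hne : decide (0 < val c (noi c (u M) ε s) s) ≠
      decide (0 < val c (noi c (u M) (-ε) s) s) := by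
    rw [hvn, hvn]
    rcases lt_or_gt_of_ne (hc (Fin.last K)) with h | h
    · have e1 : ¬ 0 < ε * c (Fin.last K) := not_lt.2 (mul_neg_of_pos_of_neg hε h).le
      have e2 : 0 < -ε * c (Fin.last K) := mul_pos_of_neg_of_neg (neg_neg_of_pos hε) h
      rw [decide_eq_false e1, decide_eq_true e2]
      exact Bool.false_ne_true
    · have e1 : 0 < ε * c (Fin.last K) := mul_pos hε h
      have e2 : ¬ 0 < -ε * c (Fin.last K) :=
        not_lt.2 (mul_neg_of_neg_of_pos (neg_neg_of_pos hε) h).le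
      rw [decide_eq_true e1, decide_eq_false e2]
      exact Bool.false_ne_true.symm
  have h5 : ∀ ρ, (if (red (φ s) (t ρ) x₀).run (noi c (u M) ε s) =
        decide (0 < val c (noi c (u M) ε s) s) then p ρ else 0) +
      (if (red (φ s) (t ρ) x₀).run (noi c (u M) (-ε) s) =
        decide (0 < val c (noi c (u M) (-ε) s) s) then p ρ else 0) ≤
      p ρ + (if Diff (R ρ) (noi c (u M) ε s) (noi c (u M) (-ε) s) then p ρ else 0) := by
    intro ρ
    have h0 := hp0 ρ
    by_cases hb : Diff (R ρ) (noi c (u M) ε s) (noi c (u M) (-ε) s)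
    · rw [if_pos hb]
      split_ifs <;> linarith
    · have hb' : ¬ Diff (red (φ s) (t ρ) x₀) (noi c (u M) ε s) (noi c (u M) (-ε) s) :=
        fun h => hb (red_diff _ _ _ _ h)
      have hb1 := (of_not_diff _ (fun L hL h0 => hyne' ε (Or.inl rfl) M s L
        (hmem ρ L (by rw [red_forms _ (φ s)]; exact hL)) h0) hb').2
      rw [if_neg hb, hb1, add_zero]
      by_cases h6 : (red (φ s) (t ρ) x₀).run (noi c (u M) (-ε) s) =
          decide (0 < val c (noi c (u M) (-ε) s) s)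
      · rw [if_pos h6, if_neg (fun h7 => hne (h7.symm.trans h6))]
        linarith
      · rw [if_neg h6]
        split_ifs <;> linarith
  have h6 := sum_le_sum fun ρ (_ : ρ ∈ (univ : Finset Ω)) => h5 ρ
  rw [sum_add_distrib, sum_add_distrib, hp1] at h6
  rw [prob_eq] at h1 h2
  rw [prob_eq]
  linarith

open Classical in
/-- trees which determine the signs of all forms -/
theorem bounded_sort {c : Fin (K + 1) → ℝ} (hc : ∀ p, c p ≠ 0) {κ' : Type}
    [Finite κ'] {E : κ' → Var (K + 1) n → ℝ} (hE : Indep c E) {P : Type} [TopologicalSpace P]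
    [BaireSpace P]
    {pot : P → Var (K + 1) n → ℝ} (hpot : Continuous pot) (hval : ∀ y s, val c (pot y) s = 0)
    (hEpot : ∀ y e, dot (E e) (pot y) = 0)
    {W : Set (Var (K + 1) n → ℝ)} (hW : IsOpen W) {y₀ : P} (hy₀ : pot y₀ ∈ W)
    {β : Type} (φ : Tup (K + 1) n → β → Bool) {Ω : Type} [Fintype Ω] (p : Ω → ℝ)
    (hp0 : ∀ ρ, 0 ≤ p ρ) (hp1 : ∑ ρ, p ρ = 1) (t : Ω → RTree pot β) {γ T : ℝ} (hγ : 0 < γ) {k : ℕ}
    (hno : ∀ w ∈ W, (∀ s, val c w s ≠ 0) → (∀ e, dot (E e) w ≠ 0) →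
      (∀ s, (1 + γ) / 2 ≤ prob p (fun ρ => φ s ((t ρ).run w) = decide (0 < val c w s))) ∧
        (∀ ρ, (t ρ).rounds w ≤ k + 1) ∧ ∑ ρ, p ρ * (t ρ).tests w ≤ T) (hn : 1 ≤ n) :
    γ ≤ 1 ∧ γ * n ≤ T ∧ γ ^ (k + 3) * (n : ℝ) ^ (K + (k + 1)) ≤
      32 * Real.exp 1 * (2 * Real.exp 1 * T) ^ (k + 1) := by
  obtain ⟨x, u, S, ε, R, hI, hR, hRt, hε, hdet, hround, hcost⟩ := core_sort hc hE hpot hval hEpot
    hW hy₀ φ p hp0 hp1 t hno
  refine count_main hc hI p hp0 hp1 R hR hγ (fun ρ M => univ.filter fun j =>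
    Diff (R ρ) (noi c (u M) ε (tp M j)) (noi c (u M) (-ε) (tp M j))) (fun ρ M j hj =>
    lead_of_path hc hI (hR ρ) (hRt ρ) (fun L hL h => (hε ρ M j L hL h).1)
      (fun L hL h => (hε ρ M j L hL h).2) (hround M j ρ) (mem_filter.1 hj).2) ?_ hcost hn
  intro M j
  have h := hdet M j
  rw [prob_eq] at h
  refine h.trans (le_of_eq (sum_congr rfl fun ρ _ => ?_))
  simp only [mem_filter, mem_univ, true_and]

end Pool.Agent.H692.RB
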