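import Mathlib
import Pool.Agent.H692.RB.Gen
import Pool.Agent.H692.RB.Final
import Pool.Agent.H692.RT.TriFinal

/-!
# Triangles
-/

set_option autoImplicit false
set_option linter.unusedSectionVars false

namespace Pool.Agent.H692.RB

open Finset Filter Topology
open Pool.Agent.H692.KS (RTree Regular Shallow RTree.run RTree.rounds RTree.tests Var Tup)
open Pool.Agent.H692.RT (prob prob_eq c111 c111_ne val_c111)
open Pool.Agent.N575.LDT (Edge Tri Wts wt pot pot_continuous wt_pot)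

section

variable {ι ι' : Type} [Fintype ι] [Fintype ι'] {P : Type} [TopologicalSpace P]

/-- renaming of the variables -/
def ren (σ : ι ≃ ι') (w : ι' → ℝ) : ι → ℝ := fun i => w (σ i)

noncomputable def renL (σ : ι ≃ ι') : (ι' → ℝ) →L[ℝ] (ι → ℝ) :=
  ContinuousLinearMap.pi fun i => ContinuousLinearMap.proj (σ i)

theorem renL_apply (σ : ι ≃ ι') (w : ι' → ℝ) : renL σ w = ren σ w := rfl

theorem ren_continuous (σ : ι ≃ ι') : Continuous (ren σ) := (renL σ).continuous

theorem ren_symm (σ : ι ≃ ι') (w : ι → ℝ) : ren σ (ren σ.symm w) = w := by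
  funext i
  unfold ren
  rw [Equiv.symm_apply_apply]

theorem shallow_ren (σ : ι ≃ ι') {pot : P → ι → ℝ} {f : (ι → ℝ) → ℤ} (h : Shallow pot f) :
    Shallow (fun x => ren σ.symm (pot x)) fun w => f (ren σ w) := by
  refine h.mono fun x hx => ?_
  have h1 : Tendsto (ren σ) (𝓝 (ren σ.symm (pot x))) (𝓝 (pot x)) := by
    have h2 := (ren_continuous σ).tendsto (ren σ.symm (pot x))
    rwa [ren_symm] at h2
  have h3 := h1.eventually hx
  show ∀ᶠ w in 𝓝 (ren σ.symm (pot x)), f (ren σ w) = f (ren σ (ren σ.symm (pot x)))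
  rw [ren_symm]
  exact h3

theorem regular_ren (σ : ι ≃ ι') {pot : P → ι → ℝ} {g : (ι → ℝ) → ℝ} (h : Regular pot g) :
    Regular (fun x => ren σ.symm (pot x)) fun w => g (ren σ w) := by
  filter_upwards [h] with x hx
  obtain ⟨h1, h2⟩ := hx
  have h3 : HasFDerivAt g (fderiv ℝ g (pot x)) (renL σ (ren σ.symm (pot x))) := by
    rw [renL_apply, ren_symm]
    exact h1.hasFDerivAt
  have h4 : HasFDerivAt (fun w => g (ren σ w)) ((fderiv ℝ g (pot x)).comp (renL σ))
      (ren σ.symm (pot x)) := h3.comp (ren σ.symm (pot x)) (renL σ).hasFDerivAt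
  refine ⟨h4.differentiableAt, ?_⟩
  rcases h2 with h2 | h2
  · left
    rw [ren_symm]
    exact h2
  · right
    rw [h4.fderiv]
    intro h5
    apply h2
    refine ContinuousLinearMap.ext fun v => ?_
    have h6 := DFunLike.congr_fun h5 (ren σ.symm v)
    rw [ContinuousLinearMap.comp_apply, renL_apply, ren_symm] at h6
    exact h6

/-- the tree after the renaming of the variables -/
noncomputable def mapT (σ : ι ≃ ι') {pot : P → ι → ℝ} {β : Type} :
    RTree pot β → RTree (fun x => ren σ.symm (pot x)) β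
  | .leaf b => .leaf b
  | .free f hf next => .free (fun w => f (ren σ w)) (shallow_ren σ hf) fun a => mapT σ (next a)
  | .round q g hg next => .round q (fun i w => g i (ren σ w)) (fun i => regular_ren σ (hg i))
      fun a => mapT σ (next a)

theorem mapT_spec (σ : ι ≃ ι') {pot : P → ι → ℝ} {β : Type} (t : RTree pot β) (w : ι' → ℝ) :
    (mapT σ t).run w = t.run (ren σ w) ∧ (mapT σ t).rounds w = t.rounds (ren σ w) ∧
      (mapT σ t).tests w = t.tests (ren σ w) := by
  induction t with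
  | leaf b => exact ⟨rfl, rfl, rfl⟩
  | free f hf next ih => exact ih _
  | round q g hg next ih =>
    have h := ih fun i => SignType.sign (g i (ren σ w))
    refine ⟨h.1, ?_, ?_⟩
    · show (mapT σ (next _)).rounds w + 1 = (next _).rounds (ren σ w) + 1
      rw [h.2.1]
    · show (mapT σ (next _)).tests w + q = (next _).tests (ren σ w) + q
      rw [h.2.2]

end

variable {n : ℕ}

/-- the edges as variables of three parts -/
def σE (n : ℕ) : Edge n ≃ Var (2 + 1) (n * n) :=
  Equiv.prodCongr (Equiv.refl (Fin 3)) finProdFinEquiv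

/-- the tuple of a triangle -/
def tt (s : Tri n) : Tup (2 + 1) (n * n) :=
  ![finProdFinEquiv (s.1, s.2.1), finProdFinEquiv (s.2.1, s.2.2), finProdFinEquiv (s.1, s.2.2)]

theorem val_tt (w : Var (2 + 1) (n * n) → ℝ) (s : Tri n) :
    KS.val c111 w (tt s) = wt (ren (σE n) w) s := by
  rw [val_c111]
  rfl

theorem tt_inj {s s' : Tri n} (h : tt s = tt s') : s = s' := by
  have h0 := congrFun h 0
  have h1 := congrFun h 1
  obtain ⟨i, j, k⟩ := s
  obtain ⟨i', j', k'⟩ := s'
  have e0 : (i, j) = (i', j') := finProdFinEquiv.injective h0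
  have e1 : (j, k) = (j', k') := finProdFinEquiv.injective h1
  rw [Prod.mk.injEq] at e0 e1
  rw [e0.1, e0.2, e1.2]

open Classical in
/-- the pairs of edges which form a triangle with an edge of the last part -/
noncomputable def OT (e : Fin (n * n)) : Finset (Fin 2 → Fin (n * n)) :=
  univ.image fun j : Fin n => ![finProdFinEquiv ((finProdFinEquiv.symm e).1, j),
    finProdFinEquiv (j, (finProdFinEquiv.symm e).2)]

theorem card_OT (e : Fin (n * n)) : (OT e).card = n := by
  classical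
  unfold OT
  rw [card_image_of_injective, card_univ, Fintype.card_fin]
  intro j j' h
  have h0 := congrFun h 0
  have e0 : ((finProdFinEquiv.symm e).1, j) = ((finProdFinEquiv.symm e).1, j') :=
    finProdFinEquiv.injective h0
  exact (Prod.mk.inj e0).2

theorem tp_OT {M : Mt 2 (n * n)} (hM : M ∈ Fintype.piFinset (OT : Fin (n * n) → _))
    (e : Fin (n * n)) : ∃ s : Tri n, tt s = tp M e := by
  classical
  have h := Fintype.mem_piFinset.1 hM e
  unfold OT at h
  obtain ⟨j, -, hj⟩ := mem_image.1 h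
  refine ⟨((finProdFinEquiv.symm e).1, j, (finProdFinEquiv.symm e).2), ?_⟩
  have h0 : M e 0 = finProdFinEquiv ((finProdFinEquiv.symm e).1, j) := by rw [← hj]; rfl
  have h1 : M e 1 = finProdFinEquiv (j, (finProdFinEquiv.symm e).2) := by rw [← hj]; rfl
  have hl : tp M e (Fin.last 2) = e := tp_last M e
  funext p
  fin_cases p
  · exact h0.symm.trans (tp_cast M e 0).symm
  · exact h1.symm.trans (tp_cast M e 1).symm
  · have h2 : finProdFinEquiv ((finProdFinEquiv.symm e).1, (finProdFinEquiv.symm e).2) = e :=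
      Equiv.apply_symm_apply _ _
    exact h2.trans hl.symm

/-- randomized trees with `r` rounds for triangles -/
theorem tri_rounds {W : Set (Wts n)} (hW : IsOpen W) {y₀ : Fin 3 × Fin n → ℝ}
    (hy₀ : pot y₀ ∈ W) {β : Type} (φ : β → Bool) {Ω : Type} [Fintype Ω]
    (p : Ω → ℝ) (hp0 : ∀ ρ, 0 ≤ p ρ) (hp1 : ∑ ρ, p ρ = 1)
    (t : Ω → RTree (pot : (Fin 3 × Fin n → ℝ) → Wts n) β) {γ T : ℝ} (hγ : 0 < γ) (hn : 1 ≤ n)
    {k : ℕ}
    (hno : ∀ w ∈ W, (∀ s, wt w s ≠ 0) →
      (1 + γ) / 2 ≤ prob p (fun ρ => φ ((t ρ).run w) = false) ∧ (∀ ρ, (t ρ).rounds w ≤ k + 1) ∧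
        ∑ ρ, p ρ * (t ρ).tests w ≤ T)
    (hyes : ∀ w ∈ W, ∀ τ, wt w τ = 0 → (∀ s, s ≠ τ → wt w s ≠ 0) →
      (1 + γ) / 2 ≤ prob p (fun ρ => φ ((t ρ).run w) = true)) :
    γ ≤ 1 ∧ γ * (n : ℝ) ^ 2 ≤ T ∧ γ ^ (k + 3) * (n : ℝ) ^ (2 * k + 3) ≤
      32 * Real.exp 1 * (2 * Real.exp 1 * T) ^ (k + 1) := by
  have hpot : Continuous fun x : Fin 3 × Fin n → ℝ =>
      ren (σE n).symm (pot x : Wts n) := (ren_continuous (σE n).symm).comp pot_continuous
  have h := bounded_gen (K := 2) (n := n * n) c111_ne (Set.range tt) hpot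
    (by
      rintro y _ ⟨s, rfl⟩
      rw [val_tt, ren_symm, wt_pot])
    (hW.preimage (ren_continuous (σE n))) (y₀ := y₀)
    (by
      show ren (σE n) (ren (σE n).symm (pot y₀)) ∈ W
      rw [ren_symm]
      exact hy₀)
    φ p hp0 hp1 (fun ρ => mapT (σE n) (t ρ)) hγ (k := k) (T := T)
    (by
      intro w hw hv
      have h1 := hno (ren (σE n) w) hw fun s => by
        rw [← val_tt]
        exact hv _ ⟨s, rfl⟩
      refine ⟨?_, fun ρ => ?_, ?_⟩
      · have e1 : (fun ρ => φ ((mapT (σE n) (t ρ)).run w) = false) =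
            fun ρ => φ ((t ρ).run (ren (σE n) w)) = false := by
          funext ρ
          rw [(mapT_spec (σE n) (t ρ) w).1]
        rw [e1]
        exact h1.1
      · rw [(mapT_spec (σE n) (t ρ) w).2.1]
        exact h1.2.1 ρ
      · rw [sum_congr rfl fun ρ _ => by rw [(mapT_spec (σE n) (t ρ) w).2.2]]
        exact h1.2.2)
    (by
      rintro w hw _ ⟨τ, rfl⟩ h0 hv
      rw [val_tt] at h0
      have h1 := hyes (ren (σE n) w) hw τ h0 fun s hs => by
        rw [← val_tt]
        exact hv _ ⟨s, rfl⟩ fun h2 => hs (tt_inj h2)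
      have e1 : (fun ρ => φ ((mapT (σE n) (t ρ)).run w) = true) =
          fun ρ => φ ((t ρ).run (ren (σE n) w)) = true := by
        funext ρ
        rw [(mapT_spec (σE n) (t ρ) w).1]
      rw [e1]
      exact h1)
    (m := n) hn OT card_OT (fun M hM e => tp_OT hM e) (Nat.mul_pos hn hn)
  obtain ⟨h1, h2, h3⟩ := h
  refine ⟨h1, ?_, ?_⟩
  · have e1 : γ * (n : ℝ) ^ 2 = γ * ((n * n : ℕ) : ℝ) := by push_cast; ring
    rw [e1]
    exact h2
  · refine le_trans (le_of_eq ?_) h3
    push_cast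
    ring

/-- The family of trees `t ρ` with the probabilities `p ρ` finds out whether there is a triangle of
weight zero, for real edge weights of absolute value less than `δ` with at most one such triangle: if
there is none then the answer is no with probability `(1 + γ) / 2`, after at most `r` rounds and at
most `T` tests on average; if there is exactly one then the answer is yes with probability
`(1 + γ) / 2`. -/
def SolvesTri {n : ℕ} (δ : ℝ) {Ω : Type} [Fintype Ω] (p : Ω → ℝ)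
    (t : Ω → RTree (pot : (Fin 3 × Fin n → ℝ) → Wts n) Bool) (γ T : ℝ) (r : ℕ) : Prop :=
  ((∀ ρ, 0 ≤ p ρ) ∧ ∑ ρ, p ρ = 1) ∧
    (∀ w : Wts n, (∀ e, |w e| < δ) → (∀ s, wt w s ≠ 0) →
      (1 + γ) / 2 ≤ prob p (fun ρ => (t ρ).run w = false) ∧ (∀ ρ, (t ρ).rounds w ≤ r) ∧
        ∑ ρ, p ρ * (t ρ).tests w ≤ T) ∧
    ∀ w : Wts n, (∀ e, |w e| < δ) → (∃ τ, wt w τ = 0 ∧ ∀ s, s ≠ τ → wt w s ≠ 0) →
      (1 + γ) / 2 ≤ prob p (fun ρ => (t ρ).run w = true)

/-- the bound for randomized trees for triangles with at most `r` rounds which make at most `T` tests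
on average -/
def TriBound (γ : ℝ) (r n : ℕ) (T : ℝ) : Prop :=
  γ ^ (r + 2) * (n : ℝ) ^ (2 * r + 1) ≤ 87 * (6 * T) ^ r ∧
    ∀ a : ℝ, 0 ≤ a → 16 ≤ n → T ≤ (n : ℝ) ^ 2 * Real.log n ^ a →
      Real.log n ≤ r * ((7 + 3 * Real.log (1 / γ) + a) * Real.log (Real.log n))

theorem solves_tri {δ : ℝ} (hδ : 0 < δ) {Ω : Type} [Fintype Ω] {p : Ω → ℝ}
    {t : Ω → RTree (pot : (Fin 3 × Fin n → ℝ) → Wts n) Bool} {γ T : ℝ} (hγ : 0 < γ) {r : ℕ}
    (hr : 1 ≤ r) (hn : 1 ≤ n) (h : SolvesTri δ p t γ T r) : TriBound γ r n T := by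
  obtain ⟨⟨hp0, hp1⟩, hno, hyes⟩ := h
  obtain ⟨k, rfl⟩ : ∃ k, r = k + 1 := ⟨r - 1, by omega⟩
  have hn0 : (0 : ℝ) < n := by exact_mod_cast hn
  have hW : IsOpen {w : Wts n | ∀ e, |w e| < δ} := by
    have : {w : Wts n | ∀ e, |w e| < δ} = ⋂ e, {w : Wts n | |w e| < δ} := by
      ext w
      simp
    rw [this]
    exact isOpen_iInter_of_finite fun e => isOpen_lt (continuous_apply e).abs continuous_const
  have hy₀ : (pot (fun _ => 0) : Wts n) ∈ {w : Wts n | ∀ e, |w e| < δ} := by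
    intro e
    have : (pot (fun _ => 0) : Wts n) e = 0 := by
      unfold pot
      simp
    rw [this, abs_zero]
    exact hδ
  obtain ⟨h1, h2, h3⟩ := tri_rounds hW hy₀ id p hp0 hp1 t hγ hn (k := k) (T := T)
    (fun w hw hs => hno w hw hs) (fun w hw τ h0 hs => hyes w hw ⟨τ, h0, hs⟩)
  have hT : 0 < T := lt_of_lt_of_le (by positivity) h2
  have h4 : Bound 1 γ (k + 1) n (T / n) := by
    refine bound_of hγ h1 (by positivity) ?_
    have e1 : γ ^ (k + 3) * (n : ℝ) ^ (1 + (k + 1)) * (n : ℝ) ^ (k + 1) =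
        γ ^ (k + 3) * (n : ℝ) ^ (2 * k + 3) := by
      rw [mul_assoc, ← pow_add]
      congr 2
      ring
    have e2 : 32 * Real.exp 1 * (2 * Real.exp 1 * (T / n)) ^ (k + 1) * (n : ℝ) ^ (k + 1) =
        32 * Real.exp 1 * (2 * Real.exp 1 * T) ^ (k + 1) := by
      rw [mul_assoc, ← mul_pow]
      congr 2
      field_simp
    refine le_of_mul_le_mul_right ?_ (pow_pos hn0 (k + 1))
    rw [e1, e2]
    exact h3
  obtain ⟨h5, h6⟩ := h4
  refine ⟨?_, fun a ha h16 hTa => ?_⟩
  · have e1 : γ ^ (k + 1 + 2) * (n : ℝ) ^ (2 * (k + 1) + 1) =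
        γ ^ (k + 1 + 2) * (n : ℝ) ^ (1 + (k + 1)) * (n : ℝ) ^ (k + 1) := by
      rw [mul_assoc, ← pow_add]
      congr 2
      ring
    have e2 : 87 * (6 * T) ^ (k + 1) = 87 * (6 * (T / n)) ^ (k + 1) * (n : ℝ) ^ (k + 1) := by
      rw [mul_assoc, ← mul_pow]
      congr 2
      field_simp
    rw [e1, e2]
    exact mul_le_mul_of_nonneg_right h5 (by positivity)
  · have h7 := h6 a ha h16 (by
      rw [div_le_iff₀ hn0]
      refine hTa.trans (le_of_eq ?_)
      ring)
    rw [Nat.cast_one, one_mul] at h7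
    exact h7

end Pool.Agent.H692.RB
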