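import Mathlib
import Pool.Agent.H692.RB.Sort
import Pool.Agent.H692.RB.Final

/-!
# Sorting `X + Y`
-/

set_option autoImplicit false
set_option linter.unusedSectionVars false

namespace Pool.Agent.H692.RB

open Finset Filter Topology
open Pool.Agent.H692.KS
open Pool.Agent.H692.RT (prob prob_eq)

variable {K n : ℕ}

theorem prob_mono {Ω : Type} [Fintype Ω] {p : Ω → ℝ} (hp0 : ∀ ρ, 0 ≤ p ρ) {Q Q' : Ω → Prop}
    (h : ∀ ρ, Q ρ → Q' ρ) : prob p Q ≤ prob p Q' := by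
  classical
  rw [prob_eq, prob_eq]
  refine sum_le_sum fun ρ _ => ?_
  have h0 := hp0 ρ
  by_cases h1 : Q ρ
  · rw [if_pos h1, if_pos (h ρ h1)]
  · rw [if_neg h1]
    split_ifs <;> linarith

/-- The family of trees `t ρ` with the probabilities `p ρ` determines the signs of all the linear
forms with the coefficients `c` and one variable from each part, for the inputs `w` in `W` for which
none of them vanishes, and in which different numbers of the same part are different. -/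
def SignsK {K n : ℕ} (c : Fin (K + 1) → ℝ) (W : Set (Var (K + 1) n → ℝ)) {Ω : Type} [Fintype Ω]
    (p : Ω → ℝ) (t : Ω → RTree (pot c : (Fin (K + 1) → ℝ) → Var (K + 1) n → ℝ)
      (Tup (K + 1) n → Bool)) (γ T : ℝ) (r : ℕ) : Prop :=
  ((∀ ρ, 0 ≤ p ρ) ∧ ∑ ρ, p ρ = 1) ∧
    ∀ w ∈ W, (∀ q, Function.Injective fun i => w (q, i)) → (∀ s, val c w s ≠ 0) →
      (1 + γ) / 2 ≤ prob p (fun ρ => ∀ s, ((t ρ).run w s = true ↔ 0 < val c w s)) ∧
        (∀ ρ, (t ρ).rounds w ≤ r) ∧ ∑ ρ, p ρ * (t ρ).tests w ≤ T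

theorem signs {c : Fin (K + 1) → ℝ} (hc : ∀ p, c p ≠ 0) {W : Set (Var (K + 1) n → ℝ)}
    (hW : IsOpen W) (hy : ∃ y, pot c y ∈ W) {Ω : Type} [Fintype Ω] {p : Ω → ℝ}
    {t : Ω → RTree (pot c : (Fin (K + 1) → ℝ) → Var (K + 1) n → ℝ) (Tup (K + 1) n → Bool)}
    {γ T : ℝ} (hγ : 0 < γ) {r : ℕ} (hr : 1 ≤ r) (hn : 1 ≤ n) (h : SignsK c W p t γ T r) :
    Bound K γ r n T := by
  obtain ⟨⟨hp0, hp1⟩, h1⟩ := h
  obtain ⟨y₀, hy₀⟩ := hy
  obtain ⟨k, rfl⟩ : ∃ k, r = k + 1 := ⟨r - 1, by omega⟩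
  have hn0 : (0 : ℝ) < n := by exact_mod_cast hn
  obtain ⟨h2, h3, h4⟩ := bounded_sort hc (indep_dif c) (pot_continuous c) (val_pot hc) (dif_pot c)
    hW hy₀ (fun s b => b s) p hp0 hp1 t hγ (k := k) (T := T) (fun w hw hv hd => by
      have h5 := h1 w hw (fun q i j hij => by
        by_contra hne
        have h3 := hd ⟨((q, i), (q, j)), by simpa using hne, rfl⟩
        rw [dot_dif] at h3
        exact h3 (sub_eq_zero.2 hij)) hv
      refine ⟨fun s => h5.1.trans (prob_mono hp0 fun ρ h6 => ?_), h5.2⟩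
      rw [Bool.eq_iff_iff, decide_eq_true_iff]
      exact h6 s) hn
  exact bound_of hγ h2 (lt_of_lt_of_le (mul_pos hγ hn0) h3) h4

/-- the coefficients of `a - b + c - d` -/
def c4 : Fin (3 + 1) → ℝ := ![1, -1, 1, -1]

theorem c4_ne : ∀ p, c4 p ≠ 0 := by
  intro p
  fin_cases p <;> simp [c4]

theorem val_c4 (w : Var (3 + 1) n → ℝ) (s : Tup (3 + 1) n) :
    val c4 w s = w (0, s 0) - w (1, s 1) + w (2, s 2) - w (3, s 3) := by
  unfold KS.val c4
  rw [Fin.sum_univ_four]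
  simp
  ring

/-- the pairs of an element of `X` (the parts `0`, `1`) and an element of `Y` (the parts `2`, `3`) -/
abbrev Pairs (n : ℕ) : Type := {q : (Fin 4 × Fin n) × (Fin 4 × Fin n) // q.1.1 < 2 ∧ 2 ≤ q.2.1}

/-- the sum of a pair -/
def sm (w : Fin 4 × Fin n → ℝ) (q : Pairs n) : ℝ := w q.1.1 + w q.1.2

/-- the positions `pos` are those of a sorted list of the pairs -/
def Sorted (w : Fin 4 × Fin n → ℝ) (pos : Pairs n → ℕ) : Prop :=
  Function.Injective pos ∧ ∀ q q', pos q < pos q' → sm w q ≤ sm w q'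

/-- The family of trees `t ρ` with the probabilities `p ρ` sorts `X + Y` with probability
`(1 + γ) / 2`, in at most `r` rounds and with at most `T` tests on average, if all the sums are
different. -/
def SortsXY {n : ℕ} {Ω : Type} [Fintype Ω] (p : Ω → ℝ)
    (t : Ω → RTree (pot c4 : (Fin 4 → ℝ) → Fin 4 × Fin n → ℝ) (Pairs n → ℕ)) (γ T : ℝ)
    (r : ℕ) : Prop :=
  ((∀ ρ, 0 ≤ p ρ) ∧ ∑ ρ, p ρ = 1) ∧
    ∀ w : Fin 4 × Fin n → ℝ, Function.Injective (sm w) →
      (1 + γ) / 2 ≤ prob p (fun ρ => Sorted w ((t ρ).run w)) ∧ (∀ ρ, (t ρ).rounds w ≤ r) ∧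
        ∑ ρ, p ρ * (t ρ).tests w ≤ T

/-- two different pairs of elements of the same parts -/
abbrev Same (n : ℕ) : Type := {q : Pairs n × Pairs n //
  q.1 ≠ q.2 ∧ q.1.1.1.1 = q.2.1.1.1 ∧ q.1.1.2.1 = q.2.1.2.1}

/-- the difference of the sums -/
noncomputable def sd (q : Same n) : Var (3 + 1) n → ℝ := fun v =>
  (if v = q.1.1.1.1 then 1 else 0) + (if v = q.1.1.1.2 then 1 else 0) -
    (if v = q.1.2.1.1 then 1 else 0) - (if v = q.1.2.1.2 then 1 else 0)

theorem dot_sd (q : Same n) (w : Var (3 + 1) n → ℝ) :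
    dot (sd q) w = sm w q.1.1 - sm w q.1.2 := by
  unfold dot sd sm
  simp only [add_mul, sub_mul, sum_add_distrib, sum_sub_distrib, ite_mul, one_mul, zero_mul,
    sum_ite_eq', mem_univ, if_true]
  ring

theorem sd_ne (q : Same n) : sd q ≠ 0 := by
  obtain ⟨⟨q₁, q₂⟩, hne, h1, h2⟩ := q
  intro h0
  obtain ⟨⟨a, b⟩, ha, hb⟩ := q₁
  obtain ⟨⟨a', b'⟩, ha', hb'⟩ := q₂
  simp only at h1 h2 ha hb ha' hb'
  have hab : a ≠ b := fun h => absurd (h ▸ ha : b.1 < 2) (not_lt.2 hb)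
  have hab' : a ≠ b' := fun h => absurd (h ▸ ha : b'.1 < 2) (not_lt.2 hb')
  have hba' : b ≠ a' := fun h => absurd (h ▸ hb : 2 ≤ a'.1) (not_le.2 ha')
  by_cases h3 : a = a'
  · have h4 : b ≠ b' := by
      rintro rfl
      apply hne
      subst h3
      rfl
    have h5 := congrFun h0 b
    unfold sd at h5
    simp only [if_neg (Ne.symm hab), if_neg hba', if_neg h4, if_true, Pi.zero_apply] at h5
    norm_num at h5
  · have h5 := congrFun h0 a
    unfold sd at h5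
    simp only [if_neg hab, if_neg h3, if_neg hab', if_true, Pi.zero_apply] at h5
    norm_num at h5

theorem indep_sd : Indep c4 (sd : Same n → Var (3 + 1) n → ℝ) := by
  intro q
  refine ⟨sd_ne q, fun s a h => ?_⟩
  have hq := q.2
  -- a part without variables of `q`
  obtain ⟨p, hp1, hp2⟩ : ∃ p : Fin (3 + 1), p ≠ q.1.1.1.1.1 ∧ p ≠ q.1.1.1.2.1 := by
    generalize q.1.1.1.1.1 = x
    generalize q.1.1.1.2.1 = y
    revert x y
    decide
  have h1 := congrFun h (p, s p)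
  have h2 : sd q (p, s p) = 0 := by
    unfold sd
    rw [if_neg (fun h => hp1 (congrArg Prod.fst h)), if_neg (fun h => hp2 (congrArg Prod.fst h)),
      if_neg (fun h => hp1 ((congrArg Prod.fst h).trans hq.2.1.symm)),
      if_neg (fun h => hp2 ((congrArg Prod.fst h).trans hq.2.2.symm))]
    ring
  rw [h2, Pi.smul_apply, smul_eq_mul] at h1
  have h3 : form c4 s (p, s p) = c4 p := by
    unfold form
    simp
  rw [h3] at h1
  have h4 : a = 0 := by
    rcases mul_eq_zero.1 h1.symm with h | h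
    · exact h
    · exact absurd h (c4_ne p)
  rw [h4, zero_smul] at h
  exact sd_ne q h

theorem sd_pot (y : Fin (3 + 1) → ℝ) (q : Same n) : dot (sd q) (pot c4 y) = 0 := by
  rw [dot_sd]
  unfold sm pot
  rw [q.2.2.1, q.2.2.2, sub_self]

/-- the numbers of the four parts are near `1`, `2`, `5` and `4` -/
def near4 : Set (Var (3 + 1) n → ℝ) :=
  {w | ∀ i, |w (0, i) - 1| < 1 / 8 ∧ |w (1, i) - 2| < 1 / 8 ∧ |w (2, i) - 5| < 1 / 8 ∧
    |w (3, i) - 4| < 1 / 8}

theorem near4_open : IsOpen (near4 : Set (Var (3 + 1) n → ℝ)) := by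
  have : (near4 : Set (Var (3 + 1) n → ℝ)) = ⋂ i : Fin n, {w | |w (0, i) - 1| < 1 / 8 ∧
      |w (1, i) - 2| < 1 / 8 ∧ |w (2, i) - 5| < 1 / 8 ∧ |w (3, i) - 4| < 1 / 8} := by
    ext w
    simp [near4]
  rw [this]
  refine isOpen_iInter_of_finite fun i => ?_
  have h : ∀ (v : Var (3 + 1) n) (a : ℝ), IsOpen {w : Var (3 + 1) n → ℝ | |w v - a| < 1 / 8} :=
    fun v a => isOpen_lt (((continuous_apply v).sub continuous_const).abs) continuous_const
  exact (h _ _).inter ((h _ _).inter ((h _ _).inter (h _ _)))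

theorem pot_near4 : (pot c4 ![1, -2, 5, -4] : Var (3 + 1) n → ℝ) ∈ near4 := by
  intro i
  unfold pot c4
  rw [Fin.sum_univ_four]
  simp
  norm_num

theorem inj_sm {w : Var (3 + 1) n → ℝ} (hw : w ∈ near4) (hv : ∀ s, val c4 w s ≠ 0)
    (hE : ∀ e : Same n, dot (sd e) w ≠ 0) : Function.Injective (sm w) := by
  intro q q' h
  by_contra hne
  by_cases hs : q.1.1.1 = q'.1.1.1 ∧ q.1.2.1 = q'.1.2.1
  · have h1 := hE ⟨(q, q'), hne, hs.1, hs.2⟩
    rw [dot_sd] at h1
    exact h1 (sub_eq_zero.2 h)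
  · obtain ⟨⟨⟨p, i⟩, ⟨o, j⟩⟩, hp, ho⟩ := q
    obtain ⟨⟨⟨p', i'⟩, ⟨o', j'⟩⟩, hp', ho'⟩ := q'
    have h1 := hw i
    have h2 := hw j
    have h3 := hw i'
    have h4 := hw j'
    have h5 : w (0, i) - w (1, i') + w (2, j) - w (3, j') ≠ 0 := by
      have h7 := hv ![i, i', j, j']
      rw [val_c4] at h7
      exact h7
    have h6 : w (0, i') - w (1, i) + w (2, j') - w (3, j) ≠ 0 := by
      have h7 := hv ![i', i, j', j]
      rw [val_c4] at h7
      exact h7
    simp only [abs_lt] at h1 h2 h3 h4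
    unfold sm at h
    simp only at hp ho hp' ho' hs h
    have hlt : ∀ x : Fin 4, x < 2 → x = 0 ∨ x = 1 := by decide
    have hge : ∀ x : Fin 4, 2 ≤ x → x = 2 ∨ x = 3 := by decide
    rcases hlt p hp with rfl | rfl <;> rcases hge o ho with rfl | rfl <;>
      rcases hlt p' hp' with rfl | rfl <;> rcases hge o' ho' with rfl | rfl <;>
      first
        | exact hs ⟨rfl, rfl⟩
        | linarith [h1.1.1]
        | exact h5 (by linarith)
        | exact h6 (by linarith)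

theorem sorted_iff {w : Var (3 + 1) n → ℝ} {pos : Pairs n → ℕ} (h : Sorted w pos) {q q' : Pairs n}
    (hne : sm w q ≠ sm w q') : pos q' < pos q ↔ sm w q' < sm w q := by
  constructor
  · intro h1
    exact lt_of_le_of_ne (h.2 _ _ h1) (Ne.symm hne)
  · intro h1
    rcases lt_trichotomy (pos q') (pos q) with h2 | h2 | h2
    · exact h2
    · exact absurd (by rw [h.1 h2]) hne
    · exact absurd (h.2 _ _ h2) (not_le.2 h1)

theorem sorts_xy {Ω : Type} [Fintype Ω] {p : Ω → ℝ}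
    {t : Ω → RTree (pot c4 : (Fin 4 → ℝ) → Fin 4 × Fin n → ℝ) (Pairs n → ℕ)}
    {γ T : ℝ} (hγ : 0 < γ) {r : ℕ} (hr : 1 ≤ r) (hn : 1 ≤ n) (h : SortsXY p t γ T r) :
    Bound 3 γ r n T := by
  obtain ⟨⟨hp0, hp1⟩, h1⟩ := h
  obtain ⟨k, rfl⟩ : ∃ k, r = k + 1 := ⟨r - 1, by omega⟩
  have hn0 : (0 : ℝ) < n := by exact_mod_cast hn
  let q₁ : Tup (3 + 1) n → Pairs n := fun s =>
    ⟨((0, s 0), (2, s 2)), (by decide : (0 : Fin 4) < 2), (by decide : (2 : Fin 4) ≤ 2)⟩
  let q₂ : Tup (3 + 1) n → Pairs n := fun s =>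
    ⟨((1, s 1), (3, s 3)), (by decide : (1 : Fin 4) < 2), (by decide : (2 : Fin 4) ≤ 3)⟩
  obtain ⟨h2, h3, h4⟩ := bounded_sort c4_ne indep_sd (pot_continuous c4) (val_pot c4_ne) sd_pot
    near4_open (y₀ := ![1, -2, 5, -4]) pot_near4
    (fun s (pos : Pairs n → ℕ) => decide (pos (q₂ s) < pos (q₁ s))) p hp0 hp1 t hγ (k := k)
    (T := T) (fun w hw hv hd => by
      have h5 := h1 w (inj_sm hw hv hd)
      refine ⟨fun s => h5.1.trans (prob_mono hp0 fun ρ h6 => ?_), h5.2⟩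
      have h7 : val c4 w s = sm w (q₁ s) - sm w (q₂ s) := by
        rw [val_c4]
        show _ = w (0, s 0) + w (2, s 2) - (w (1, s 1) + w (3, s 3))
        ring
      have h8 : sm w (q₁ s) ≠ sm w (q₂ s) := by
        intro h9
        apply hv s
        rw [h7, h9, sub_self]
      rw [Bool.eq_iff_iff, decide_eq_true_iff, decide_eq_true_iff, sorted_iff h6 h8, h7, sub_pos])
    hn
  exact bound_of hγ h2 (lt_of_lt_of_le (mul_pos hγ hn0) h3) h4

end Pool.Agent.H692.RB
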